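import Pool.Agent.TH818.AR.Defs

/-!
# Algebraic independence of `t`, `K(t)`, `E(t)`, `K(1-t)`
-/

set_option autoImplicit false

open Set Polynomial Filter Topology

namespace Pool.Agent.TH818.AR.IndL

/-- the coefficients are analytic at zero -/
def AnP (P : ℝ → ℝ[X]) : Prop := ∀ m, AnalyticAt ℝ (fun s => (P s).coeff m) 0

lemma AnP.add {P Q : ℝ → ℝ[X]} (hP : AnP P) (hQ : AnP Q) : AnP (fun s => P s + Q s) := by
  intro m
  simp only [coeff_add]
  exact (hP m).add (hQ m)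

lemma AnP.mul {P Q : ℝ → ℝ[X]} (hP : AnP P) (hQ : AnP Q) : AnP (fun s => P s * Q s) := by
  intro m
  simp only [coeff_mul]
  exact Finset.analyticAt_fun_sum _ (fun i _ => (hP _).mul (hQ _))

lemma AnP.const (P : ℝ[X]) : AnP (fun _ => P) := fun _ => analyticAt_const

lemma AnP.pow {P : ℝ → ℝ[X]} (hP : AnP P) (n : ℕ) : AnP (fun s => P s ^ n) := by
  induction n with
  | zero => simpa using AnP.const 1
  | succ n ih =>
    simp only [pow_succ]
    exact ih.mul hP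

lemma AnP.C {f : ℝ → ℝ} (hf : AnalyticAt ℝ f 0) : AnP (fun s => Polynomial.C (f s)) := by
  intro m
  rcases m with _ | m
  · simpa using hf
  · simp only [coeff_C_succ]
    exact analyticAt_const

lemma AnP.sum {ι : Type} (s : Finset ι) {P : ι → ℝ → ℝ[X]} (hP : ∀ i, AnP (P i)) :
    AnP (fun x => ∑ i ∈ s, P i x) := by
  intro m
  simp only [finsetSum_coeff]
  exact Finset.analyticAt_fun_sum _ (fun i _ => hP i m)

/-- a polynomial relation for the logarithm is trivial -/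
lemma tr' (htr : T_tr) {κ : ℝ} {G : ℝ → ℝ} (hκ : κ ≠ 0) (hG : AnalyticAt ℝ G 0) {P : ℝ → ℝ[X]}
    (hP : AnP P) (n : ℕ) (hn : ∀ s, (P s).natDegree ≤ n)
    (h0 : ∀ᶠ s in 𝓝[>] (0 : ℝ), (P s).eval (κ * Real.log s + G s) = 0) :
    ∀ᶠ s in 𝓝 (0 : ℝ), P s = 0 := by
  have h1 := htr n (fun i s => (P s).coeff i) κ G hκ hG (fun i => hP i)
    (h0.mono (fun s hs => by
      rw [← hs]
      exact (eval_eq_sum_range' (Nat.lt_succ_of_le (hn s)) _).symm))
  have h2 : ∀ᶠ s in 𝓝 (0 : ℝ), ∀ i ∈ Finset.range (n + 1), (P s).coeff i = 0 :=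
    (Finset.eventually_all _).2 (fun i hi => h1 i (Nat.lt_succ_iff.1 (Finset.mem_range.1 hi)))
  filter_upwards [h2] with s hs
  ext i
  rw [coeff_zero]
  by_cases hi : i ≤ n
  · exact hs i (Finset.mem_range.2 (Nat.lt_succ_of_le hi))
  · exact coeff_eq_zero_of_natDegree_lt (lt_of_le_of_lt (hn s) (not_le.1 hi))

/-- a polynomial vanishing near zero is zero -/
lemma poly_zero {q : ℝ[X]} (h : ∀ᶠ s in 𝓝 (0 : ℝ), q.eval s = 0) : q = 0 := by
  by_contra hq
  obtain ⟨ε, hε, hball⟩ := Metric.eventually_nhds_iff_ball.1 h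
  apply hq
  apply Polynomial.eq_zero_of_infinite_isRoot
  refine Set.Infinite.mono (s := Set.Ioo 0 ε) ?_ (Set.Ioo_infinite hε)
  intro x hx
  exact hball x (by rw [Metric.mem_ball, Real.dist_0_eq_abs, abs_of_pos hx.1]; exact hx.2)

lemma an_eval (q : ℝ[X]) {f : ℝ → ℝ} {x : ℝ} (hf : AnalyticAt ℝ f x) :
    AnalyticAt ℝ (fun s => q.eval (f s)) x := by
  have h1 := (AnalyticOnNhd.eval_polynomial (𝕜 := ℝ) q) (f x) (Set.mem_univ _)
  exact h1.fun_comp hf

/-- the identity theorem on `(-∞, 1)` -/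
lemma ident {f : ℝ → ℝ} (hf : AnalyticOnNhd ℝ f (Iio 1)) (h : ∀ᶠ s in 𝓝 (0 : ℝ), f s = 0) :
    ∀ s : ℝ, s < 1 → f s = 0 := by
  intro s hs
  exact hf.eqOn_zero_of_preconnected_of_eventuallyEq_zero isPreconnected_Iio
    (show (0 : ℝ) ∈ Iio 1 by simp) h hs

/-- the polynomial in `Z` -/
noncomputable def Φ (a k α β : ℝ) (d i : ℕ) : ℝ[X] :=
  Polynomial.C a * ((Polynomial.C k * X) ^ i * (Polynomial.C α + Polynomial.C β * X) ^ (d - i))

lemma Φ_eval (a k α β : ℝ) (d i : ℕ) (Z : ℝ) :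
    (Φ a k α β d i).eval Z = a * ((k * Z) ^ i * (α + β * Z) ^ (d - i)) := by
  simp [Φ]

lemma deg1 (k : ℝ) : (Polynomial.C k * X : ℝ[X]).natDegree ≤ 1 :=
  (natDegree_C_mul_le _ _).trans natDegree_X_le

lemma deg2 (α β : ℝ) : (Polynomial.C α + Polynomial.C β * X : ℝ[X]).natDegree ≤ 1 :=
  (natDegree_add_le _ _).trans (max_le (by simp) (deg1 β))

lemma Φ_deg (a k α β : ℝ) {d i : ℕ} (hi : i ≤ d) : (Φ a k α β d i).natDegree ≤ d := by
  unfold Φ
  refine (natDegree_C_mul_le _ _).trans ?_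
  refine natDegree_mul_le.trans ?_
  have h1 := natDegree_pow_le_of_le i (deg1 k)
  have h2 := natDegree_pow_le_of_le (d - i) (deg2 α β)
  omega

lemma Φ_coeff (a k α β : ℝ) {d i : ℕ} (hi : i ≤ d) :
    (Φ a k α β d i).coeff d = a * (k ^ i * β ^ (d - i)) := by
  unfold Φ
  rw [coeff_C_mul]
  congr 1
  have h1 := natDegree_pow_le_of_le i (deg1 k)
  have h2 := natDegree_pow_le_of_le (d - i) (deg2 α β)
  have h3 : i * 1 + (d - i) * 1 = d := by omega
  have h4 := coeff_mul_add_eq_of_natDegree_le h1 h2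
  rw [h3, coeff_pow_of_natDegree_le (deg1 k), coeff_pow_of_natDegree_le (deg2 α β)] at h4
  rw [h4]
  simp

lemma Φ_an {a k α β : ℝ → ℝ} (ha : AnalyticAt ℝ a 0) (hk : AnalyticAt ℝ k 0)
    (hα : AnalyticAt ℝ α 0) (hβ : AnalyticAt ℝ β 0) (d i : ℕ) :
    AnP (fun s => Φ (a s) (k s) (α s) (β s) d i) := by
  unfold Φ
  exact (AnP.C ha).mul ((((AnP.C hk).mul (AnP.const X)).pow i).mul
    (((AnP.C hα).add ((AnP.C hβ).mul (AnP.const X))).pow (d - i)))

/-- the powers of two independent linear forms are independent -/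
lemma lin_indep {n : ℕ} {a : ℕ → ℝ} {K E c : ℝ} (hK : K ≠ 0) (hc : c ≠ 0)
    (h : ∀ Z : ℝ, ∑ i ∈ Finset.range (n + 1), a i * ((K * Z) ^ i * (E * Z - c) ^ (n - i)) = 0) :
    ∀ i ≤ n, a i = 0 := by
  set Q : ℝ[X] := ∑ i ∈ Finset.range (n + 1), Polynomial.C (a i * K ^ i) * X ^ (n - i) with hQ
  have h1 : ∀ v : ℝ, v ≠ E → Q.eval v = 0 := by
    intro v hv
    have hv' : E - v ≠ 0 := sub_ne_zero.2 (Ne.symm hv)
    set Z : ℝ := c / (E - v) with hZ
    have hZ0 : Z ≠ 0 := div_ne_zero hc hv'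
    have h2 : E * Z - c = v * Z := by
      rw [hZ]; field_simp; ring
    have h3 := h Z
    rw [h2] at h3
    have h4 : ∑ i ∈ Finset.range (n + 1), a i * ((K * Z) ^ i * (v * Z) ^ (n - i)) =
        Z ^ n * Q.eval v := by
      rw [hQ, eval_finsetSum, Finset.mul_sum]
      refine Finset.sum_congr rfl (fun i hi => ?_)
      have hi' : i ≤ n := Nat.lt_succ_iff.1 (Finset.mem_range.1 hi)
      have h5 : Z ^ n = Z ^ i * Z ^ (n - i) := by rw [← pow_add, Nat.add_sub_cancel' hi']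
      simp only [eval_mul, eval_C, eval_pow, eval_X]
      rw [h5, mul_pow, mul_pow]
      ring
    rw [h4] at h3
    exact (mul_eq_zero.1 h3).resolve_left (pow_ne_zero _ hZ0)
  have h2 : Q = 0 := by
    apply Polynomial.eq_zero_of_infinite_isRoot
    refine Set.Infinite.mono (s := Set.Ioi E) ?_ (Set.Ioi_infinite E)
    intro x hx
    exact h1 x (ne_of_gt hx)
  intro i hi
  have h3 : Q.coeff (n - i) = a i * K ^ i := by
    rw [hQ, finsetSum_coeff, Finset.sum_eq_single i]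
    · rw [coeff_C_mul, coeff_X_pow, if_pos rfl, mul_one]
    · intro j hj hji
      have hj' : j ≤ n := Nat.lt_succ_iff.1 (Finset.mem_range.1 hj)
      rw [coeff_C_mul, coeff_X_pow, if_neg (by omega), mul_zero]
    · intro h
      exact absurd (Finset.mem_range.2 (Nat.lt_succ_of_le hi)) h
  rw [h2, coeff_zero] at h3
  exact (mul_eq_zero.1 h3.symm).resolve_right (pow_ne_zero _ hK)

lemma near (P : ℝ → Prop) (h : ∀ t : ℝ, 0 < t → t < 1 → P t) : ∀ᶠ s in 𝓝[>] (0 : ℝ), P s := by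
  filter_upwards [Ioo_mem_nhdsGT (zero_lt_one' ℝ)] with s hs
  exact h s hs.1 hs.2

lemma lt_one : ∀ᶠ s in 𝓝 (0 : ℝ), s < 1 := Iio_mem_nhds (zero_lt_one' ℝ)

/-- the behaviour at `1` -/
lemma sing_leg (h3 : T_pos) (h4 : T_leg) (h5 : T_sing) :
    ∃ (W κ : ℝ) (G : ℝ → ℝ), 0 < W ∧ κ ≠ 0 ∧ AnalyticAt ℝ G 0 ∧
      ∀ᶠ s in 𝓝[>] (0 : ℝ), (0 < s ∧ s < 1) ∧ KK (1 - s) = KK s * (κ * Real.log s + G s) ∧
        EE (1 - s) = W / KK s + (KK s - EE s) * (κ * Real.log s + G s) := by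
  obtain ⟨W, hW, hleg⟩ := h4
  obtain ⟨κ, G, hκ, hG, hs⟩ := h5
  refine ⟨W, κ, G, hW, hκ, hG, ?_⟩
  filter_upwards [hs, near (fun s => 0 < s ∧ s < 1) (fun t h0 h1 => ⟨h0, h1⟩)] with s h1 h2
  refine ⟨h2, h1, ?_⟩
  have hK : KK s ≠ 0 := (h3.1 s h2.2).ne'
  have h4 := hleg s h2.1 h2.2
  set Z := κ * Real.log s + G s with hZ
  rw [h1] at h4
  field_simp
  linear_combination h4

/-- first step: the relation between `K(s)` and `K(s) - E(s)` -/
lemma step1 (h1 : T_an) (h3 : T_pos) (h4 : T_leg) (h5 : T_sing) (h6 : T_tr) (n : ℕ)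
    (q : ℕ → ℕ → ℝ[X])
    (h : ∀ t : ℝ, 0 < t → t < 1 → ∑ d ∈ Finset.range (n + 1), ∑ i ∈ Finset.range (d + 1),
      (q d i).eval t * KK t ^ i * EE t ^ (d - i) = 0) :
    ∀ᶠ s in 𝓝 (0 : ℝ), ∑ i ∈ Finset.range (n + 1),
      (q n i).eval (1 - s) * (KK s ^ i * (KK s - EE s) ^ (n - i)) = 0 := by
  obtain ⟨W, κ, G, hW, hκ, hG, hnear⟩ := sing_leg h3 h4 h5
  have hK : AnalyticAt ℝ KK 0 := h1.1 0 (by simp)
  have hE : AnalyticAt ℝ EE 0 := h1.2 0 (by simp)
  have hK0 : KK 0 ≠ 0 := (h3.1 0 (by norm_num)).ne'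
  have hWK : AnalyticAt ℝ (fun s => W / KK s) 0 := analyticAt_const.fun_div hK hK0
  have hKE : AnalyticAt ℝ (fun s => KK s - EE s) 0 := hK.fun_sub hE
  have hq : ∀ d i, AnalyticAt ℝ (fun s => (q d i).eval (1 - s)) 0 := fun d i =>
    an_eval (q d i) (analyticAt_const.fun_sub analyticAt_id)
  have key := tr' h6 hκ hG
    (P := fun s => ∑ d ∈ Finset.range (n + 1), ∑ i ∈ Finset.range (d + 1),
      Φ ((q d i).eval (1 - s)) (KK s) (W / KK s) (KK s - EE s) d i)
    (AnP.sum _ (fun d => AnP.sum _ (fun i => Φ_an (hq d i) hK hWK hKE d i))) n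
    (fun s => natDegree_sum_le_of_forall_le _ _ (fun d hd =>
      natDegree_sum_le_of_forall_le _ _ (fun i hi =>
        (Φ_deg _ _ _ _ (Nat.lt_succ_iff.1 (Finset.mem_range.1 hi))).trans
          (Nat.lt_succ_iff.1 (Finset.mem_range.1 hd)))))
    (by
      filter_upwards [hnear] with s hs
      obtain ⟨⟨hs0, hs1⟩, hsK, hsE⟩ := hs
      have h7 := h (1 - s) (by linarith) (by linarith)
      rw [hsK, hsE] at h7
      rw [← h7, eval_finsetSum]
      refine Finset.sum_congr rfl (fun d _ => ?_)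
      rw [eval_finsetSum]
      refine Finset.sum_congr rfl (fun i _ => ?_)
      rw [Φ_eval, mul_assoc])
  filter_upwards [key] with s hs
  have h8 := congrArg (fun P : ℝ[X] => P.coeff n) hs
  simp only [coeff_zero, finsetSum_coeff] at h8
  rw [Finset.sum_eq_single n] at h8
  · rw [← h8]
    refine Finset.sum_congr rfl (fun i hi => ?_)
    rw [Φ_coeff _ _ _ _ (Nat.lt_succ_iff.1 (Finset.mem_range.1 hi))]
  · intro d hd hdn
    refine Finset.sum_eq_zero (fun i hi => ?_)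
    apply coeff_eq_zero_of_natDegree_lt
    refine lt_of_le_of_lt (Φ_deg _ _ _ _ (Nat.lt_succ_iff.1 (Finset.mem_range.1 hi))) ?_
    have := Finset.mem_range.1 hd
    omega
  · intro h9
    exact absurd (Finset.mem_range.2 (Nat.lt_succ_self n)) h9

lemma an_f (h1 : T_an) (n : ℕ) (q : ℕ → ℝ[X]) :
    AnalyticOnNhd ℝ (fun s => ∑ i ∈ Finset.range (n + 1),
      (q i).eval (1 - s) * (KK s ^ i * (KK s - EE s) ^ (n - i))) (Iio 1) := by
  intro s hs
  refine Finset.analyticAt_fun_sum _ (fun i _ => ?_)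
  exact (an_eval (q i) (analyticAt_const.fun_sub analyticAt_id)).fun_mul
    (((h1.1 s hs).fun_pow i).fun_mul (((h1.1 s hs).fun_sub (h1.2 s hs)).fun_pow (n - i)))

/-- the coefficients of top degree vanish -/
lemma top (h1 : T_an) (h3 : T_pos) (h4 : T_leg) (h5 : T_sing) (h6 : T_tr) (n : ℕ)
    (q : ℕ → ℕ → ℝ[X])
    (h : ∀ t : ℝ, 0 < t → t < 1 → ∑ d ∈ Finset.range (n + 1), ∑ i ∈ Finset.range (d + 1),
      (q d i).eval t * KK t ^ i * EE t ^ (d - i) = 0) :
    ∀ i ≤ n, q n i = 0 := by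
  have hf := ident (an_f h1 n (q n)) (step1 h1 h3 h4 h5 h6 n q h)
  obtain ⟨W, κ, G, hW, hκ, hG, hnear⟩ := sing_leg h3 h4 h5
  have hK : AnalyticAt ℝ KK 0 := h1.1 0 (by simp)
  have hE : AnalyticAt ℝ EE 0 := h1.2 0 (by simp)
  have hK0 : KK 0 ≠ 0 := (h3.1 0 (by norm_num)).ne'
  have hWK : AnalyticAt ℝ (fun s => -(W / KK s)) 0 := (analyticAt_const.fun_div hK hK0).fun_neg
  have hq : ∀ i, AnalyticAt ℝ (fun s => (q n i).eval s) 0 := fun i =>
    an_eval (q n i) analyticAt_id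
  have key := tr' h6 hκ hG
    (P := fun s => ∑ i ∈ Finset.range (n + 1),
      Φ ((q n i).eval s) (KK s) (-(W / KK s)) (EE s) n i)
    (AnP.sum _ (fun i => Φ_an (hq i) hK hWK hE n i)) n
    (fun s => natDegree_sum_le_of_forall_le _ _ (fun i hi =>
        (Φ_deg _ _ _ _ (Nat.lt_succ_iff.1 (Finset.mem_range.1 hi)))))
    (by
      filter_upwards [hnear] with s hs
      obtain ⟨⟨hs0, hs1⟩, hsK, hsE⟩ := hs
      have h7 := hf (1 - s) (by linarith)
      rw [hsK, hsE] at h7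
      rw [← h7, eval_finsetSum]
      refine Finset.sum_congr rfl (fun i _ => ?_)
      rw [Φ_eval, sub_sub_cancel]
      congr 3
      ring)
  have h8 : ∀ᶠ s in 𝓝 (0 : ℝ), ∀ i ≤ n, (q n i).eval s = 0 := by
    filter_upwards [key, lt_one] with s hs hs1
    have hKs : 0 < KK s := h3.1 s hs1
    refine lin_indep (K := KK s) (E := EE s) (c := W / KK s) (a := fun i => (q n i).eval s)
      hKs.ne' (div_pos hW hKs).ne' (fun Z => ?_)
    have h9 := congrArg (fun P : ℝ[X] => P.eval Z) hs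
    simp only [eval_finsetSum, eval_zero, Φ_eval] at h9
    rw [← h9]
    refine Finset.sum_congr rfl (fun i _ => ?_)
    rw [show EE s * Z - W / KK s = -(W / KK s) + EE s * Z by ring]
  intro i hi
  exact poly_zero (h8.mono (fun s hs => hs i hi))

end Pool.Agent.TH818.AR.IndL

namespace Pool.Agent.TH818.AR

open IndL

theorem ind2_of (h1 : T_an) (h3 : T_pos) (h4 : T_leg) (h5 : T_sing) (h6 : T_tr) : T_ind2 := by
  intro n
  induction n with
  | zero =>
    intro q h d hd i hi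
    obtain rfl : d = 0 := Nat.le_zero.1 hd
    exact top h1 h3 h4 h5 h6 0 q h i hi
  | succ n ih =>
    intro q h d hd i hi
    have htop := top h1 h3 h4 h5 h6 (n + 1) q h
    rcases Nat.lt_or_ge n d with hnd | hnd
    · obtain rfl : d = n + 1 := le_antisymm hd hnd
      exact htop i hi
    · refine ih q (fun t ht0 ht1 => ?_) d hnd i hi
      have h7 := h t ht0 ht1
      rw [Finset.sum_range_succ, Finset.sum_eq_zero (s := Finset.range (n + 1 + 1)), add_zero] at h7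
      · exact h7
      · intro j hj
        rw [htop j (Nat.lt_succ_iff.1 (Finset.mem_range.1 hj))]
        simp

theorem ind3_of (h1 : T_an) (h3 : T_pos) (h4 : T_leg) (h5 : T_sing) (h6 : T_tr) : T_ind3 := by
  intro m n p h j hj
  obtain ⟨W, κ, G, hW, hκ, hG, hnear⟩ := sing_leg h3 h4 h5
  have hK : AnalyticAt ℝ KK 0 := h1.1 0 (by simp)
  have han : ∀ j, AnalyticOnNhd ℝ (fun t => ∑ d ∈ Finset.range (n + 1), ∑ i ∈ Finset.range (d + 1),
      (p j d i).eval t * KK t ^ i * EE t ^ (d - i)) (Iio 1) := by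
    intro j t ht
    refine Finset.analyticAt_fun_sum _ (fun d _ => Finset.analyticAt_fun_sum _ (fun i _ => ?_))
    exact ((an_eval _ analyticAt_id).fun_mul ((h1.1 t ht).fun_pow i)).fun_mul
      ((h1.2 t ht).fun_pow (d - i))
  have key := h6 m (fun j t => (∑ d ∈ Finset.range (n + 1), ∑ i ∈ Finset.range (d + 1),
      (p j d i).eval t * KK t ^ i * EE t ^ (d - i)) * KK t ^ j) κ G hκ hG
    (fun j => (han j 0 (by simp)).fun_mul (hK.fun_pow j))
    (by
      filter_upwards [hnear] with s hs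
      obtain ⟨⟨hs0, hs1⟩, hsK, hsE⟩ := hs
      have h7 := h s hs0 hs1
      rw [hsK] at h7
      rw [← h7]
      refine Finset.sum_congr rfl (fun j _ => ?_)
      rw [mul_assoc, ← mul_pow, Finset.sum_mul]
      refine Finset.sum_congr rfl (fun d _ => ?_)
      rw [Finset.sum_mul])
    j hj
  have h8 : ∀ᶠ t in 𝓝 (0 : ℝ), (∑ d ∈ Finset.range (n + 1), ∑ i ∈ Finset.range (d + 1),
      (p j d i).eval t * KK t ^ i * EE t ^ (d - i)) = 0 := by
    filter_upwards [key, lt_one] with t ht ht1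
    exact (mul_eq_zero.1 ht).resolve_right (pow_ne_zero _ (h3.1 t ht1).ne')
  have h9 := ident (han j) h8
  exact ind2_of h1 h3 h4 h5 h6 n (p j) (fun t _ ht1 => h9 t ht1)

end Pool.Agent.TH818.AR

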