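import Pool.Agent.TH818.AR.Defs

/-!
# The logarithm is transcendental over germs of analytic functions
-/

set_option autoImplicit false

open Set Polynomial Filter Topology

namespace Pool.Agent.TH818.AR

namespace Tr

/-- `|κ log t + G t|` tends to infinity -/
theorem L_top (κ : ℝ) (G : ℝ → ℝ) (hκ : κ ≠ 0) (hG : ContinuousAt G 0) :
    Tendsto (fun t : ℝ => ‖κ * Real.log t + G t‖) (𝓝[>] 0) atTop := by
  have h1 : Tendsto (fun t : ℝ => |κ| * |Real.log t|) (𝓝[>] 0) atTop :=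
    (tendsto_abs_atBot_atTop.comp Real.tendsto_log_nhdsGT_zero).const_mul_atTop (abs_pos.2 hκ)
  have h2 : Tendsto (fun t : ℝ => -|G t|) (𝓝[>] 0) (𝓝 (-|G 0|)) :=
    ((hG.tendsto.abs).neg).mono_left nhdsWithin_le_nhds
  refine tendsto_atTop_mono (fun t => ?_) (h1.atTop_add h2)
  rw [Real.norm_eq_abs, ← abs_mul]
  have h3 := abs_sub_abs_le_abs_sub (κ * Real.log t) (-(G t))
  rw [abs_neg, sub_neg_eq_add] at h3
  linarith

/-- `t L^i` tends to zero -/
theorem tL_zero (κ : ℝ) (G : ℝ → ℝ) (hG : ContinuousAt G 0) (i : ℕ) :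
    Tendsto (fun t : ℝ => t * (κ * Real.log t + G t) ^ i) (𝓝[>] 0) (𝓝 0) := by
  set r : ℝ := 1 / ((i : ℝ) + 1) with hr
  have hr0 : 0 < r := by rw [hr]; positivity
  have h1 : Tendsto (fun t : ℝ => κ * (Real.log t * t ^ r)) (𝓝[>] 0) (𝓝 (κ * 0)) :=
    (tendsto_log_mul_rpow_nhdsGT_zero hr0).const_mul κ
  have h2 : Tendsto (fun t : ℝ => t ^ r) (𝓝[>] 0) (𝓝 0) := by
    have h3 : Tendsto (fun t : ℝ => t ^ r) (𝓝 0) (𝓝 ((0 : ℝ) ^ r)) :=
      (Real.continuousAt_rpow_const 0 r (Or.inr hr0.le)).tendsto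
    rw [Real.zero_rpow hr0.ne'] at h3
    exact h3.mono_left nhdsWithin_le_nhds
  have h3 : Tendsto (fun t : ℝ => G t * t ^ r) (𝓝[>] 0) (𝓝 (G 0 * 0)) :=
    (hG.tendsto.mono_left nhdsWithin_le_nhds).mul h2
  have h4 : Tendsto (fun t : ℝ => (κ * (Real.log t * t ^ r) + G t * t ^ r) ^ i * t ^ r)
      (𝓝[>] 0) (𝓝 ((κ * 0 + G 0 * 0) ^ i * 0)) := ((h1.add h3).pow i).mul h2
  rw [mul_zero ((κ * 0 + G 0 * 0) ^ i)] at h4
  refine h4.congr' ?_
  filter_upwards [self_mem_nhdsWithin] with t ht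
  have ht0 : (0 : ℝ) < t := ht
  have h5 : κ * (Real.log t * t ^ r) + G t * t ^ r = (κ * Real.log t + G t) * t ^ r := by ring
  rw [h5, mul_pow, mul_assoc]
  have h6 : (t ^ r) ^ i * t ^ r = t := by
    rw [← pow_succ, ← Real.rpow_natCast, ← Real.rpow_mul ht0.le, hr]
    push_cast
    rw [one_div, inv_mul_cancel₀ (by positivity), Real.rpow_one]
  rw [h6, mul_comm]

end Tr

open Tr in
theorem tr : T_tr := by
  intro n g κ G hκ hG hg hsum i hi
  by_contra hcon
  obtain ⟨i0, hi0, hmin⟩ := Finset.exists_min_image (Finset.range (n + 1))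
    (fun i => analyticOrderAt (g i) 0) ⟨i, Finset.mem_range.2 (by omega)⟩
  have hne : analyticOrderAt (g i0) 0 ≠ ⊤ := by
    intro h
    have h1 := hmin i (Finset.mem_range.2 (by omega))
    rw [h, top_le_iff] at h1
    exact hcon (analyticOrderAt_eq_top.1 h1)
  obtain ⟨ν, hν⟩ := ENat.ne_top_iff_exists.1 hne
  have hex : ∀ j, ∃ h : ℝ → ℝ, AnalyticAt ℝ h 0 ∧ (j ∈ Finset.range (n + 1) →
      ∀ᶠ t in 𝓝 (0 : ℝ), g j t = t ^ ν * h t) ∧ (j = i0 → h 0 ≠ 0) := by
    intro j
    by_cases hj : j = i0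
    · subst hj
      obtain ⟨h, h1, h2, h3⟩ := (hg j).analyticOrderAt_eq_natCast.1 hν.symm
      refine ⟨h, h1, fun _ => ?_, fun _ => h2⟩
      filter_upwards [h3] with t ht
      rw [ht, sub_zero, smul_eq_mul]
    · by_cases hjn : j ∈ Finset.range (n + 1)
      · have hle : (ν : ℕ∞) ≤ analyticOrderAt (g j) 0 := by
          rw [hν]
          exact hmin j hjn
        obtain ⟨h, h1, h3⟩ := (natCast_le_analyticOrderAt (hg j)).1 hle
        refine ⟨h, h1, fun _ => ?_, fun h4 => absurd h4 hj⟩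
        filter_upwards [h3] with t ht
        rw [ht, sub_zero, smul_eq_mul]
      · exact ⟨0, analyticAt_const, fun h4 => absurd h4 hjn, fun h4 => absurd h4 hj⟩
  choose h hh1 hh2 hh3 using hex
  set L : ℝ → ℝ := fun t => κ * Real.log t + G t with hL
  set p : ℝ[X] := ∑ j ∈ Finset.range (n + 1), C (h j 0) * X ^ j with hp
  have hpcoeff : p.coeff i0 = h i0 0 := by
    rw [hp, Polynomial.finsetSum_coeff]
    simp only [Polynomial.coeff_C_mul, Polynomial.coeff_X_pow]
    rw [Finset.sum_eq_single i0]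
    · simp
    · intro b _ hb
      rw [if_neg (fun h5 => hb h5.symm), mul_zero]
    · intro h5
      exact absurd hi0 h5
  have hp0 : p ≠ 0 := by
    intro h5
    rw [h5, Polynomial.coeff_zero] at hpcoeff
    exact hh3 i0 rfl hpcoeff.symm
  have hpeval : ∀ x, p.eval x = ∑ j ∈ Finset.range (n + 1), h j 0 * x ^ j := by
    intro x
    rw [hp, Polynomial.eval_finsetSum]
    simp
  have hzero : Tendsto (fun t : ℝ => p.eval (L t)) (𝓝[>] 0) (𝓝 0) := by
    have hterm : ∀ j ∈ Finset.range (n + 1), Tendsto (fun t : ℝ => (h j 0 - h j t) * L t ^ j)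
        (𝓝[>] 0) (𝓝 0) := by
      intro j _
      have h1 : (fun t => h j t - h j 0) =O[𝓝 0] fun t : ℝ => t - 0 :=
        (hh1 j).differentiableAt.isBigO_sub
      have h2 : (fun t => (h j 0 - h j t) * L t ^ j) =O[𝓝[>] 0] fun t : ℝ => t * L t ^ j := by
        refine Asymptotics.IsBigO.mul ?_ (Asymptotics.isBigO_refl _ _)
        have h3 : (fun t => -(h j t - h j 0)) =O[𝓝 0] fun t : ℝ => t - 0 := h1.neg_left
        refine (h3.mono nhdsWithin_le_nhds).congr (fun t => ?_) (fun t => ?_)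
        · ring
        · ring
      exact h2.trans_tendsto (tL_zero κ G hG.continuousAt j)
    have hs := tendsto_finsetSum (Finset.range (n + 1)) hterm
    rw [Finset.sum_const_zero] at hs
    refine hs.congr' ?_
    have hall : ∀ᶠ t in 𝓝[>] (0 : ℝ), ∀ j ∈ Finset.range (n + 1), g j t = t ^ ν * h j t := by
      rw [Filter.eventually_all_finset]
      intro j hj
      exact (hh2 j hj).filter_mono nhdsWithin_le_nhds
    filter_upwards [hall, hsum, self_mem_nhdsWithin] with t h1 h2 h3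
    have ht0 : (0 : ℝ) < t := h3
    have h4 : t ^ ν * ∑ j ∈ Finset.range (n + 1), h j t * L t ^ j = 0 := by
      rw [Finset.mul_sum, ← h2]
      refine Finset.sum_congr rfl fun j hj => ?_
      rw [h1 j hj]
      ring
    have h5 : ∑ j ∈ Finset.range (n + 1), h j t * L t ^ j = 0 := by
      rcases mul_eq_zero.1 h4 with h6 | h6
      · exact absurd h6 (pow_ne_zero _ ht0.ne')
      · exact h6
    rw [hpeval]
    calc ∑ j ∈ Finset.range (n + 1), (h j 0 - h j t) * L t ^ j =
        ∑ j ∈ Finset.range (n + 1), h j 0 * L t ^ j -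
          ∑ j ∈ Finset.range (n + 1), h j t * L t ^ j := by
          rw [← Finset.sum_sub_distrib]
          exact Finset.sum_congr rfl fun j _ => by ring
      _ = _ := by rw [h5, sub_zero]
  rcases lt_or_ge 0 p.degree with hdeg | hdeg
  · have h1 := p.tendsto_norm_atTop hdeg (L_top κ G hκ hG.continuousAt)
    exact not_tendsto_nhds_of_tendsto_atTop h1 _ hzero.norm
  · rw [Polynomial.eq_C_of_degree_le_zero hdeg] at hzero hp0
    simp only [Polynomial.eval_C] at hzero
    have h1 := tendsto_nhds_unique hzero tendsto_const_nhds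
    apply hp0
    rw [← h1, Polynomial.C_0]

end Pool.Agent.TH818.AR
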