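import Pool.Agent.TH818.AR.Defs

/-!
Project AR: lower bound for the determinant of the relations.
-/

set_option autoImplicit false

open Set Polynomial Filter Topology

namespace Pool.Agent.TH818.AR

namespace ArithAux

/-- Clearing the denominator. -/
theorem clear (q : ℚ) (k i : ℕ) (hi : i ≤ k) :
    ((q.num : ℝ)) ^ i * ((q.den : ℝ)) ^ (k - i) = ((q.den : ℝ)) ^ k * ((q : ℝ)) ^ i := by
  have hd : ((q.den : ℝ)) ≠ 0 := by exact_mod_cast q.den_nz
  have hq : (q : ℝ) = (q.num : ℝ) / (q.den : ℝ) := by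
    exact_mod_cast (Rat.num_div_den q).symm
  have hk : ((q.den : ℝ)) ^ k = (q.den : ℝ) ^ i * (q.den : ℝ) ^ (k - i) := by
    rw [← pow_add]; congr 1; omega
  rw [hk, hq, div_pow]
  field_simp

end ArithAux

open ArithAux in
theorem arith : T_arith := by
  intro r k q c T hT hden hdet
  set M : Matrix (Fin (k + 1) × Fin r) (Fin (k + 1) × Fin r) ℝ :=
    Matrix.of fun x y : Fin (k + 1) × Fin r => ((q x : ℝ)) ^ (y.1 : ℕ) * (c x y.2 : ℝ) with hM
  set N : Matrix (Fin (k + 1) × Fin r) (Fin (k + 1) × Fin r) ℤ :=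
    Matrix.of fun x y : Fin (k + 1) × Fin r =>
      (q x).num ^ (y.1 : ℕ) * ((q x).den : ℤ) ^ (k - (y.1 : ℕ)) * c x y.2 with hN
  set v : Fin (k + 1) × Fin r → ℝ := fun x => ((q x).den : ℝ) ^ k with hv
  have h1 : (Int.castRingHom ℝ).mapMatrix N = Matrix.of fun x y => v x * M x y := by
    ext x y
    have h2 := clear (q x) k (y.1 : ℕ) (by omega)
    simp only [hN, hM, hv, RingHom.mapMatrix_apply, Matrix.map_apply, Matrix.of_apply,
      eq_intCast, Int.cast_mul, Int.cast_pow, Int.cast_natCast]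
    rw [h2]
    ring
  have h3 : ((N.det : ℤ) : ℝ) = (∏ x, v x) * M.det := by
    rw [← Matrix.det_mul_column, ← h1, ← RingHom.map_det, eq_intCast]
  have hv0 : ∀ x, 0 < v x := by
    intro x
    have : (0 : ℝ) < ((q x).den : ℝ) := by exact_mod_cast (q x).pos
    positivity
  have hp0 : 0 < ∏ x, v x := Finset.prod_pos fun x _ => hv0 x
  have hN0 : N.det ≠ 0 := by
    intro h0
    rw [h0, Int.cast_zero] at h3
    rcases mul_eq_zero.1 h3.symm with h4 | h4
    · exact hp0.ne' h4
    · exact hdet h4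
  have h5 : (1 : ℝ) ≤ |((N.det : ℤ) : ℝ)| := by
    have := Int.one_le_abs hN0
    exact_mod_cast this
  have h6 : ∏ x, v x ≤ T ^ (k * ((k + 1) * r)) := by
    calc ∏ x, v x ≤ ∏ _x : Fin (k + 1) × Fin r, T ^ k := by
          refine Finset.prod_le_prod (fun x _ => (hv0 x).le) fun x _ => ?_
          exact pow_le_pow_left₀ (Nat.cast_nonneg _) (hden x) k
      _ = T ^ (k * ((k + 1) * r)) := by
          rw [Finset.prod_const, Finset.card_univ, Fintype.card_prod, Fintype.card_fin,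
            Fintype.card_fin, ← pow_mul]
  calc (1 : ℝ) ≤ |((N.det : ℤ) : ℝ)| := h5
    _ = |M.det| * ∏ x, v x := by rw [h3, abs_mul, abs_of_pos hp0, mul_comm]
    _ ≤ |M.det| * T ^ (k * ((k + 1) * r)) := mul_le_mul_of_nonneg_left h6 (abs_nonneg _)

end Pool.Agent.TH818.AR
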