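import Pool.Agent.TH818.AR.Defs

/-!
# The auxiliary polynomial vector
(job AR-AUX of helper818, written by helper367)
-/

set_option autoImplicit false

open Set Polynomial Filter Topology

namespace Pool.Agent.TH818.AR

namespace AuxVec

/-- the vector of monomials times relation coefficients -/
def uv (r k : ℕ) (s : ℚ × (Fin r → ℤ)) : Fin (k + 1) × Fin r → ℚ :=
  fun y => s.1 ^ (y.1 : ℕ) * (s.2 y.2 : ℚ)

/-- the span is proper -/
theorem span_ne_top (r k : ℕ) (S : Set (ℚ × (Fin r → ℤ)))
    (h : ∀ e : Fin (k + 1) × Fin r → ℚ × (Fin r → ℤ), (∀ x, e x ∈ S) →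
      (Matrix.of fun x y : Fin (k + 1) × Fin r =>
        (e x).1 ^ (y.1 : ℕ) * ((e x).2 y.2 : ℚ)).det = 0) :
    Submodule.span ℚ (uv r k '' S) ≠ ⊤ := by
  classical
  intro htop
  obtain ⟨b, hb1, hb2, hb3⟩ := exists_linearIndependent ℚ (uv r k '' S)
  rw [htop] at hb2
  have hfin : Finite b := hb3.finite
  have : Fintype b := Fintype.ofFinite b
  have hcard : Fintype.card b = Fintype.card (Fin (k + 1) × Fin r) := by
    have h1 : Module.finrank ℚ (Submodule.span ℚ (Set.range (Subtype.val : b → _))) =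
        Fintype.card b := finrank_span_eq_card hb3
    rw [Subtype.range_coe, hb2, finrank_top, Module.finrank_fintype_fun_eq_card] at h1
    exact h1.symm
  let e' : Fin (k + 1) × Fin r ≃ b := (Fintype.equivOfCardEq hcard).symm
  have hch : ∀ x, ∃ s ∈ S, uv r k s = (e' x : Fin (k + 1) × Fin r → ℚ) := by
    intro x
    obtain ⟨s, hs, he⟩ := hb1 (e' x).2
    exact ⟨s, hs, he⟩
  choose e he1 he2 using hch
  have hdet := h e he1
  set Mx : Matrix (Fin (k + 1) × Fin r) (Fin (k + 1) × Fin r) ℚ :=
    Matrix.of fun x y => (e x).1 ^ (y.1 : ℕ) * ((e x).2 y.2 : ℚ) with hM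
  have hrow : Mx.row = (Subtype.val : b → _) ∘ e' := by
    funext x
    rw [Function.comp_apply, ← he2]
    rfl
  have hLI : LinearIndependent ℚ Mx.row := by
    rw [hrow]
    exact hb3.comp e' e'.injective
  have hu := Matrix.linearIndependent_rows_iff_isUnit.1 hLI
  rw [Matrix.isUnit_iff_isUnit_det, hdet] at hu
  exact not_isUnit_zero hu

end AuxVec

open AuxVec in
theorem aux : T_aux := by
  classical
  intro r k S _ h
  have hlt : Submodule.span ℚ (uv r k '' S) < ⊤ := lt_top_iff_ne_top.2 (span_ne_top r k S h)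
  obtain ⟨f, hf0, hf⟩ := Submodule.exists_le_ker_of_lt_top _ hlt
  set a : Fin (k + 1) × Fin r → ℚ := fun y => f (Pi.single y 1) with ha
  have hfa : ∀ v : Fin (k + 1) × Fin r → ℚ, f v = ∑ y, v y * a y := by
    intro v
    conv_lhs => rw [← Finset.univ_sum_single v]
    rw [map_sum]
    refine Finset.sum_congr rfl fun y _ => ?_
    have : (Pi.single y (v y) : Fin (k + 1) × Fin r → ℚ) = v y • Pi.single y 1 := by
      rw [← Pi.single_smul, smul_eq_mul, mul_one]
    rw [this, map_smul, smul_eq_mul]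
  have hcoef : ∀ (l : Fin r) (i : Fin (k + 1)),
      (∑ i' : Fin (k + 1), C (a (i', l)) * X ^ (i' : ℕ)).coeff (i : ℕ) = a (i, l) := by
    intro l i
    rw [finsetSum_coeff, Finset.sum_eq_single i]
    · simp
    · intro i' _ hne
      rw [coeff_C_mul, coeff_X_pow, if_neg, mul_zero]
      intro h0
      exact hne (Fin.ext h0.symm)
    · intro h0
      exact absurd (Finset.mem_univ i) h0
  refine ⟨fun l => ∑ i : Fin (k + 1), C (a (i, l)) * X ^ (i : ℕ), ?_, ?_, ?_⟩
  · intro h0
    apply hf0
    have ha0 : ∀ y, a y = 0 := by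
      rintro ⟨i, l⟩
      have h1 := congrFun h0 l
      simp only [Pi.zero_apply] at h1
      rw [← hcoef l i, h1, coeff_zero]
    ext v
    simp [hfa, ha0]
  · intro l
    refine natDegree_sum_le_of_forall_le _ _ fun i _ => ?_
    refine (natDegree_C_mul_X_pow_le _ _).trans ?_
    have := i.2
    omega
  · intro s hs
    have h1 : f (uv r k s) = 0 := hf (Submodule.subset_span ⟨s, hs, rfl⟩)
    rw [hfa, Fintype.sum_prod_type, Finset.sum_comm] at h1
    rw [← h1]
    refine Finset.sum_congr rfl fun l _ => ?_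
    rw [eval_finsetSum, Finset.sum_mul]
    refine Finset.sum_congr rfl fun i _ => ?_
    simp only [eval_mul, eval_C, eval_pow, eval_X, uv]
    ring

end Pool.Agent.TH818.AR
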