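import Pool.Agent.TH818.AR.Defs

/-!
# AR-DET: upper bound for the determinant
-/

set_option autoImplicit false

open Finset

namespace Pool.Agent.TH818.AR

namespace DetAux

/-- determinant of a matrix that is triangular for an injective function -/
theorem det_tri {I : Type} [Fintype I] [DecidableEq I] (b : I → ℕ) (hb : Function.Injective b)
    (M : Matrix I I ℝ) (h : ∀ x y, b y < b x → M x y = 0) : M.det = ∏ x, M x x := by
  let _ : LinearOrder I := LinearOrder.lift' b hb
  have h1 : M.BlockTriangular id := by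
    intro x y hxy
    exact h x y hxy
  convert Matrix.det_of_isUpperTriangular h1

/-- the determinant is at most `card! ∏ (column bounds)` -/
theorem abs_det_le {I : Type} [Fintype I] [DecidableEq I] (V : Matrix I I ℝ) (β : I → ℝ)
    (h : ∀ x y, |V x y| ≤ β y) : |V.det| ≤ ((Fintype.card I).factorial : ℝ) * ∏ y, β y := by
  rw [Matrix.det_apply]
  calc |∑ σ : Equiv.Perm I, Equiv.Perm.sign σ • ∏ i, V (σ i) i|
      ≤ ∑ σ : Equiv.Perm I, |Equiv.Perm.sign σ • ∏ i, V (σ i) i| := Finset.abs_sum_le_sum_abs _ _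
    _ ≤ ∑ _σ : Equiv.Perm I, ∏ y, β y := by
        refine Finset.sum_le_sum fun σ _ => ?_
        have h1 : |Equiv.Perm.sign σ • ∏ i, V (σ i) i| = ∏ i, |V (σ i) i| := by
          rw [← Finset.abs_prod]
          rcases Int.units_eq_one_or (Equiv.Perm.sign σ) with hs | hs
          · rw [hs, one_smul]
          · rw [hs, Units.neg_smul, one_smul, abs_neg]
        rw [h1]
        exact Finset.prod_le_prod (fun i _ => abs_nonneg _) fun i _ => h _ _
    _ = ((Fintype.card I).factorial : ℝ) * ∏ y, β y := by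
        rw [Finset.sum_const, Finset.card_univ, Fintype.card_perm, nsmul_eq_mul]

variable {r k : ℕ}

/-- the matrix of the binomial translation -/
noncomputable def A (r k : ℕ) (t0 : ℝ) : Matrix (Fin (k + 1) × Fin r) (Fin (k + 1) × Fin r) ℝ :=
  Matrix.of fun x y => if x.2 = y.2 then ((y.1 : ℕ).choose (x.1 : ℕ) : ℝ) *
    (-t0) ^ ((y.1 : ℕ) - (x.1 : ℕ)) else 0

theorem key_inj : Function.Injective
    (fun x : Fin (k + 1) × Fin r => (x.1 : ℕ) * r + (x.2 : ℕ)) := by
  rintro ⟨i, l⟩ ⟨i', l'⟩ h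
  simp only at h
  have h1 : (i : ℕ) = i' := by
    have e1 : ((i : ℕ) * r + (l : ℕ)) / r = i := by
      rw [mul_comm, Nat.mul_add_div l.pos, Nat.div_eq_of_lt l.isLt, add_zero]
    have e2 : ((i' : ℕ) * r + (l' : ℕ)) / r = i' := by
      rw [mul_comm, Nat.mul_add_div l'.pos, Nat.div_eq_of_lt l'.isLt, add_zero]
    rw [← e1, ← e2, h]
  have h2 : (l : ℕ) = l' := by
    rw [h1] at h
    omega
  exact Prod.ext (Fin.ext h1) (Fin.ext h2)

theorem det_A (r k : ℕ) (t0 : ℝ) : (A r k t0).det = 1 := by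
  rw [det_tri (fun x : Fin (k + 1) × Fin r => (x.1 : ℕ) * r + (x.2 : ℕ)) key_inj]
  · refine Finset.prod_eq_one fun x _ => ?_
    simp [A]
  · rintro ⟨i, l⟩ ⟨i', l'⟩ h
    simp only at h
    simp only [A, Matrix.of_apply]
    split_ifs with hl
    · subst hl
      have hlt : (i' : ℕ) < i := by
        by_contra hc
        have : (i : ℕ) * r ≤ i' * r := Nat.mul_le_mul_right _ (not_lt.1 hc)
        omega
      rw [Nat.choose_eq_zero_of_lt hlt, Nat.cast_zero, zero_mul]
    · rfl

/-- the matrix of the column operations -/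
noncomputable def P (r k : ℕ) (l0 : Fin r) (τ : Fin r → ℕ → ℝ) :
    Matrix (Fin (k + 1) × Fin r) (Fin (k + 1) × Fin r) ℝ :=
  Matrix.of fun x y => if y.2 = l0 then (if (y.1 : ℕ) ≤ (x.1 : ℕ) then
    τ x.2 ((x.1 : ℕ) - (y.1 : ℕ)) else 0) else if x = y then 1 else 0

/-- the order for which `P` is triangular -/
def key (r k : ℕ) (l0 : Fin r) (x : Fin (k + 1) × Fin r) : ℕ :=
  if x.2 = l0 then (k + 1) * r + (k - (x.1 : ℕ)) else (x.1 : ℕ) * r + (x.2 : ℕ)

theorem small (x : Fin (k + 1) × Fin r) : (x.1 : ℕ) * r + (x.2 : ℕ) < (k + 1) * r := by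
  have h1 := x.1.isLt
  have h2 := x.2.isLt
  calc (x.1 : ℕ) * r + (x.2 : ℕ) < (x.1 : ℕ) * r + r := by omega
    _ = ((x.1 : ℕ) + 1) * r := by ring
    _ ≤ (k + 1) * r := Nat.mul_le_mul_right _ (by omega)

theorem key_inj' (l0 : Fin r) : Function.Injective (key r k l0) := by
  intro x y h
  unfold key at h
  have hx := small x
  have hy := small y
  have h1 := x.1.isLt
  have h2 := y.1.isLt
  split_ifs at h with ha hb hb
  · refine Prod.ext (Fin.ext ?_) (ha.trans hb.symm)
    omega
  · omega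
  · omega
  · exact key_inj h

theorem det_P (l0 : Fin r) (τ : Fin r → ℕ → ℝ) : (P r k l0 τ).det = τ l0 0 ^ (k + 1) := by
  rw [det_tri (key r k l0) (key_inj' l0)]
  · have h1 : ∀ x : Fin (k + 1) × Fin r, P r k l0 τ x x = if x.2 = l0 then τ l0 0 else 1 := by
      intro x
      simp only [P, Matrix.of_apply, le_refl, if_true, Nat.sub_self]
      split_ifs with h
      · rw [h]
      · rfl
    simp only [h1]
    rw [Fintype.prod_prod_type]
    simp only [Finset.prod_ite_eq', Finset.mem_univ, if_true, Finset.prod_const, Finset.card_univ,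
      Fintype.card_fin]
  · intro x y h
    unfold key at h
    have hx := small x
    have hy := small y
    have h1 := x.1.isLt
    have h2 := y.1.isLt
    simp only [P, Matrix.of_apply]
    split_ifs at h ⊢ with ha hb hc hd <;> first | rfl | omega | skip
    all_goals
      exfalso
      simp_all

theorem sum_shift (k i : ℕ) (_hi : i ≤ k) (f : ℕ → ℝ) (u : ℝ) :
    ∑ s ∈ range (k + 1), (if i ≤ s then u ^ s * f (s - i) else 0) =
      u ^ i * ∑ j ∈ range (k - i + 1), f j * u ^ j := by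
  rw [← Finset.sum_filter]
  have h1 : (range (k + 1)).filter (fun s => i ≤ s) = Ico i (k + 1) := by
    ext s
    simp only [Finset.mem_filter, Finset.mem_range, Finset.mem_Ico]
    omega
  rw [h1, Finset.sum_Ico_eq_sum_range, Finset.mul_sum, show k + 1 - i = k - i + 1 by omega]
  refine Finset.sum_congr rfl fun j _ => ?_
  rw [Nat.add_sub_cancel_left, pow_add]
  ring

theorem mul_A (t0 : ℝ) (t : Fin (k + 1) × Fin r → ℝ) (c : Fin (k + 1) × Fin r → Fin r → ℝ) :
    (Matrix.of fun x y : Fin (k + 1) × Fin r => t x ^ (y.1 : ℕ) * c x y.2) * A r k t0 =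
      Matrix.of fun x y : Fin (k + 1) × Fin r => (t x - t0) ^ (y.1 : ℕ) * c x y.2 := by
  ext x y
  obtain ⟨i, l⟩ := y
  simp only [Matrix.mul_apply, Matrix.of_apply, A]
  rw [Fintype.sum_prod_type]
  have h1 : ∀ s : Fin (k + 1), ∑ l' : Fin r, t x ^ (s : ℕ) * c x l' *
      (if l' = l then (((i : ℕ).choose (s : ℕ) : ℕ) : ℝ) * (-t0) ^ ((i : ℕ) - (s : ℕ)) else 0) =
      t x ^ (s : ℕ) * c x l * ((((i : ℕ).choose (s : ℕ) : ℕ) : ℝ) *
        (-t0) ^ ((i : ℕ) - (s : ℕ))) := by
    intro s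
    simp only [mul_ite, mul_zero, Finset.sum_ite_eq', Finset.mem_univ, if_true]
  simp only [h1]
  rw [Finset.sum_range (f := fun s => t x ^ s * c x l * ((((i : ℕ).choose s : ℕ) : ℝ) *
    (-t0) ^ ((i : ℕ) - s))) |>.symm]
  rw [sub_eq_add_neg, add_pow, Finset.sum_mul]
  have h2 : ∑ s ∈ range (k + 1), t x ^ s * c x l * ((((i : ℕ).choose s : ℕ) : ℝ) *
      (-t0) ^ ((i : ℕ) - s)) = ∑ s ∈ range ((i : ℕ) + 1), t x ^ s * c x l *
        ((((i : ℕ).choose s : ℕ) : ℝ) * (-t0) ^ ((i : ℕ) - s)) := by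
    symm
    refine Finset.sum_subset (fun s hs => ?_) fun s _ hs => ?_
    · have := i.isLt
      rw [Finset.mem_range] at hs ⊢
      omega
    · rw [Finset.mem_range, not_lt] at hs
      rw [Nat.choose_eq_zero_of_lt (by omega)]
      push_cast
      ring
  rw [h2]
  exact Finset.sum_congr rfl fun s _ => by ring

theorem mul_P (l0 : Fin r) (τ : Fin r → ℕ → ℝ) (u : Fin (k + 1) × Fin r → ℝ)
    (c : Fin (k + 1) × Fin r → Fin r → ℝ) :
    (Matrix.of fun x y : Fin (k + 1) × Fin r => u x ^ (y.1 : ℕ) * c x y.2) * P r k l0 τ =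
      Matrix.of fun x y : Fin (k + 1) × Fin r => if y.2 = l0 then
        u x ^ (y.1 : ℕ) * ∑ l, c x l * ∑ j ∈ range (k - (y.1 : ℕ) + 1), τ l j * u x ^ j
        else u x ^ (y.1 : ℕ) * c x y.2 := by
  ext x y
  obtain ⟨i, l⟩ := y
  simp only [Matrix.mul_apply, Matrix.of_apply, P]
  by_cases hl : l = l0
  · simp only [hl, if_true]
    rw [Fintype.sum_prod_type_right, Finset.mul_sum]
    refine Finset.sum_congr rfl fun l' _ => ?_
    have hi : (i : ℕ) ≤ k := Nat.lt_succ_iff.1 i.isLt
    have h1 := sum_shift k i hi (τ l') (u x)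
    rw [Finset.sum_range] at h1
    calc ∑ s : Fin (k + 1), u x ^ (s : ℕ) * c x l' *
          (if (i : ℕ) ≤ (s : ℕ) then τ l' ((s : ℕ) - (i : ℕ)) else 0)
        = c x l' * ∑ s : Fin (k + 1), (if (i : ℕ) ≤ (s : ℕ) then
            u x ^ (s : ℕ) * τ l' ((s : ℕ) - (i : ℕ)) else 0) := by
          rw [Finset.mul_sum]
          refine Finset.sum_congr rfl fun s _ => ?_
          split_ifs <;> ring
      _ = _ := by
          rw [h1]
          ring
  · simp only [hl, if_false]
    simp only [mul_ite, mul_one, mul_zero, Finset.sum_ite_eq', Finset.mem_univ, if_true]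

theorem prod_beta (l0 : Fin r) (η H B : ℝ) :
    ∏ y : Fin (k + 1) × Fin r, (if y.2 = l0 then r * H * B * η ^ (k + 1) else η ^ (y.1 : ℕ) * H) =
      H ^ ((k + 1) * r) * (r * B) ^ (k + 1) * η ^ ex r k := by
  have hr : 1 ≤ r := l0.pos
  rw [Fintype.prod_prod_type]
  have h1 : ∀ i : Fin (k + 1), ∏ l : Fin r, (if l = l0 then r * H * B * η ^ (k + 1)
      else η ^ (i : ℕ) * H) = (r * H * B * η ^ (k + 1)) * (η ^ (i : ℕ) * H) ^ (r - 1) := by
    intro i
    rw [← Finset.mul_prod_erase univ _ (Finset.mem_univ l0)]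
    congr 1
    · rw [if_pos rfl]
    · rw [Finset.prod_congr rfl fun l hl => if_neg (Finset.ne_of_mem_erase hl),
        Finset.prod_const, Finset.card_erase_of_mem (Finset.mem_univ _), Finset.card_univ,
        Fintype.card_fin]
  simp only [h1]
  rw [Finset.prod_mul_distrib, Finset.prod_const, Finset.card_univ, Fintype.card_fin,
    Finset.prod_pow, Finset.prod_mul_distrib, Finset.prod_const, Finset.card_univ,
    Fintype.card_fin, Finset.prod_pow_eq_pow_sum]
  have h2 : ∑ i : Fin (k + 1), (i : ℕ) = k * (k + 1) / 2 := by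
    rw [← Finset.sum_range (f := fun i => i), Finset.sum_range_id, Nat.add_sub_cancel, mul_comm]
  rw [h2]
  unfold ex
  obtain ⟨q, rfl⟩ : ∃ q, r = q + 1 := ⟨r - 1, by omega⟩
  simp only [Nat.add_sub_cancel]
  generalize k * (k + 1) / 2 = m
  generalize ((q + 1 : ℕ) : ℝ) = ρ
  ring

end DetAux

theorem det_le : T_det := by
  intro r k l0 t0 η H B t c F τ hη hH hB ht hc hF hT
  have hdet : (Matrix.of fun x y : Fin (k + 1) × Fin r => if y.2 = l0 then
      (t x - t0) ^ (y.1 : ℕ) * ∑ l, c x l * ∑ j ∈ range (k - (y.1 : ℕ) + 1), τ l j * (t x - t0) ^ j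
        else (t x - t0) ^ (y.1 : ℕ) * c x y.2).det =
      (Matrix.of fun x y : Fin (k + 1) × Fin r => t x ^ (y.1 : ℕ) * c x y.2).det *
        τ l0 0 ^ (k + 1) := by
    rw [← DetAux.mul_P l0 τ (fun x => t x - t0) c, Matrix.det_mul, DetAux.det_P,
      ← DetAux.mul_A t0 t c, Matrix.det_mul, DetAux.det_A, mul_one]
  rw [← abs_pow, ← abs_mul, ← hdet]
  refine (DetAux.abs_det_le _ (fun y => if y.2 = l0 then r * H * B * η ^ (k + 1)
    else η ^ (y.1 : ℕ) * H) ?_).trans (le_of_eq ?_)
  · rintro x ⟨i, l⟩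
    simp only [Matrix.of_apply]
    have hi : (i : ℕ) ≤ k := Nat.lt_succ_iff.1 i.isLt
    have hu : |(t x - t0) ^ (i : ℕ)| ≤ η ^ (i : ℕ) := by
      rw [abs_pow]
      exact pow_le_pow_left₀ (abs_nonneg _) (ht x) _
    split_ifs with hl
    · have h1 : ∑ l, c x l * ∑ j ∈ range (k - (i : ℕ) + 1), τ l j * (t x - t0) ^ j =
          ∑ l, c x l * (∑ j ∈ range (k - (i : ℕ) + 1), τ l j * (t x - t0) ^ j - F x l) := by
        simp only [mul_sub, Finset.sum_sub_distrib]
        rw [hF x, sub_zero]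
      have h2 : |∑ l, c x l * (∑ j ∈ range (k - (i : ℕ) + 1), τ l j * (t x - t0) ^ j - F x l)| ≤
          r * (H * (B * η ^ (k - (i : ℕ) + 1))) := by
        calc |∑ l, c x l * (∑ j ∈ range (k - (i : ℕ) + 1), τ l j * (t x - t0) ^ j - F x l)|
            ≤ ∑ l : Fin r,
                |c x l * (∑ j ∈ range (k - (i : ℕ) + 1), τ l j * (t x - t0) ^ j - F x l)| :=
              Finset.abs_sum_le_sum_abs _ _
          _ ≤ ∑ _l : Fin r, H * (B * η ^ (k - (i : ℕ) + 1)) := by
              refine Finset.sum_le_sum fun l _ => ?_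
              rw [abs_mul]
              refine mul_le_mul (hc x l) ?_ (abs_nonneg _) hH
              rw [abs_sub_comm]
              exact hT x l (k - (i : ℕ)) (Nat.sub_le _ _)
          _ = r * (H * (B * η ^ (k - (i : ℕ) + 1))) := by
              rw [Finset.sum_const, Finset.card_univ, Fintype.card_fin, nsmul_eq_mul]
      rw [h1, abs_mul]
      calc |(t x - t0) ^ (i : ℕ)| * _ ≤ η ^ (i : ℕ) * (r * (H * (B * η ^ (k - (i : ℕ) + 1)))) :=
            mul_le_mul hu h2 (abs_nonneg _) (by positivity)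
        _ = r * H * B * η ^ (k + 1) := by
            have e : η ^ (k + 1) = η ^ (i : ℕ) * η ^ (k - (i : ℕ) + 1) := by
              rw [← pow_add]
              congr 1
              omega
            rw [e]
            ring
    · rw [abs_mul]
      exact mul_le_mul hu (hc x l) (abs_nonneg _) (by positivity)
  · rw [DetAux.prod_beta]
    rw [Fintype.card_prod, Fintype.card_fin, Fintype.card_fin]
    ring

end Pool.Agent.TH818.AR
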