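import Pool.Agent.TH818.AR.Defs

/-!
# Project AR, piece LOW: lower bound for the maximum on a short interval (helper81)
-/

set_option autoImplicit false

open Set Polynomial Filter Topology

namespace Pool.Agent.TH818.AR

namespace Low

/-- a continuous function bounded away from zero has a constant sign -/
lemma sign_const {g : ℝ → ℝ} {u v d : ℝ} (hc : ContinuousOn g (Icc u v)) (hd : 0 < d)
    (h : ∀ t ∈ Icc u v, d ≤ |g t|) :
    (∀ t ∈ Icc u v, d ≤ g t) ∨ ∀ t ∈ Icc u v, d ≤ -g t := by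
  by_contra hcon
  push Not at hcon
  obtain ⟨⟨p, hp, hp1⟩, q, hq, hq1⟩ := hcon
  have hp2 : g p ≤ 0 := by
    by_contra h0
    push Not at h0
    have := h p hp
    rw [abs_of_pos h0] at this
    linarith
  have hq2 : 0 ≤ g q := by
    by_contra h0
    push Not at h0
    have := h q hq
    rw [abs_of_neg h0] at this
    linarith
  obtain ⟨t, ht, ht0⟩ := isPreconnected_Icc.intermediate_value hp hq hc ⟨hp2, hq2⟩
  have := h t ht
  rw [ht0, abs_zero] at this
  linarith

/-- a function with a large derivative is large on the first or on the last quarter -/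
lemma quarter {g g' : ℝ → ℝ} {u v d : ℝ} (huv : u < v)
    (hg : ∀ t ∈ Icc u v, HasDerivAt g (g' t) t) (h : ∀ t ∈ Icc u v, d ≤ g' t) :
    (∀ t ∈ Icc (v - (v - u) / 4) v, d * ((v - u) / 4) ≤ |g t|) ∨
      ∀ t ∈ Icc u (u + (v - u) / 4), d * ((v - u) / 4) ≤ |g t| := by
  have key : ∀ s t : ℝ, u ≤ s → s ≤ t → t ≤ v → d * (t - s) ≤ g t - g s := by
    intro s t hs hst ht
    rcases eq_or_lt_of_le hst with h0 | h0
    · subst h0; simp
    · obtain ⟨c, hc, hc1⟩ := exists_hasDerivAt_eq_slope g g' h0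
        (fun x hx => (hg x ⟨hs.trans hx.1, hx.2.trans ht⟩).continuousAt.continuousWithinAt)
        (fun x hx => hg x ⟨hs.trans hx.1.le, hx.2.le.trans ht⟩)
      have h2 := h c ⟨hs.trans hc.1.le, hc.2.le.trans ht⟩
      rw [hc1, le_div_iff₀ (by linarith)] at h2
      exact h2
  by_cases h1 : d * ((v - u) / 4) ≤ g (v - (v - u) / 4)
  · left
    intro t ht
    by_cases hd : 0 ≤ d
    · have h2 := key (v - (v - u) / 4) t (by linarith) ht.1 ht.2
      have h3 : 0 ≤ d * (t - (v - (v - u) / 4)) := mul_nonneg hd (by linarith [ht.1])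
      exact le_trans (by linarith) (le_abs_self _)
    · refine le_trans ?_ (abs_nonneg _)
      exact mul_nonpos_of_nonpos_of_nonneg (by linarith) (by linarith)
  · right
    intro t ht
    by_cases hd : 0 ≤ d
    · have h2 := key t (u + (v - u) / 4) ht.1 ht.2 (by linarith)
      have h3 := key (u + (v - u) / 4) (v - (v - u) / 4) (by linarith) (by linarith) (by linarith)
      have h4 : 0 ≤ d * (u + (v - u) / 4 - t) := mul_nonneg hd (by linarith [ht.2])
      push Not at h1
      refine le_trans ?_ (neg_le_abs _)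
      nlinarith
    · refine le_trans ?_ (abs_nonneg _)
      exact mul_nonpos_of_nonpos_of_nonneg (by linarith) (by linarith)

/-- a function with a large `s`-th derivative is large somewhere -/
lemma large (s : ℕ) : ∀ (F : ℕ → ℝ → ℝ) (u v d : ℝ), u < v → 0 ≤ d →
    (∀ j, ∀ t ∈ Icc u v, HasDerivAt (F j) (F (j + 1) t) t) →
    (∀ t ∈ Icc u v, d ≤ |F s t|) →
    ∃ t0 ∈ Icc u v, (1 / 4) ^ (s * s) * d * (v - u) ^ s ≤ |F 0 t0| := by
  induction s with
  | zero =>
    intro F u v d huv hd hF h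
    refine ⟨u, left_mem_Icc.2 huv.le, ?_⟩
    simpa using h u (left_mem_Icc.2 huv.le)
  | succ s ih =>
    intro F u v d huv hd hF h
    rcases eq_or_lt_of_le hd with h0 | h0
    · refine ⟨u, left_mem_Icc.2 huv.le, ?_⟩
      rw [← h0]
      simp
    have hcont : ContinuousOn (F (s + 1)) (Icc u v) := fun t ht =>
      (hF (s + 1) t ht).continuousAt.continuousWithinAt
    have hq : (∀ t ∈ Icc (v - (v - u) / 4) v, d * ((v - u) / 4) ≤ |F s t|) ∨
        ∀ t ∈ Icc u (u + (v - u) / 4), d * ((v - u) / 4) ≤ |F s t| := by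
      rcases sign_const hcont h0 h with h1 | h1
      · exact quarter huv (hF s) h1
      · have h2 := quarter (g := fun t => -F s t) (g' := fun t => -F (s + 1) t) huv
          (fun t ht => (hF s t ht).neg) h1
        simpa only [abs_neg] using h2
    have hh : (v - u) / 4 > 0 := by linarith
    have fin : ∀ t0 : ℝ, (1 / 4) ^ (s * s) * (d * ((v - u) / 4)) * ((v - u) / 4) ^ s ≤ |F 0 t0| →
        (1 / 4) ^ ((s + 1) * (s + 1)) * d * (v - u) ^ (s + 1) ≤ |F 0 t0| := by
      intro t0 h1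
      refine le_trans ?_ h1
      have e1 : (1 / 4 : ℝ) ^ (s * s) * (d * ((v - u) / 4)) * ((v - u) / 4) ^ s =
          (1 / 4) ^ (s * s) * (1 / 4) ^ (s + 1) * d * (v - u) ^ (s + 1) := by
        rw [div_eq_mul_one_div (v - u) 4, mul_pow]
        ring
      rw [e1, ← pow_add]
      have h2 : (1 / 4 : ℝ) ^ ((s + 1) * (s + 1)) ≤ (1 / 4) ^ (s * s + (s + 1)) := by
        apply pow_le_pow_of_le_one (by norm_num) (by norm_num)
        nlinarith
      have h3 : 0 ≤ (v - u) ^ (s + 1) := pow_nonneg (by linarith) _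
      exact mul_le_mul_of_nonneg_right (mul_le_mul_of_nonneg_right h2 hd) h3
    have hd' : 0 ≤ d * ((v - u) / 4) := by positivity
    rcases hq with h1 | h1
    · obtain ⟨t0, ht0, h2⟩ := ih F (v - (v - u) / 4) v (d * ((v - u) / 4)) (by linarith) hd'
        (fun j t ht => hF j t ⟨by linarith [ht.1], ht.2⟩) h1
      refine ⟨t0, ⟨by linarith [ht0.1], ht0.2⟩, fin t0 ?_⟩
      rw [show v - (v - (v - u) / 4) = (v - u) / 4 by ring] at h2
      exact h2
    · obtain ⟨t0, ht0, h2⟩ := ih F u (u + (v - u) / 4) (d * ((v - u) / 4)) (by linarith) hd'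
        (fun j t ht => hF j t ⟨ht.1, by linarith [ht.2]⟩) h1
      refine ⟨t0, ⟨ht0.1, by linarith [ht0.2]⟩, fin t0 ?_⟩
      rw [show u + (v - u) / 4 - u = (v - u) / 4 by ring] at h2
      exact h2

lemma comb_an {a b : ℝ} {n : ℕ} {w : Fin n → ℝ → ℝ} (h : Good a b w) (x : Fin n → ℝ) {t : ℝ}
    (ht : t ∈ Icc a b) : AnalyticAt ℝ (comb w x) t := by
  unfold comb
  exact Finset.analyticAt_fun_sum _ fun i _ => analyticAt_const.mul (h.an i t ht)

lemma comb_deriv {a b : ℝ} {n : ℕ} {w : Fin n → ℝ → ℝ} (h : Good a b w) (x : Fin n → ℝ) (j : ℕ)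
    {t : ℝ} (ht : t ∈ Icc a b) :
    HasDerivAt (iteratedDeriv j (comb w x)) (iteratedDeriv (j + 1) (comb w x) t) t := by
  have h1 : AnalyticAt ℝ (iteratedDeriv j (comb w x)) t := by
    rw [iteratedDeriv_eq_iterate]
    exact (comb_an h x ht).iterated_deriv j
  rw [iteratedDeriv_succ]
  exact h1.differentiableAt.hasDerivAt

end Low

open Low in
theorem low_of (h1 : T_ord) (h2 : T_bd) : T_low := by
  intro a b n w hw
  obtain ⟨N, δ, hδ, hord⟩ := h1 a b n w hw
  obtain ⟨B, hB, hbd⟩ := h2 a b n w hw (N + 1)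
  have hL : 0 < b - a := by linarith [hw.hab]
  obtain ⟨ρ, hρ⟩ : ∃ ρ, ρ = δ / (2 * B) := ⟨_, rfl⟩
  have hρ0 : 0 < ρ := by rw [hρ]; positivity
  obtain ⟨c2, hc2⟩ : ∃ c2, c2 = min 1 (min (b - a) ρ) := ⟨_, rfl⟩
  have hc20 : 0 < c2 := by rw [hc2]; exact lt_min one_pos (lt_min hL hρ0)
  have hc21 : c2 ≤ 1 := by rw [hc2]; exact min_le_left _ _
  have hc2L : c2 ≤ b - a := by rw [hc2]; exact (min_le_right _ _).trans (min_le_left _ _)
  have hc2ρ : c2 ≤ ρ := by rw [hc2]; exact (min_le_right _ _).trans (min_le_right _ _)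
  refine ⟨N, (1 / 4) ^ (N * N) * (δ / 2) * (c2 / (b - a)) ^ N, by positivity,
    fun x u u' hau huu hub => ?_⟩
  have hu : u ∈ Icc a b := ⟨hau, by linarith⟩
  obtain ⟨s, hs, hs1⟩ := hord x u hu
  obtain ⟨v, hv⟩ : ∃ v, v = min u' (u + ρ) := ⟨_, rfl⟩
  have huv : u < v := by rw [hv]; exact lt_min huu (by linarith)
  have hvu : v ≤ u' := by rw [hv]; exact min_le_left _ _
  have hvρ : v ≤ u + ρ := by rw [hv]; exact min_le_right _ _
  have hsub : ∀ t ∈ Icc u v, t ∈ Icc a b := fun t ht => ⟨hau.trans ht.1, ht.2.trans (hvu.trans hub)⟩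
  have hx0 : 0 ≤ ‖x‖ := norm_nonneg x
  have hlow : ∀ t ∈ Icc u v, δ / 2 * ‖x‖ ≤ |iteratedDeriv s (comb w x) t| := by
    intro t ht
    have h3 := norm_image_sub_le_of_norm_deriv_le_segment' (f := iteratedDeriv s (comb w x))
      (f' := iteratedDeriv (s + 1) (comb w x)) (C := B * ‖x‖) (a := u) (b := v)
      (fun y hy => (comb_deriv hw x s (hsub y hy)).hasDerivWithinAt)
      (fun y hy => hbd x y (hsub y ⟨hy.1, hy.2.le⟩) (s + 1) (by omega)) t ht
    rw [Real.norm_eq_abs] at h3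
    have h4 : B * ‖x‖ * (t - u) ≤ B * ‖x‖ * ρ :=
      mul_le_mul_of_nonneg_left (by linarith [ht.2]) (by positivity)
    have h5 : B * ‖x‖ * ρ = δ / 2 * ‖x‖ := by
      rw [hρ]; field_simp
    have h6 : |iteratedDeriv s (comb w x) u| ≤ |iteratedDeriv s (comb w x) t| +
        |iteratedDeriv s (comb w x) t - iteratedDeriv s (comb w x) u| := by
      have := abs_sub_abs_le_abs_sub (iteratedDeriv s (comb w x) u) (iteratedDeriv s (comb w x) t)
      rw [abs_sub_comm] at this
      linarith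
    linarith
  obtain ⟨t0, ht0, ht1⟩ := large s (fun j => iteratedDeriv j (comb w x)) u v (δ / 2 * ‖x‖) huv
    (by positivity) (fun j t ht => comb_deriv hw x j (hsub t ht)) hlow
  refine ⟨t0, ⟨ht0.1, ht0.2.trans hvu⟩, ?_⟩
  simp only [iteratedDeriv_zero] at ht1
  refine le_trans ?_ ht1
  obtain ⟨r, hr⟩ : ∃ r, r = c2 / (b - a) * (u' - u) := ⟨_, rfl⟩
  have hr0 : 0 ≤ r := by rw [hr]; exact mul_nonneg (by positivity) (by linarith)
  have hr1 : r ≤ 1 := by
    rw [hr, div_mul_eq_mul_div, div_le_one hL]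
    have : c2 * (u' - u) ≤ 1 * (u' - u) := mul_le_mul_of_nonneg_right hc21 (by linarith)
    linarith
  have hrv : r ≤ v - u := by
    have h3 : u + r ≤ v := by
      rw [hv]
      refine le_min ?_ ?_
      · have : c2 / (b - a) * (u' - u) ≤ 1 * (u' - u) := by
          refine mul_le_mul_of_nonneg_right ?_ (by linarith)
          rw [div_le_one hL]
          exact hc2L
        rw [hr]
        linarith
      · have : c2 / (b - a) * (u' - u) ≤ c2 / (b - a) * (b - a) :=
          mul_le_mul_of_nonneg_left (by linarith) (by positivity)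
        rw [div_mul_cancel₀ _ hL.ne'] at this
        rw [hr]
        linarith
    linarith
  have e1 : (1 / 4 : ℝ) ^ (N * N) * (δ / 2) * (c2 / (b - a)) ^ N * (u' - u) ^ N * ‖x‖ =
      (1 / 4) ^ (N * N) * (δ / 2 * ‖x‖) * r ^ N := by
    rw [hr, mul_pow]; ring
  rw [e1]
  have h3 : (1 / 4 : ℝ) ^ (N * N) ≤ (1 / 4) ^ (s * s) :=
    pow_le_pow_of_le_one (by norm_num) (by norm_num) (Nat.mul_le_mul hs hs)
  have h4 : r ^ N ≤ (v - u) ^ s :=
    (pow_le_pow_of_le_one hr0 hr1 hs).trans (pow_le_pow_left₀ hr0 hrv s)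
  have h5 : 0 ≤ δ / 2 * ‖x‖ := by positivity
  exact mul_le_mul (mul_le_mul_of_nonneg_right h3 h5) h4 (by positivity) (by positivity)

end Pool.Agent.TH818.AR
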