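import Pool.Agent.TH818.AR.Defs

/-!
# Uniform order of vanishing for a finite dimensional space of analytic functions
-/

set_option autoImplicit false

open Set Filter Topology

namespace Pool.Agent.TH818.AR

namespace OrdX

variable {a b : ℝ} {n : ℕ} {w : Fin n → ℝ → ℝ}

theorem comb_an (hw : Good a b w) (x : Fin n → ℝ) : AnalyticOnNhd ℝ (comb w x) (Icc a b) := by
  intro t ht
  have h : comb w x = fun t => ∑ i, x i * w i t := rfl
  rw [h]
  refine Finset.analyticAt_fun_sum _ fun i _ => ?_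
  exact analyticAt_const.mul (hw.an i t ht)

theorem itd (hw : Good a b w) (x : Fin n → ℝ) (s : ℕ) {t : ℝ} (ht : t ∈ Icc a b) :
    iteratedDeriv s (comb w x) t = ∑ i, x i * iteratedDeriv s (w i) t := by
  have h : comb w x = fun t => ∑ i, x i * w i t := rfl
  rw [h, iteratedDeriv_fun_sum]
  · refine Finset.sum_congr rfl fun i _ => ?_
    exact iteratedDeriv_const_mul_field (x i) (w i)
  · intro i _
    exact (analyticAt_const.mul (hw.an i t ht)).contDiffAt

theorem itd_cont (hw : Good a b w) (i : Fin n) (s : ℕ) : ContinuousOn (iteratedDeriv s (w i)) (Icc a b) := by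
  intro t ht
  have h := (hw.an i t ht).iterated_deriv s
  rw [iteratedDeriv_eq_iterate]
  exact h.continuousAt.continuousWithinAt

theorem zero_of (hw : Good a b w) (x : Fin n → ℝ) {t : ℝ} (ht : t ∈ Icc a b)
    (h0 : ∀ s, iteratedDeriv s (comb w x) t = 0) : x = 0 := by
  apply hw.li x
  have han := comb_an hw x
  have hev : comb w x =ᶠ[𝓝 t] 0 := by
    have h1 := (han t ht).hasFPowerSeriesAt
    have h2 : (FormalMultilinearSeries.ofScalars ℝ
        (fun m => iteratedDeriv m (comb w x) t / (m.factorial : ℝ))) = 0 := by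
      ext m
      simp [h0]
    rw [h2] at h1
    exact h1.eventually_eq_zero
  exact han.eqOn_zero_of_preconnected_of_eventuallyEq_zero isPreconnected_Icc ht hev

end OrdX

open OrdX in
theorem ord : T_ord := by
  intro a b n w hw
  by_contra hcon
  push Not at hcon
  -- choose
  have hpos : ∀ m : ℕ, (0 : ℝ) < 1 / ((m : ℝ) + 1) := fun m => by positivity
  choose x t ht hs using fun m : ℕ => hcon m (1 / ((m : ℝ) + 1)) (hpos m)
  have hx0 : ∀ m, 0 < ‖x m‖ := by
    intro m
    have h1 := hs m 0 (Nat.zero_le _)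
    have h2 := abs_nonneg (iteratedDeriv 0 (comb w (x m)) (t m))
    have h3 : 0 < 1 / ((m : ℝ) + 1) * ‖x m‖ := lt_of_le_of_lt h2 h1
    exact (mul_pos_iff_of_pos_left (hpos m)).mp h3
  set y : ℕ → Fin n → ℝ := fun m => (‖x m‖)⁻¹ • x m with hy
  have hyn : ∀ m, y m ∈ Metric.sphere (0 : Fin n → ℝ) 1 := by
    intro m
    rw [mem_sphere_zero_iff_norm, hy]
    simp only [norm_smul, norm_inv, norm_norm]
    exact inv_mul_cancel₀ (hx0 m).ne'
  have hys : ∀ m s, s ≤ m → |∑ i, y m i * iteratedDeriv s (w i) (t m)| < 1 / ((m : ℝ) + 1) := by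
    intro m s hsm
    have h1 := hs m s hsm
    rw [itd hw (x m) s (ht m)] at h1
    have h2 : ∑ i, y m i * iteratedDeriv s (w i) (t m) =
        (‖x m‖)⁻¹ * ∑ i, x m i * iteratedDeriv s (w i) (t m) := by
      rw [Finset.mul_sum]
      refine Finset.sum_congr rfl fun i _ => ?_
      simp only [hy, Pi.smul_apply, smul_eq_mul]
      ring
    rw [h2, abs_mul, abs_of_pos (inv_pos.mpr (hx0 m))]
    rw [inv_mul_lt_iff₀ (hx0 m)]
    linarith [h1, mul_comm (‖x m‖) (1 / ((m : ℝ) + 1))]
  have hcomp : IsCompact ((Metric.sphere (0 : Fin n → ℝ) 1) ×ˢ (Icc a b)) :=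
    (isCompact_sphere _ _).prod isCompact_Icc
  obtain ⟨⟨X, T⟩, hXT, φ, hφ, hlim⟩ := hcomp.tendsto_subseq (x := fun m => (y m, t m))
    (fun m => ⟨hyn m, ht m⟩)
  have hX : ‖X‖ = 1 := mem_sphere_zero_iff_norm.mp hXT.1
  have hT : T ∈ Icc a b := hXT.2
  have hlX : Tendsto (fun m => y (φ m)) atTop (𝓝 X) := (continuous_fst.tendsto (X, T)).comp hlim
  have hlT : Tendsto (fun m => t (φ m)) atTop (𝓝 T) := (continuous_snd.tendsto (X, T)).comp hlim
  have hlT' : Tendsto (fun m => t (φ m)) atTop (𝓝[Icc a b] T) :=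
    tendsto_nhdsWithin_iff.mpr ⟨hlT, Eventually.of_forall fun m => ht _⟩
  have hzero : ∀ s, iteratedDeriv s (comb w X) T = 0 := by
    intro s
    rw [itd hw X s hT]
    have h1 : Tendsto (fun m => ∑ i, y (φ m) i * iteratedDeriv s (w i) (t (φ m))) atTop
        (𝓝 (∑ i, X i * iteratedDeriv s (w i) T)) := by
      refine tendsto_finsetSum _ fun i _ => ?_
      refine Tendsto.mul ?_ ?_
      · exact (tendsto_pi_nhds.mp hlX) i
      · exact (itd_cont hw i s T hT).tendsto.comp hlT'
    have h2 : Tendsto (fun m => |∑ i, y (φ m) i * iteratedDeriv s (w i) (t (φ m))|) atTop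
        (𝓝 |∑ i, X i * iteratedDeriv s (w i) T|) := h1.abs
    have h3 : Tendsto (fun m : ℕ => 1 / (((φ m : ℕ) : ℝ) + 1)) atTop (𝓝 0) :=
      tendsto_one_div_add_atTop_nhds_zero_nat.comp hφ.tendsto_atTop
    have h4 : |∑ i, X i * iteratedDeriv s (w i) T| ≤ 0 := by
      refine le_of_tendsto_of_tendsto h2 h3 ?_
      filter_upwards [eventually_ge_atTop s] with m hm
      exact (hys (φ m) s (le_trans hm (hφ.id_le m))).le
    exact abs_nonpos_iff.mp h4
  have := zero_of hw X hT hzero
  rw [this, norm_zero] at hX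
  exact zero_ne_one hX

end Pool.Agent.TH818.AR
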