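import Pool.Agent.TH818.AR.Defs

/-!
# Project AR: uniform bounds for the derivatives and Taylor's formula (job 3558, helper480)
-/

set_option autoImplicit false

open Set Polynomial Filter Topology

namespace Pool.Agent.TH818.AR

namespace TaylorAux

lemma comb_an {a b : ℝ} {n : ℕ} {w : Fin n → ℝ → ℝ} (hw : ∀ i, AnalyticOnNhd ℝ (w i) (Icc a b))
    (x : Fin n → ℝ) : AnalyticOnNhd ℝ (comb w x) (Icc a b) := by
  intro t ht
  unfold comb
  exact Finset.analyticAt_fun_sum _ (fun i _ => analyticAt_const.mul (hw i t ht))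

lemma iter_an {a b : ℝ} {f : ℝ → ℝ} (hf : AnalyticOnNhd ℝ f (Icc a b)) (s : ℕ) :
    AnalyticOnNhd ℝ (iteratedDeriv s f) (Icc a b) := by
  rw [iteratedDeriv_eq_iterate]
  exact hf.iterated_deriv s

lemma iter_comb {a b : ℝ} {n : ℕ} {w : Fin n → ℝ → ℝ} (hw : ∀ i, AnalyticOnNhd ℝ (w i) (Icc a b))
    (x : Fin n → ℝ) (s : ℕ) {t : ℝ} (ht : t ∈ Icc a b) :
    iteratedDeriv s (comb w x) t = ∑ i, x i * iteratedDeriv s (w i) t := by
  have h1 : iteratedDeriv s (fun z => ∑ i, (fun y => x i * w i y) z) t =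
      ∑ i, iteratedDeriv s (fun y => x i * w i y) t :=
    iteratedDeriv_fun_sum (fun i _ => ((analyticAt_const.mul (hw i t ht)).contDiffAt))
  have h2 : comb w x = fun z => ∑ i, (fun y => x i * w i y) z := rfl
  rw [h2, h1]
  exact Finset.sum_congr rfl (fun i _ => iteratedDeriv_const_mul_field _ _)

lemma hasDeriv_iter {a b : ℝ} {f : ℝ → ℝ} (hf : AnalyticOnNhd ℝ f (Icc a b)) (j : ℕ) {t : ℝ}
    (ht : t ∈ Icc a b) : HasDerivAt (iteratedDeriv j f) (iteratedDeriv (j + 1) f t) t := by
  rw [iteratedDeriv_succ]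
  exact ((iter_an hf j) t ht).differentiableAt.hasDerivAt

/-- Taylor's formula, two-sided, for a family of successive derivatives -/
lemma gen {a b M : ℝ} (i : ℕ) : ∀ (f : ℕ → ℝ → ℝ),
    (∀ j, ∀ t ∈ Icc a b, HasDerivAt (f j) (f (j + 1) t) t) →
    (∀ t ∈ Icc a b, |f (i + 1) t| ≤ M) → ∀ s ∈ Icc a b, ∀ t ∈ Icc a b,
    |f 0 t - ∑ j ∈ Finset.range (i + 1), f j s / (j.factorial : ℝ) * (t - s) ^ j| ≤
      M * |t - s| ^ (i + 1) := by
  induction i with
  | zero =>
    intro f hf hM s hs t ht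
    have h1 := (convex_Icc a b).norm_image_sub_le_of_norm_hasDerivWithin_le (f := f 0)
      (f' := f 1) (C := M) (fun x hx => (hf 0 x hx).hasDerivWithinAt) (fun x hx => hM x hx) hs ht
    simpa using h1
  | succ i ih =>
    intro f hf hM s hs t ht
    have hsub : uIcc s t ⊆ Icc a b := by
      intro z hz
      rw [mem_uIcc] at hz
      rcases hz with hz | hz
      · exact ⟨hs.1.trans hz.1, hz.2.trans ht.2⟩
      · exact ⟨ht.1.trans hz.1, hz.2.trans hs.2⟩
    let R : ℝ → ℝ := fun z => f 0 z -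
      ∑ j ∈ Finset.range (i + 1 + 1), f j s / (j.factorial : ℝ) * (z - s) ^ j
    let R' : ℝ → ℝ := fun z => f 1 z -
      ∑ j ∈ Finset.range (i + 1), f (j + 1) s / (j.factorial : ℝ) * (z - s) ^ j
    have hR : ∀ z ∈ Icc a b, HasDerivAt R (R' z) z := by
      intro z hz
      have h1 : HasDerivAt (fun z : ℝ => ∑ j ∈ Finset.range (i + 1 + 1),
          f j s / (j.factorial : ℝ) * (z - s) ^ j)
          (∑ j ∈ Finset.range (i + 1), f (j + 1) s / (j.factorial : ℝ) * (z - s) ^ j) z := by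
        have h2 : (fun z : ℝ => ∑ j ∈ Finset.range (i + 1 + 1),
            f j s / (j.factorial : ℝ) * (z - s) ^ j) = fun z : ℝ =>
            ∑ j ∈ Finset.range (i + 1), f (j + 1) s / ((j + 1).factorial : ℝ) * (z - s) ^ (j + 1) +
              f 0 s := by
          funext z
          rw [Finset.sum_range_succ' _ (i + 1)]
          simp
        rw [h2]
        refine HasDerivAt.add_const _ ?_
        refine HasDerivAt.fun_sum (fun j _ => ?_)
        have h3 : HasDerivAt (fun z : ℝ => (z - s) ^ (j + 1)) (((j : ℝ) + 1) * (z - s) ^ j) z := by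
          have h4 := ((hasDerivAt_id z).sub_const s).fun_pow (j + 1)
          simpa using h4
        have h5 := h3.const_mul (f (j + 1) s / ((j + 1).factorial : ℝ))
        have e : f (j + 1) s / ((j + 1).factorial : ℝ) * (((j : ℝ) + 1) * (z - s) ^ j) =
            f (j + 1) s / (j.factorial : ℝ) * (z - s) ^ j := by
          rw [Nat.factorial_succ]
          have : (j.factorial : ℝ) ≠ 0 := by exact_mod_cast j.factorial_ne_zero
          push_cast
          field_simp
        rwa [e] at h5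
      exact (hf 0 z hz).sub h1
    have hbound : ∀ z ∈ uIcc s t, ‖R' z‖ ≤ M * |t - s| ^ (i + 1) := by
      intro z hz
      have h1 := ih (fun j => f (j + 1)) (fun j t ht => hf (j + 1) t ht) hM s hs z (hsub hz)
      have hM0 : 0 ≤ M := (abs_nonneg _).trans (hM s hs)
      refine (le_trans (le_of_eq ?_) h1).trans ?_
      · rfl
      · refine mul_le_mul_of_nonneg_left (pow_le_pow_left₀ (abs_nonneg _) ?_ _) hM0
        exact abs_sub_left_of_mem_uIcc hz
    have hRs : R s = 0 := by
      change f 0 s - ∑ j ∈ Finset.range (i + 1 + 1), f j s / (j.factorial : ℝ) * (s - s) ^ j = 0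
      rw [Finset.sum_range_succ' _ (i + 1)]
      simp
    have h2 := (convex_uIcc s t).norm_image_sub_le_of_norm_hasDerivWithin_le (f := R) (f' := R')
      (C := M * |t - s| ^ (i + 1)) (fun x hx => (hR x (hsub hx)).hasDerivWithinAt) hbound
      left_mem_uIcc right_mem_uIcc
    rw [hRs, sub_zero, Real.norm_eq_abs, Real.norm_eq_abs] at h2
    refine h2.trans (le_of_eq ?_)
    ring

end TaylorAux

open TaylorAux

theorem bd : T_bd := by
  intro a b n w hG S
  have h1 : ∀ (s : ℕ) (i : Fin n), ∃ C : ℝ, ∀ t ∈ Icc a b, ‖iteratedDeriv s (w i) t‖ ≤ C :=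
    fun s i => isCompact_Icc.exists_bound_of_continuousOn (iter_an (hG.an i) s).continuousOn
  choose C hC using h1
  have ha : a ∈ Icc a b := left_mem_Icc.2 hG.hab.le
  have hC0 : ∀ s i, 0 ≤ C s i := fun s i => (norm_nonneg _).trans (hC s i a ha)
  refine ⟨1 + ∑ s ∈ Finset.range (S + 1), ∑ i, C s i, ?_, fun x t ht s hs => ?_⟩
  · have : 0 ≤ ∑ s ∈ Finset.range (S + 1), ∑ i, C s i :=
      Finset.sum_nonneg fun s _ => Finset.sum_nonneg fun i _ => hC0 s i
    linarith
  · rw [iter_comb hG.an x s ht]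
    have h2 : |∑ i, x i * iteratedDeriv s (w i) t| ≤ ∑ i, ‖x‖ * C s i := by
      refine (Finset.abs_sum_le_sum_abs _ _).trans (Finset.sum_le_sum fun i _ => ?_)
      rw [abs_mul]
      exact mul_le_mul (norm_le_pi_norm x i) (hC s i t ht) (abs_nonneg _) (norm_nonneg _)
    rw [← Finset.mul_sum] at h2
    have h3 : ∑ i, C s i ≤ ∑ s ∈ Finset.range (S + 1), ∑ i, C s i :=
      Finset.single_le_sum (f := fun s => ∑ i, C s i)
        (fun s _ => Finset.sum_nonneg fun i _ => hC0 s i) (Finset.mem_range.2 (by omega))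
    have h4 : 0 ≤ ‖x‖ := norm_nonneg _
    nlinarith

theorem taylor : T_taylor := by
  intro a b n w hG k
  obtain ⟨B, hB, h⟩ := bd a b n w hG (k + 1)
  refine ⟨B, hB, fun x s t hs ht i hi => ?_⟩
  have h1 := gen (a := a) (b := b) (M := B * ‖x‖) i (fun j => iteratedDeriv j (comb w x))
    (fun j t ht => hasDeriv_iter (comb_an hG.an x) j ht)
    (fun t ht => h x t ht (i + 1) (by omega)) s hs t ht
  simpa only [iteratedDeriv_zero] using h1

end Pool.Agent.TH818.AR
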