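import Pool.Agent.TH818.AR.Defs

/-!
# A uniform bound for the number of zeros
-/

set_option autoImplicit false

open Set Polynomial Filter Topology

namespace Pool.Agent.TH818.AR.ZeroAux

/-- the theorem of Rolle, counted: if the `s`-th derivative has no zero on an interval, then the
function has at most `s` zeros there -/
theorem rolle (u v : ℝ) : ∀ (s : ℕ) (f : ℝ → ℝ), AnalyticOnNhd ℝ f (Icc u v) →
    (∀ t ∈ Icc u v, iteratedDeriv s f t ≠ 0) →
    ∀ Z : Finset ℝ, (∀ z ∈ Z, z ∈ Icc u v ∧ f z = 0) → Z.card ≤ s := by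
  classical
  intro s
  induction s with
  | zero =>
    intro f _ h Z hZ
    rw [Nat.le_zero, Finset.card_eq_zero, Finset.eq_empty_iff_forall_notMem]
    intro z hz
    have h1 := h z (hZ z hz).1
    rw [iteratedDeriv_zero] at h1
    exact h1 (hZ z hz).2
  | succ s ih =>
    intro f hf h Z hZ
    have hd : AnalyticOnNhd ℝ (deriv f) (Icc u v) := hf.deriv
    have h' : ∀ t ∈ Icc u v, iteratedDeriv s (deriv f) t ≠ 0 := by
      intro t ht
      rw [← iteratedDeriv_succ']
      exact h t ht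
    have hfin : {z | z ∈ Icc u v ∧ deriv f z = 0}.Finite := by
      by_contra hinf
      obtain ⟨F, hF, hFc⟩ := Set.Infinite.exists_subset_card_eq hinf (s + 1)
      have := ih (deriv f) hd h' F (fun z hz => hF hz)
      omega
    have h1 : Z.card ≤ hfin.toFinset.card + 1 := by
      refine Finset.card_le_of_interleaved ?_
      intro x hx y hy hxy _
      have hx' := hZ x hx
      have hy' := hZ y hy
      have hsub : Icc x y ⊆ Icc u v := Icc_subset_Icc hx'.1.1 hy'.1.2
      obtain ⟨c, hc, hc0⟩ := exists_deriv_eq_zero hxy (hf.continuousOn.mono hsub)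
        (hx'.2.trans hy'.2.symm)
      refine ⟨c, ?_, hc.1, hc.2⟩
      rw [Set.Finite.mem_toFinset]
      exact ⟨hsub ⟨hc.1.le, hc.2.le⟩, hc0⟩
    have h2 : hfin.toFinset.card ≤ s := ih (deriv f) hd h' _ (fun z hz => by
      rw [Set.Finite.mem_toFinset] at hz
      exact hz)
    omega

/-- an analytic function on an interval with some large derivative at each point -/
theorem count (a b : ℝ) (f : ℝ → ℝ) (hf : AnalyticOnNhd ℝ f (Icc a b)) (N : ℕ)
    (d D ρ : ℝ) (hρ : 0 < ρ) (hD : D * ρ < d)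
    (h1 : ∀ t ∈ Icc a b, ∃ s, s ≤ N ∧ d ≤ |iteratedDeriv s f t|)
    (h2 : ∀ t ∈ Icc a b, ∀ s, s ≤ N + 1 → |iteratedDeriv s f t| ≤ D)
    (Z : Finset ℝ) (hZ : ∀ z ∈ Z, z ∈ Icc a b ∧ f z = 0) :
    Z.card ≤ N * (⌊(b - a) / ρ⌋₊ + 1) := by
  classical
  have hmaps : ∀ z ∈ Z, ⌊(z - a) / ρ⌋₊ ∈ Finset.range (⌊(b - a) / ρ⌋₊ + 1) := by
    intro z hz
    rw [Finset.mem_range, Nat.lt_succ_iff]
    have h3 := (hZ z hz).1
    exact Nat.floor_le_floor (by
      rw [div_le_div_iff_of_pos_right hρ]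
      linarith [h3.2])
  have h3 := Finset.card_le_mul_card_image_of_maps_to hmaps N (fun j _ => ?_)
  · rwa [Finset.card_range] at h3
  set F := Z.filter (fun z => ⌊(z - a) / ρ⌋₊ = j) with hF
  rcases F.eq_empty_or_nonempty with he | ⟨z0, hz0⟩
  · rw [he]; simp
  have hFz : ∀ z ∈ F, a + j * ρ ≤ z ∧ z ≤ a + (j + 1) * ρ ∧ z ∈ Icc a b ∧ f z = 0 := by
    intro z hz
    rw [hF, Finset.mem_filter] at hz
    have h4 := hZ z hz.1
    have h0 : 0 ≤ (z - a) / ρ := div_nonneg (by linarith [h4.1.1]) hρ.le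
    have h5 : (j : ℝ) ≤ (z - a) / ρ := by
      rw [← hz.2]
      exact Nat.floor_le h0
    have h6 : (z - a) / ρ < j + 1 := by
      rw [← hz.2]
      exact Nat.lt_floor_add_one _
    rw [le_div_iff₀ hρ] at h5
    rw [div_lt_iff₀ hρ] at h6
    exact ⟨by linarith, by linarith, h4⟩
  set u : ℝ := a + j * ρ with hu
  set v : ℝ := min b (a + (j + 1) * ρ) with hv
  have huI : u ∈ Icc a b := by
    refine ⟨?_, (hFz z0 hz0).1.trans (hFz z0 hz0).2.2.1.2⟩
    have : (0 : ℝ) ≤ j * ρ := by positivity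
    linarith
  obtain ⟨s, hs, hsd⟩ := h1 u huI
  have hsub : Icc u v ⊆ Icc a b := Icc_subset_Icc huI.1 (min_le_left _ _)
  have han : AnalyticOnNhd ℝ (iteratedDeriv s f) (Icc a b) := by
    rw [iteratedDeriv_eq_iterate]
    exact hf.iterated_deriv s
  have hne : ∀ t ∈ Icc u v, iteratedDeriv s f t ≠ 0 := by
    intro t ht h0
    have h7 := Convex.norm_image_sub_le_of_norm_deriv_le (f := iteratedDeriv s f) (C := D)
      (s := Icc u v) (x := u) (y := t) (fun y hy => (han y (hsub hy)).differentiableAt)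
      (fun y hy => by
        rw [← iteratedDeriv_succ]
        exact h2 y (hsub hy) (s + 1) (by omega)) (convex_Icc u v)
      ⟨le_rfl, ht.1.trans ht.2⟩ ht
    rw [h0, zero_sub, norm_neg, Real.norm_eq_abs, Real.norm_eq_abs,
      abs_of_nonneg (by linarith [ht.1] : 0 ≤ t - u)] at h7
    have h8 : t - u ≤ ρ := by
      have := ht.2.trans (min_le_right _ _)
      rw [hu]
      linarith
    have hD0 : 0 ≤ D := (abs_nonneg _).trans (h2 u huI 0 (by omega))
    have h9 : D * (t - u) ≤ D * ρ := mul_le_mul_of_nonneg_left h8 hD0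
    linarith
  have := rolle u v s f (hf.mono hsub) hne F (fun z hz => by
    have h10 := hFz z hz
    exact ⟨⟨h10.1, le_min h10.2.2.1.2 h10.2.1⟩, h10.2.2.2⟩)
  exact this.trans hs

end Pool.Agent.TH818.AR.ZeroAux

namespace Pool.Agent.TH818.AR

theorem zero_of (h1 : T_ord) (h2 : T_bd) : T_zero := by
  intro a b n w hw
  obtain ⟨N, δ, hδ, hN⟩ := h1 a b n w hw
  obtain ⟨B, hB, hB'⟩ := h2 a b n w hw (N + 1)
  set ρ : ℝ := δ / (2 * B) with hρ
  have hρ0 : 0 < ρ := by positivity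
  refine ⟨N * (⌊(b - a) / ρ⌋₊ + 1), ?_⟩
  intro x hx Z hZ
  have hx0 : 0 < ‖x‖ := norm_pos_iff.2 hx
  have han : AnalyticOnNhd ℝ (comb w x) (Icc a b) := by
    unfold comb
    intro t ht
    exact Finset.analyticAt_fun_sum _ (fun i _ => analyticAt_const.mul (hw.an i t ht))
  refine ZeroAux.count a b (comb w x) han N (δ * ‖x‖) (B * ‖x‖) ρ hρ0 ?_
    (fun t ht => hN x t ht) (fun t ht s hs => hB' x t ht s hs) Z hZ
  have h3 : B * ‖x‖ * ρ = δ * ‖x‖ / 2 := by
    rw [hρ]
    field_simp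
  rw [h3]
  have : 0 < δ * ‖x‖ := by positivity
  linarith

end Pool.Agent.TH818.AR
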