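import Pool.Agent.TH818.AR.Defs

/-!
# Complete elliptic integrals: analyticity, derivatives, positivity
-/

set_option autoImplicit false

open Set Filter Topology MeasureTheory

namespace Pool.Agent.TH818.AR.EllAux

/-- derivative of a parametric integral, `F'` jointly continuous -/
lemma hasDeriv_param {U : Set ℂ} (hU : IsOpen U) (F F' : ℂ → ℝ → ℂ) (a b : ℝ)
    (hc : ∀ w ∈ U, Continuous (F w))
    (hc' : ContinuousOn (fun p : ℂ × ℝ => F' p.1 p.2) (U ×ˢ univ))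
    (hd : ∀ w ∈ U, ∀ θ, HasDerivAt (fun w => F w θ) (F' w θ) w) (z : ℂ) (hz : z ∈ U) :
    HasDerivAt (fun w => ∫ θ in a..b, F w θ) (∫ θ in a..b, F' z θ) z := by
  obtain ⟨r, hr, hrU⟩ := Metric.nhds_basis_closedBall.mem_iff.mp (hU.mem_nhds hz)
  have hK : IsCompact (Metric.closedBall z r ×ˢ uIcc a b) :=
    (isCompact_closedBall z r).prod isCompact_uIcc
  have hcK : ContinuousOn (fun p : ℂ × ℝ => F' p.1 p.2) (Metric.closedBall z r ×ˢ uIcc a b) :=
    hc'.mono (prod_mono hrU (subset_univ _))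
  obtain ⟨C, hC⟩ := hK.exists_bound_of_continuousOn hcK
  have hcz : Continuous (F' z) := by
    have h1 : ContinuousOn (fun θ : ℝ => F' z θ) univ :=
      hc'.comp (f := fun θ : ℝ => ((z, θ) : ℂ × ℝ)) (by fun_prop)
        (fun θ _ => ⟨hz, mem_univ _⟩)
    exact continuousOn_univ.mp h1
  refine (intervalIntegral.hasDerivAt_integral_of_dominated_loc_of_deriv_le (𝕜 := ℂ)
    (F := F) (F' := F') (bound := fun _ => C) (Metric.closedBall_mem_nhds z hr) ?_
    ((hc z hz).intervalIntegrable a b) hcz.aestronglyMeasurable ?_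
    intervalIntegrable_const ?_).2
  · filter_upwards [hU.mem_nhds hz] with w hw
    exact (hc w hw).aestronglyMeasurable
  · refine Eventually.of_forall fun θ hθ w hw => ?_
    exact hC (w, θ) ⟨hw, uIoc_subset_uIcc hθ⟩
  · refine Eventually.of_forall fun θ _ w hw => hd w (hrU hw) θ

/-- the half plane -/
def U : Set ℂ := {w | w.re < 1}

lemma isOpen_U : IsOpen U := isOpen_lt Complex.continuous_re continuous_const

lemma slit (w : ℂ) (hw : w ∈ U) (θ : ℝ) :
    (1 - w * ((Real.sin θ ^ 2 : ℝ) : ℂ)) ∈ Complex.slitPlane := by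
  have hw' : w.re < 1 := hw
  rw [Complex.mem_slitPlane_iff]
  left
  have h1 : (1 - w * ((Real.sin θ ^ 2 : ℝ) : ℂ)).re = 1 - w.re * Real.sin θ ^ 2 := by
    rw [Complex.sub_re, Complex.re_mul_ofReal, Complex.one_re]
  rw [h1]
  have h2 : Real.sin θ ^ 2 ≤ 1 := Real.sin_sq_le_one θ
  have h3 : 0 ≤ Real.sin θ ^ 2 := sq_nonneg _
  rcases le_or_gt w.re 0 with h | h
  · nlinarith
  · nlinarith

lemma pos_q (t : ℝ) (ht : t < 1) (θ : ℝ) : 0 < 1 - t * Real.sin θ ^ 2 := by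
  have h2 : Real.sin θ ^ 2 ≤ 1 := Real.sin_sq_le_one θ
  have h3 : 0 ≤ Real.sin θ ^ 2 := sq_nonneg _
  rcases le_or_gt t 0 with h | h
  · nlinarith
  · nlinarith

/-- the complexified integral -/
noncomputable def Jc (a : ℝ) (z : ℂ) : ℂ :=
  ∫ θ in (0 : ℝ)..(Real.pi / 2), (1 - z * ((Real.sin θ ^ 2 : ℝ) : ℂ)) ^ (a : ℂ)

/-- the real integral -/
noncomputable def J (a : ℝ) (t : ℝ) : ℝ :=
  ∫ θ in (0 : ℝ)..(Real.pi / 2), (1 - t * Real.sin θ ^ 2) ^ a

/-- its derivative -/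
noncomputable def J' (a : ℝ) (t : ℝ) : ℝ :=
  ∫ θ in (0 : ℝ)..(Real.pi / 2), a * (1 - t * Real.sin θ ^ 2) ^ (a - 1) * (-Real.sin θ ^ 2)

lemma Jc_deriv (a : ℝ) (z : ℂ) (hz : z ∈ U) : HasDerivAt (Jc a)
    (∫ θ in (0 : ℝ)..(Real.pi / 2), (a : ℂ) * (1 - z * ((Real.sin θ ^ 2 : ℝ) : ℂ)) ^ ((a : ℂ) - 1) *
      (-((Real.sin θ ^ 2 : ℝ) : ℂ))) z := by
  refine hasDeriv_param isOpen_U
    (fun z θ => (1 - z * ((Real.sin θ ^ 2 : ℝ) : ℂ)) ^ (a : ℂ))
    (fun z θ => (a : ℂ) * (1 - z * ((Real.sin θ ^ 2 : ℝ) : ℂ)) ^ ((a : ℂ) - 1) *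
      (-((Real.sin θ ^ 2 : ℝ) : ℂ))) 0 (Real.pi / 2) ?_ ?_ ?_ z hz
  · intro w hw
    refine Continuous.cpow (by fun_prop) continuous_const (fun θ => slit w hw θ)
  · refine ContinuousOn.mul (ContinuousOn.mul continuousOn_const ?_) (by fun_prop)
    refine ContinuousOn.cpow (by fun_prop) continuousOn_const ?_
    intro p hp
    exact slit p.1 hp.1 p.2
  · intro w hw θ
    have h1 : HasDerivAt (fun w : ℂ => 1 - w * ((Real.sin θ ^ 2 : ℝ) : ℂ))
        (-((Real.sin θ ^ 2 : ℝ) : ℂ)) w := by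
      have h0 := ((hasDerivAt_id w).mul_const ((Real.sin θ ^ 2 : ℝ) : ℂ)).const_sub 1
      rw [one_mul] at h0
      exact h0
    exact h1.cpow_const (slit w hw θ)

lemma Jc_analytic (a : ℝ) (z : ℂ) (hz : z ∈ U) : AnalyticAt ℂ (Jc a) z := by
  have h : DifferentiableOn ℂ (Jc a) U := fun w hw =>
    (Jc_deriv a w hw).differentiableAt.differentiableWithinAt
  exact h.analyticAt (isOpen_U.mem_nhds hz)

lemma Jc_ofReal (a t : ℝ) (ht : t < 1) : Jc a (t : ℂ) = (J a t : ℂ) := by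
  unfold Jc J
  rw [← intervalIntegral.integral_ofReal]
  refine intervalIntegral.integral_congr fun θ _ => ?_
  show (1 - (t : ℂ) * ((Real.sin θ ^ 2 : ℝ) : ℂ)) ^ (a : ℂ) =
    (((1 - t * Real.sin θ ^ 2) ^ a : ℝ) : ℂ)
  rw [Complex.ofReal_cpow (pos_q t ht θ).le]
  congr 1
  push_cast
  ring

lemma eventually_J (a t : ℝ) (ht : t < 1) : (fun x : ℝ => (Jc a (x : ℂ)).re) =ᶠ[𝓝 t] J a := by
  filter_upwards [Iio_mem_nhds ht] with x hx
  rw [Jc_ofReal a x hx, Complex.ofReal_re]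

lemma J_analytic (a t : ℝ) (ht : t < 1) : AnalyticAt ℝ (J a) t := by
  have h := (Jc_analytic a (t : ℂ) (by simpa [U] using ht)).re_ofReal
  exact h.congr (eventually_J a t ht)

lemma J_deriv (a t : ℝ) (ht : t < 1) : HasDerivAt (J a) (J' a t) t := by
  have h := (Jc_deriv a (t : ℂ) (by simpa [U] using ht)).real_of_complex
  have h2 : (∫ θ in (0 : ℝ)..(Real.pi / 2), (a : ℂ) *
      (1 - (t : ℂ) * ((Real.sin θ ^ 2 : ℝ) : ℂ)) ^ ((a : ℂ) - 1) *
      (-((Real.sin θ ^ 2 : ℝ) : ℂ))) = ((J' a t : ℝ) : ℂ) := by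
    unfold J'
    rw [← intervalIntegral.integral_ofReal]
    refine intervalIntegral.integral_congr fun θ _ => ?_
    show (a : ℂ) * (1 - (t : ℂ) * ((Real.sin θ ^ 2 : ℝ) : ℂ)) ^ ((a : ℂ) - 1) *
      (-((Real.sin θ ^ 2 : ℝ) : ℂ)) =
      ((a * (1 - t * Real.sin θ ^ 2) ^ (a - 1) * (-Real.sin θ ^ 2) : ℝ) : ℂ)
    rw [Complex.ofReal_mul, Complex.ofReal_mul, Complex.ofReal_cpow (pos_q t ht θ).le]
    push_cast
    ring
  rw [h2, Complex.ofReal_re] at h
  exact h.congr_of_eventuallyEq (eventually_J a t ht).symm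

lemma KK_eq (t : ℝ) (ht : t < 1) : KK t = J (-1 / 2) t := by
  unfold KK J
  refine intervalIntegral.integral_congr fun θ _ => ?_
  show 1 / √(1 - t * Real.sin θ ^ 2) = (1 - t * Real.sin θ ^ 2) ^ (-1 / 2 : ℝ)
  rw [Real.sqrt_eq_rpow, neg_div, Real.rpow_neg (pos_q t ht θ).le, one_div]

lemma EE_eq (t : ℝ) : EE t = J (1 / 2) t := by
  unfold EE J
  refine intervalIntegral.integral_congr fun θ _ => ?_
  show √(1 - t * Real.sin θ ^ 2) = (1 - t * Real.sin θ ^ 2) ^ (1 / 2 : ℝ)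
  rw [Real.sqrt_eq_rpow]

lemma cont_q (a t : ℝ) (ht : t < 1) :
    Continuous (fun θ : ℝ => (1 - t * Real.sin θ ^ 2) ^ a) :=
  Continuous.rpow_const (by fun_prop) (fun θ => Or.inl (pos_q t ht θ).ne')

lemma cont_cq (c a t : ℝ) (ht : t < 1) :
    Continuous (fun θ : ℝ => c * (1 - t * Real.sin θ ^ 2) ^ a) :=
  continuous_const.mul (cont_q a t ht)

/-- `t J_a' = a (J_a - J_(a-1))` -/
lemma J'_eq (a t : ℝ) (ht : t < 1) : t * J' a t = a * (J a t - J (a - 1) t) := by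
  unfold J' J
  rw [← intervalIntegral.integral_sub ((cont_q a t ht).intervalIntegrable _ _)
    ((cont_q (a - 1) t ht).intervalIntegrable _ _), ← intervalIntegral.integral_const_mul,
    ← intervalIntegral.integral_const_mul]
  refine intervalIntegral.integral_congr fun θ _ => ?_
  show t * (a * (1 - t * Real.sin θ ^ 2) ^ (a - 1) * (-Real.sin θ ^ 2)) =
    a * ((1 - t * Real.sin θ ^ 2) ^ a - (1 - t * Real.sin θ ^ 2) ^ (a - 1))
  have h1 : (1 - t * Real.sin θ ^ 2) ^ a =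
      (1 - t * Real.sin θ ^ 2) ^ (a - 1) * (1 - t * Real.sin θ ^ 2) := by
    rw [← Real.rpow_add_one (pos_q t ht θ).ne']
    congr 1
    ring
  rw [h1]
  ring

/-- the integral of `q^(-3/2)` -/
lemma J_three (t : ℝ) (ht : t < 1) : (1 - t) * J (-1 / 2 - 1) t = J (1 / 2) t := by
  have hder : ∀ θ : ℝ, HasDerivAt
      (fun θ : ℝ => t * (Real.sin θ * Real.cos θ * (1 - t * Real.sin θ ^ 2) ^ (-1 / 2 : ℝ)))
      ((1 - t * Real.sin θ ^ 2) ^ (1 / 2 : ℝ) -
        (1 - t) * (1 - t * Real.sin θ ^ 2) ^ (-1 / 2 - 1 : ℝ)) θ := by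
    intro θ
    have hq : HasDerivAt (fun θ : ℝ => 1 - t * Real.sin θ ^ 2)
        (-(t * (2 * Real.sin θ * Real.cos θ))) θ := by
      refine ((((Real.hasDerivAt_sin θ).pow 2).const_mul t).const_sub 1).congr_deriv ?_
      norm_num
    have hp := hq.rpow_const (p := (-1 / 2 : ℝ)) (Or.inl (pos_q t ht θ).ne')
    have h := (((Real.hasDerivAt_sin θ).mul (Real.hasDerivAt_cos θ)).mul hp).const_mul t
    have hpos := pos_q t ht θ
    have e1 : (1 - t * Real.sin θ ^ 2) ^ (1 / 2 : ℝ) =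
        (1 - t * Real.sin θ ^ 2) ^ (-1 / 2 - 1 : ℝ) * (1 - t * Real.sin θ ^ 2) ^ 2 := by
      have h1 := Real.rpow_add_one hpos.ne' (-1 / 2 - 1)
      have h2 := Real.rpow_add_one hpos.ne' (-1 / 2 - 1 + 1)
      rw [h1, show (-1 / 2 - 1 + 1 + 1 : ℝ) = 1 / 2 by norm_num] at h2
      rw [h2]
      ring
    have e2 : (1 - t * Real.sin θ ^ 2) ^ (-1 / 2 : ℝ) =
        (1 - t * Real.sin θ ^ 2) ^ (-1 / 2 - 1 : ℝ) * (1 - t * Real.sin θ ^ 2) := by
      rw [← Real.rpow_add_one hpos.ne']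
      congr 1
      norm_num
    refine h.congr_deriv ?_
    simp only [Pi.mul_apply]
    rw [e1, e2]
    have hcs : Real.cos θ ^ 2 = 1 - Real.sin θ ^ 2 := Real.cos_sq' θ
    generalize (1 - t * Real.sin θ ^ 2) ^ (-1 / 2 - 1 : ℝ) = y
    generalize Real.sin θ = s at *
    generalize Real.cos θ = c at *
    linear_combination (t * y * (1 - t * s ^ 2) + t ^ 2 * s ^ 2 * y) * hcs
  have hint : ∫ θ in (0 : ℝ)..(Real.pi / 2), ((1 - t * Real.sin θ ^ 2) ^ (1 / 2 : ℝ) -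
        (1 - t) * (1 - t * Real.sin θ ^ 2) ^ (-1 / 2 - 1 : ℝ)) = 0 := by
    rw [intervalIntegral.integral_eq_sub_of_hasDerivAt (fun θ _ => hder θ)
      (((cont_q _ t ht).sub (cont_cq _ _ t ht)).intervalIntegrable _ _)]
    simp
  rw [intervalIntegral.integral_sub ((cont_q _ t ht).intervalIntegrable _ _)
    ((cont_cq _ _ t ht).intervalIntegrable _ _),
    intervalIntegral.integral_const_mul] at hint
  unfold J
  linarith

end EllAux

open EllAux

theorem an : T_an := by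
  refine ⟨fun t ht => ?_, fun t ht => ?_⟩
  · refine (J_analytic (-1 / 2) t ht).congr ?_
    filter_upwards [Iio_mem_nhds ht] with x hx
    exact (KK_eq x hx).symm
  · refine (J_analytic (1 / 2) t ht).congr ?_
    exact Eventually.of_forall fun x => (EE_eq x).symm

theorem ode : T_ode := by
  intro t ht ht0
  have h1t : (1 - t) ≠ 0 := by linarith
  constructor
  · have h := J_deriv (-1 / 2) t ht
    have h2 := J'_eq (-1 / 2) t ht
    have h3 := J_three t ht
    have h4 : J' (-1 / 2) t = (EE t - (1 - t) * KK t) / (2 * t * (1 - t)) := by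
      rw [EE_eq, KK_eq t ht, eq_div_iff (by positivity), ← h3]
      linear_combination (2 * (1 - t)) * h2
    rw [← h4]
    refine h.congr_of_eventuallyEq ?_
    filter_upwards [Iio_mem_nhds ht] with x hx
    exact KK_eq x hx
  · have h := J_deriv (1 / 2) t ht
    have h2 := J'_eq (1 / 2) t ht
    have h4 : J' (1 / 2) t = (EE t - KK t) / (2 * t) := by
      rw [EE_eq, KK_eq t ht, eq_div_iff (by positivity)]
      have h5 : (1 / 2 - 1 : ℝ) = -1 / 2 := by norm_num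
      rw [h5] at h2
      linear_combination 2 * h2
    rw [← h4]
    refine h.congr_of_eventuallyEq ?_
    exact Eventually.of_forall fun x => EE_eq x

theorem pos : T_pos := by
  have hpi : (0 : ℝ) < Real.pi / 2 := by positivity
  refine ⟨fun t ht => ?_, fun t ht => ?_, ?_⟩
  · rw [KK_eq t ht]
    exact intervalIntegral.intervalIntegral_pos_of_pos_on
      ((cont_q _ t ht).intervalIntegrable _ _)
      (fun θ _ => Real.rpow_pos_of_pos (pos_q t ht θ) _) hpi
  · rw [EE_eq t]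
    exact intervalIntegral.intervalIntegral_pos_of_pos_on
      ((cont_q _ t ht).intervalIntegrable _ _)
      (fun θ _ => Real.rpow_pos_of_pos (pos_q t ht θ) _) hpi
  · have ht : (1 / 2 : ℝ) < 1 := by norm_num
    have h : 0 < ∫ θ in (0 : ℝ)..(Real.pi / 2),
        (2 * (1 - 1 / 2 * Real.sin θ ^ 2) ^ (1 / 2 : ℝ) -
          (1 - 1 / 2 * Real.sin θ ^ 2) ^ (-1 / 2 : ℝ)) := by
      refine intervalIntegral.intervalIntegral_pos_of_pos_on
        (((cont_cq _ _ _ ht).sub (cont_q _ _ ht)).intervalIntegrable _ _)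
        (fun θ hθ => ?_) hpi
      have hpos := pos_q (1 / 2) ht θ
      have e1 : (1 - 1 / 2 * Real.sin θ ^ 2) ^ (1 / 2 : ℝ) =
          (1 - 1 / 2 * Real.sin θ ^ 2) ^ (-1 / 2 : ℝ) * (1 - 1 / 2 * Real.sin θ ^ 2) := by
        rw [← Real.rpow_add_one hpos.ne']
        congr 1
        norm_num
      rw [e1]
      have hc : 0 < Real.cos θ := Real.cos_pos_of_mem_Ioo ⟨by linarith [hθ.1], hθ.2⟩
      have hcs : Real.cos θ ^ 2 = 1 - Real.sin θ ^ 2 := Real.cos_sq' θ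
      have hy : 0 < (1 - 1 / 2 * Real.sin θ ^ 2) ^ (-1 / 2 : ℝ) := Real.rpow_pos_of_pos hpos _
      have : 0 < (1 - 1 / 2 * Real.sin θ ^ 2) ^ (-1 / 2 : ℝ) * Real.cos θ ^ 2 := by positivity
      rw [hcs] at this
      linarith
    rw [intervalIntegral.integral_sub
      ((cont_cq _ _ _ ht).intervalIntegrable _ _)
      ((cont_q _ _ ht).intervalIntegrable _ _), intervalIntegral.integral_const_mul] at h
    rw [KK_eq _ ht, EE_eq]
    unfold J
    linarith

end Pool.Agent.TH818.AR
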