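import Pool.Agent.TH818.AR.Ell

/-!
# Legendre's relation and the logarithmic singularity
-/

set_option autoImplicit false

open Set Filter Topology MeasureTheory

namespace Pool.Agent.TH818.AR.SingAux

open EllAux

/-- the expression of Legendre's relation -/
noncomputable def Wf (t : ℝ) : ℝ := KK t * EE (1 - t) + EE t * KK (1 - t) - KK t * KK (1 - t)

lemma KK_deriv1 (h2 : T_ode) (t : ℝ) (ht0 : 0 < t) (ht1 : t < 1) :
    HasDerivAt (fun s => KK (1 - s)) (-((EE (1 - t) - t * KK (1 - t)) / (2 * (1 - t) * t))) t := by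
  have h := (h2 (1 - t) (by linarith) (by linarith)).1
  have h' : HasDerivAt (fun s : ℝ => 1 - s) (-1) t := by
    simpa using (hasDerivAt_id t).const_sub 1
  have := h.comp t h'
  refine this.congr_deriv ?_
  rw [show 1 - (1 - t) = t by ring]
  ring

lemma EE_deriv1 (h2 : T_ode) (t : ℝ) (ht0 : 0 < t) (ht1 : t < 1) :
    HasDerivAt (fun s => EE (1 - s)) (-((EE (1 - t) - KK (1 - t)) / (2 * (1 - t)))) t := by
  have h := (h2 (1 - t) (by linarith) (by linarith)).2
  have h' : HasDerivAt (fun s : ℝ => 1 - s) (-1) t := by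
    simpa using (hasDerivAt_id t).const_sub 1
  have := h.comp t h'
  refine this.congr_deriv ?_
  ring

lemma Wf_deriv (h2 : T_ode) (t : ℝ) (ht0 : 0 < t) (ht1 : t < 1) : HasDerivAt Wf 0 t := by
  have hK := (h2 t ht1 ht0.ne').1
  have hE := (h2 t ht1 ht0.ne').2
  have hK1 := KK_deriv1 h2 t ht0 ht1
  have hE1 := EE_deriv1 h2 t ht0 ht1
  have h := ((hK.mul hE1).add (hE.mul hK1)).sub (hK.mul hK1)
  refine h.congr_deriv ?_
  have h1 : (1 - t) ≠ 0 := by linarith
  have h0 : t ≠ 0 := ht0.ne'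
  field_simp
  ring

lemma Wf_const (h2 : T_ode) (t : ℝ) (ht0 : 0 < t) (ht1 : t < 1) : Wf t = Wf (1 / 2) := by
  refine isOpen_Ioo.is_const_of_deriv_eq_zero (s := Ioo (0 : ℝ) 1) isPreconnected_Ioo
    ?_ ?_ ⟨ht0, ht1⟩ (by norm_num)
  · intro s hs
    exact (Wf_deriv h2 s hs.1 hs.2).differentiableAt.differentiableWithinAt
  · intro s hs
    exact (Wf_deriv h2 s hs.1 hs.2).deriv

lemma Wf_pos (h3 : T_pos) : 0 < Wf (1 / 2) := by
  obtain ⟨hK, _, h⟩ := h3
  have hK' := hK (1 / 2) (by norm_num)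
  have : Wf (1 / 2) = KK (1 / 2) * (2 * EE (1 / 2) - KK (1 / 2)) := by
    unfold Wf
    rw [show (1 - 1 / 2 : ℝ) = 1 / 2 by norm_num]
    ring
  rw [this]
  exact mul_pos hK' (by linarith)

/-- the quotient of the periods -/
lemma quot_deriv (h2 : T_ode) (h3 : T_pos) (t : ℝ) (ht0 : 0 < t) (ht1 : t < 1) :
    HasDerivAt (fun s => KK (1 - s) / KK s) (-(Wf (1 / 2) / (2 * t * (1 - t) * KK t ^ 2))) t := by
  have hK := (h2 t ht1 ht0.ne').1
  have hK1 := KK_deriv1 h2 t ht0 ht1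
  have hKp := (h3.1 t ht1).ne'
  have h := hK1.div hK hKp
  refine h.congr_deriv ?_
  rw [← Wf_const h2 t ht0 ht1]
  have h1 : (1 - t) ≠ 0 := by linarith
  have h0 : t ≠ 0 := ht0.ne'
  unfold Wf
  field_simp
  ring

/-- the complexification of `1 / ((1 - t) K(t)^2)` -/
noncomputable def hc (z : ℂ) : ℂ := 1 / ((1 - z) * Jc (-1 / 2) z ^ 2)

lemma hc_ofReal (t : ℝ) (ht : t < 1) : hc (t : ℂ) = ((1 / ((1 - t) * KK t ^ 2) : ℝ) : ℂ) := by
  unfold hc
  rw [Jc_ofReal _ _ ht, ← KK_eq t ht]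
  push_cast
  ring

lemma hc_analytic (h3 : T_pos) : AnalyticAt ℂ hc 0 := by
  unfold hc
  have h0 : (0 : ℂ) ∈ U := by simp [U]
  refine AnalyticAt.div analyticAt_const
    ((analyticAt_const.sub analyticAt_id).mul ((Jc_analytic _ 0 h0).pow 2)) ?_
  have h1 : Jc (-1 / 2) 0 = ((KK 0 : ℝ) : ℂ) := by
    have := Jc_ofReal (-1 / 2) 0 (by norm_num)
    rw [← KK_eq 0 (by norm_num)] at this
    simpa using this
  have h2 : (KK 0 : ℂ) ≠ 0 := by
    exact_mod_cast (h3.1 0 (by norm_num)).ne'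
  rw [h1]
  simpa using h2

/-- the regular part -/
lemma exists_prim (h3 : T_pos) : ∃ (p : ℝ → ℝ) (r : ℝ), 0 < r ∧ r ≤ 1 ∧ AnalyticAt ℝ p 0 ∧
    ∀ t : ℝ, 0 < t → t < r →
      HasDerivAt p ((1 / ((1 - t) * KK t ^ 2) - 1 / KK 0 ^ 2) / t) t := by
  have ha := hc_analytic h3
  obtain ⟨r, hr, hrd⟩ : ∃ r > 0, DifferentiableOn ℂ hc (Metric.ball 0 r) := by
    have h1 : ∀ᶠ z in 𝓝 (0 : ℂ), AnalyticAt ℂ hc z := ha.eventually_analyticAt
    obtain ⟨r, hr, hr2⟩ := Metric.eventually_nhds_iff_ball.mp h1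
    exact ⟨r, hr, fun z hz => (hr2 z hz).differentiableAt.differentiableWithinAt⟩
  have hd : DifferentiableOn ℂ (dslope hc 0) (Metric.ball 0 r) :=
    (Complex.differentiableOn_dslope (Metric.ball_mem_nhds 0 hr)).mpr hrd
  obtain ⟨P, hP⟩ := hd.isExactOn_ball
  have hPa : AnalyticAt ℂ P 0 := by
    have : DifferentiableOn ℂ P (Metric.ball 0 r) := fun z hz =>
      (hP z hz).differentiableAt.differentiableWithinAt
    exact this.analyticAt (Metric.ball_mem_nhds 0 hr)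
  refine ⟨fun t => (P t).re, min r 1, lt_min hr one_pos, min_le_right _ _, ?_, ?_⟩
  · have : AnalyticAt ℂ P ((0 : ℝ) : ℂ) := by simpa using hPa
    exact this.re_ofReal
  · intro t ht0 htr
    have ht1 : t < 1 := lt_of_lt_of_le htr (min_le_right _ _)
    have htr' : t < r := lt_of_lt_of_le htr (min_le_left _ _)
    have hmem : (t : ℂ) ∈ Metric.ball (0 : ℂ) r := by
      simp [abs_of_pos ht0, htr']
    have h := (hP (t : ℂ) hmem).real_of_complex
    refine h.congr_deriv ?_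
    have hne : (t : ℂ) ≠ 0 := by exact_mod_cast ht0.ne'
    rw [dslope_of_ne _ hne, slope_def_field, hc_ofReal t ht1]
    have h0 : hc 0 = ((1 / KK 0 ^ 2 : ℝ) : ℂ) := by
      have := hc_ofReal 0 (by norm_num)
      rw [Complex.ofReal_zero] at this
      rw [this]
      norm_num
    rw [h0, sub_zero, ← Complex.ofReal_sub, ← Complex.ofReal_div, Complex.ofReal_re]

end SingAux

open SingAux

theorem leg_of (h2 : T_ode) (h3 : T_pos) : T_leg :=
  ⟨Wf (1 / 2), Wf_pos h3, fun t ht0 ht1 => Wf_const h2 t ht0 ht1⟩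

theorem sing_of (_h1 : T_an) (h2 : T_ode) (h3 : T_pos) : T_sing := by
  obtain ⟨p, r, hr, hr1, hpa, hp⟩ := exists_prim h3
  have hW := Wf_pos h3
  set W := Wf (1 / 2) with hWdef
  have hK0 : 0 < KK 0 := h3.1 0 (by norm_num)
  let R : ℝ → ℝ := fun t => KK (1 - t) / KK t + W / 2 * (1 / KK 0 ^ 2 * Real.log t + p t)
  have hR : ∀ t ∈ Ioo (0 : ℝ) r, HasDerivAt R 0 t := by
    intro t ht
    have ht0 : 0 < t := ht.1
    have ht1 : t < 1 := lt_of_lt_of_le ht.2 hr1
    have h1 := quot_deriv h2 h3 t ht0 ht1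
    have hl := (Real.hasDerivAt_log ht0.ne').const_mul (1 / KK 0 ^ 2)
    have h4 := (hl.add (hp t ht0 ht.2)).const_mul (W / 2)
    refine (h1.add h4).congr_deriv ?_
    have hKt : KK t ≠ 0 := (h3.1 t ht1).ne'
    have h1t : (1 - t) ≠ 0 := by linarith
    rw [← hWdef]
    field_simp
    ring
  have hconst : ∀ t ∈ Ioo (0 : ℝ) r, R t = R (r / 2) := by
    intro t ht
    refine isOpen_Ioo.is_const_of_deriv_eq_zero (s := Ioo (0 : ℝ) r) isPreconnected_Ioo
      ?_ ?_ ht ⟨by linarith, by linarith⟩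
    · intro s hs
      exact (hR s hs).differentiableAt.differentiableWithinAt
    · intro s hs
      exact (hR s hs).deriv
  refine ⟨-(W / 2 * (1 / KK 0 ^ 2)), fun t => R (r / 2) - W / 2 * p t, ?_, ?_, ?_⟩
  · have : 0 < W / 2 * (1 / KK 0 ^ 2) := by positivity
    intro h0
    linarith
  · exact analyticAt_const.sub (analyticAt_const.mul hpa)
  · have : ∀ᶠ t in 𝓝[>] (0 : ℝ), t ∈ Ioo (0 : ℝ) r := Ioo_mem_nhdsGT hr
    filter_upwards [this] with t ht
    have ht1 : t < 1 := lt_of_lt_of_le ht.2 hr1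
    have hKt : KK t ≠ 0 := (h3.1 t ht1).ne'
    have h := hconst t ht
    rw [← h]
    show KK (1 - t) = KK t * (-(W / 2 * (1 / KK 0 ^ 2)) * Real.log t +
      (KK (1 - t) / KK t + W / 2 * (1 / KK 0 ^ 2 * Real.log t + p t) - W / 2 * p t))
    field_simp
    ring

/-- Legendre's relation -/
theorem leg : T_leg := leg_of ode pos

/-- the logarithmic singularity -/
theorem sing : T_sing := sing_of an ode pos

end Pool.Agent.TH818.AR
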