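import Pool.Agent.TH818.AR.Count
import Pool.Agent.TH818.AR.Ord
import Pool.Agent.TH818.AR.Taylor
import Pool.Agent.TH818.AR.Zero
import Pool.Agent.TH818.AR.Low
import Pool.Agent.TH818.AR.Det
import Pool.Agent.TH818.AR.Arith
import Pool.Agent.TH818.AR.AuxVec

/-!
# The main theorem on exact relations at rational points, without hypotheses
-/

set_option autoImplicit false

open Set Polynomial Filter Topology

namespace Pool.Agent.TH818.AR

/-- Real-analytic functions `v_l` on `[a,b]` without relation `∑ p_l(t) v_l(t) = 0`, `p_l ∈ ℚ[t]`: for all `A` and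
`β > 2m/(m+1)` at most `C T^β` rationals `q` of `[a,b]` with denominator `≤ T` satisfy a relation `∑ c_l v_l(q) = 0`
with integers `c_l` of absolute value at most `T^A`. -/
theorem thmG {m : ℕ} (v : Fin m → ℝ → ℝ) (a b : ℝ) (hab : a < b)
    (han : ∀ l, AnalyticOnNhd ℝ (v l) (Icc a b)) (hv : PolyIndep v a b) (A β : ℝ)
    (hβ : 2 * (m : ℝ) / (m + 1) < β) :
    ∃ C : ℝ, 0 < C ∧ ∀ T : ℝ, 1 ≤ T → (Exc v a b A T).Finite ∧ ((Exc v a b A T).ncard : ℝ) ≤ C * T ^ β :=
  theoremG (low_of ord bd) AR.taylor det_le arith aux (zero_of ord bd) v a b hab han hv A β hβ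

end Pool.Agent.TH818.AR
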