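import Pool.Agent.TH818.AR.Stage

/-!
# Relations at rational points: elimination and counting
-/

set_option autoImplicit false

open Set Polynomial Filter Topology

namespace Pool.Agent.TH818.AR

theorem claim (hlow : T_low) (htay : T_taylor) (hdet : T_det) (harith : T_arith) (haux : T_aux)
    (hzero : T_zero)
    {m : ℕ} (v : Fin m → ℝ → ℝ) (a b : ℝ) (hab : a < b)
    (han : ∀ l, AnalyticOnNhd ℝ (v l) (Icc a b)) (hv : PolyIndep v a b) (A β : ℝ) (r : ℕ)
    (hβ : 2 * (r : ℝ) / (r + 1) < β) : ∀ (D : ℕ),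
    ∃ (Bd : ℕ) (T0 : ℝ), 1 ≤ T0 ∧ ∀ P : Fin r → Fin m → ℚ[X], (∀ l i, (P l i).natDegree ≤ D) → PInd P →
      ∀ T u u' : ℝ, T0 ≤ T → a ≤ u → u < u' → u' ≤ b → u' - u ≤ T ^ (-β) →
      ∀ Z : Finset ℚ, (∀ q ∈ Z, (q : ℝ) ∈ Icc u u' ∧ (q.den : ℝ) ≤ T ∧
        ∃ c : Fin r → ℤ, c ≠ 0 ∧ (∀ l, |(c l : ℝ)| ≤ T ^ A) ∧ ∑ l, (c l : ℝ) * ff v P l q = 0) → Z.card ≤ Bd := by
  classical
  induction r with
  | zero =>
    intro D
    refine ⟨0, 1, le_rfl, ?_⟩
    intro P _ _ T u u' _ _ _ _ _ Z hZ
    rw [Nat.le_zero, Finset.card_eq_zero, Finset.eq_empty_iff_forall_notMem]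
    intro q hq
    obtain ⟨-, -, c, hc, -⟩ := hZ q hq
    exact hc (Subsingleton.elim _ _)
  | succ r ih =>
    intro D
    have hβ' : 2 * (r : ℝ) / (r + 1) < β := by
      refine lt_of_le_of_lt ?_ hβ
      push_cast
      rw [div_le_div_iff₀ (by positivity) (by positivity)]
      nlinarith [Nat.cast_nonneg (α := ℝ) r]
    obtain ⟨k, T1, hT1, hst⟩ := stage hlow htay hdet harith haux (Nat.succ_pos r) v a b hab han hv A β hβ D
    obtain ⟨n, w, hw, hb⟩ := basis v a b hab han D
    obtain ⟨M, hM⟩ := hzero a b n w hw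
    obtain ⟨Bd, T2, hT2, hih⟩ := ih hβ' (k + D)
    refine ⟨M + Bd, max T1 T2, le_max_of_le_left hT1, ?_⟩
    intro P hPD hP T u u' hT hau huu hub hlen Z hZ
    have hIcc : Icc u u' ⊆ Icc a b := Icc_subset_Icc hau hub
    obtain ⟨p, hp0, hpk, hp⟩ := hst P hPD hP T u u' ((le_max_left _ _).trans hT) hau huu hub hlen
    obtain ⟨l0, hl0⟩ : ∃ l0, p l0 ≠ 0 := by
      by_contra h
      push Not at h
      exact hp0 (funext h)
    -- the zeros of `f_{l0}`
    have hcard1 : (Z.filter fun q : ℚ => ff v P l0 q = 0).card ≤ M := by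
      obtain ⟨x, hx⟩ := hb (P l0) (hPD l0)
      have hx0 : x ≠ 0 := by
        intro h0
        refine hP.ne_zero l0 (hv (P l0) fun t ht => ?_)
        rw [hx t ht, h0]
        simp [comb]
      have := hM x hx0 ((Z.filter fun q : ℚ => ff v P l0 q = 0).image (fun q : ℚ => (q : ℝ))) (by
        intro z hz
        rw [Finset.mem_image] at hz
        obtain ⟨q, hq, rfl⟩ := hz
        rw [Finset.mem_filter] at hq
        have h1 := hIcc (hZ q hq.1).1
        exact ⟨h1, by rw [← hx _ h1]; exact hq.2⟩)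
      rwa [Finset.card_image_of_injective _ Rat.cast_injective] at this
    -- the others
    let P' : Fin r → Fin m → ℚ[X] := fun i j => p l0 * P (l0.succAbove i) j - p (l0.succAbove i) * P l0 j
    have hP'D : ∀ l i, (P' l i).natDegree ≤ k + D := by
      intro l i
      refine (natDegree_sub_le _ _).trans (max_le ?_ ?_)
      · exact natDegree_mul_le.trans (add_le_add (hpk _) (hPD _ _))
      · exact natDegree_mul_le.trans (add_le_add (hpk _) (hPD _ _))
    have hP' : PInd P' := by
      intro s hs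
      have h1 := hP (l0.insertNth (-∑ i, s i * p (l0.succAbove i)) (fun i => s i * p l0)) (by
        intro j
        rw [Fin.sum_univ_succAbove _ l0]
        simp only [Fin.insertNth_apply_same, Fin.insertNth_apply_succAbove]
        rw [← hs j, neg_mul, Finset.sum_mul, ← Finset.sum_neg_distrib, ← Finset.sum_add_distrib]
        refine Finset.sum_congr rfl fun i _ => ?_
        simp only [P']
        ring)
      funext i
      have h2 := congrFun h1 (l0.succAbove i)
      simp only [Fin.insertNth_apply_succAbove, Pi.zero_apply, mul_eq_zero] at h2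
      exact h2.resolve_right hl0
    have hcard2 : (Z.filter fun q : ℚ => ¬ ff v P l0 q = 0).card ≤ Bd := by
      refine hih P' hP'D hP' T u u' ((le_max_right _ _).trans hT) hau huu hub hlen _ ?_
      intro q hq
      rw [Finset.mem_filter] at hq
      obtain ⟨hqZ, hqf⟩ := hq
      obtain ⟨hqI, hqd, c, hc0, hc, hcs⟩ := hZ q hqZ
      have hrel := hp q hqI hqd c hc hcs
      refine ⟨hqI, hqd, fun i => c (l0.succAbove i), ?_, fun l => hc _, ?_⟩
      · intro h0
        have h0' : ∀ i, c (l0.succAbove i) = 0 := fun i => congrFun h0 i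
        rw [Fin.sum_univ_succAbove _ l0] at hcs
        simp only [h0', Int.cast_zero, zero_mul, Finset.sum_const_zero, add_zero, mul_eq_zero] at hcs
        have h1 := hcs.resolve_right hqf
        apply hc0
        funext l
        rcases eq_or_ne l l0 with rfl | hl
        · exact_mod_cast h1
        · obtain ⟨i, rfl⟩ := Fin.exists_succAbove_eq hl
          exact h0' i
      · have hff : ∀ i, ff v P' i q = aeval (q : ℝ) (p l0) * ff v P (l0.succAbove i) q -
            aeval (q : ℝ) (p (l0.succAbove i)) * ff v P l0 q := by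
          intro i
          simp only [ff, P', map_sub, map_mul, Finset.mul_sum, ← Finset.sum_sub_distrib]
          exact Finset.sum_congr rfl fun j _ => by ring
        have hrel' : ∑ l, aeval (q : ℝ) (p l) * (c l : ℝ) = 0 := by
          have : ∀ l, aeval (q : ℝ) (p l) = (((p l).eval q : ℚ) : ℝ) := by
            intro l
            have := aeval_algebraMap_apply ℝ q (p l)
            simpa using this
          simp only [this]
          exact_mod_cast hrel
        simp only [hff]
        rw [Fin.sum_univ_succAbove _ l0] at hcs hrel'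
        have h1 : ∑ i, (c (l0.succAbove i) : ℝ) * ff v P (l0.succAbove i) q = -((c l0 : ℝ) * ff v P l0 q) := by
          linarith
        have h2 : ∑ i, aeval (q : ℝ) (p (l0.succAbove i)) * (c (l0.succAbove i) : ℝ) =
            -(aeval (q : ℝ) (p l0) * (c l0 : ℝ)) := by
          linarith
        calc ∑ i, (c (l0.succAbove i) : ℝ) * (aeval (q : ℝ) (p l0) * ff v P (l0.succAbove i) q -
              aeval (q : ℝ) (p (l0.succAbove i)) * ff v P l0 q)
            = aeval (q : ℝ) (p l0) * (∑ i, (c (l0.succAbove i) : ℝ) * ff v P (l0.succAbove i) q) -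
              (∑ i, aeval (q : ℝ) (p (l0.succAbove i)) * (c (l0.succAbove i) : ℝ)) * ff v P l0 q := by
              rw [Finset.mul_sum, Finset.sum_mul, ← Finset.sum_sub_distrib]
              exact Finset.sum_congr rfl fun j _ => by ring
          _ = 0 := by rw [h1, h2]; ring
    rw [← Finset.card_filter_add_card_filter_not (s := Z) (p := fun q : ℚ => ff v P l0 q = 0)]
    exact add_le_add hcard1 hcard2

/-- rationals of bounded denominator in a bounded interval -/
theorem finite_rat (a b T : ℝ) : {q : ℚ | (q : ℝ) ∈ Icc a b ∧ (q.den : ℝ) ≤ T}.Finite := by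
  obtain ⟨M, hM⟩ := exists_nat_ge (max |a| |b| * |T|)
  obtain ⟨L, hL⟩ := exists_nat_ge |T|
  refine Set.Finite.subset (Set.Finite.image (fun p : ℤ × ℕ => (p.1 : ℚ) / p.2)
    ((Set.finite_Icc (-(M : ℤ)) M).prod (Set.finite_Iic L))) ?_
  rintro q ⟨⟨h1, h2⟩, h3⟩
  refine ⟨(q.num, q.den), ⟨?_, ?_⟩, ?_⟩
  · have hd : (0 : ℝ) < q.den := by exact_mod_cast q.den_pos
    have hq : |(q : ℝ)| ≤ max |a| |b| := by
      rw [abs_le]
      constructor
      · have : -|a| ≤ a := neg_abs_le a
        have := le_max_left |a| |b|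
        linarith
      · have : b ≤ |b| := le_abs_self b
        have := le_max_right |a| |b|
        linarith
    have hnum : (q.num : ℝ) = q * q.den := by
      have := Rat.mul_den_eq_num q
      exact_mod_cast this.symm
    have h4 : |(q.num : ℝ)| ≤ M := by
      rw [hnum, abs_mul, abs_of_pos hd]
      refine le_trans ?_ hM
      exact mul_le_mul hq (h3.trans (le_abs_self T)) hd.le (le_max_of_le_left (abs_nonneg a))
    rw [abs_le] at h4
    constructor
    · have : ((-(M : ℤ) : ℤ) : ℝ) ≤ q.num := by push_cast; exact h4.1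
      exact_mod_cast this
    · exact_mod_cast h4.2
  · have : (q.den : ℝ) ≤ L := (h3.trans (le_abs_self T)).trans hL
    exact_mod_cast this
  · exact Rat.num_div_den q

/-- the exceptional set -/
def Exc {m : ℕ} (v : Fin m → ℝ → ℝ) (a b A T : ℝ) : Set ℚ :=
  {q : ℚ | (q : ℝ) ∈ Icc a b ∧ (q.den : ℝ) ≤ T ∧
    ∃ c : Fin m → ℤ, c ≠ 0 ∧ (∀ l, |(c l : ℝ)| ≤ T ^ A) ∧ ∑ l, (c l : ℝ) * v l q = 0}

theorem theoremG (hlow : T_low) (htay : T_taylor) (hdet : T_det) (harith : T_arith) (haux : T_aux)
    (hzero : T_zero)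
    {m : ℕ} (v : Fin m → ℝ → ℝ) (a b : ℝ) (hab : a < b)
    (han : ∀ l, AnalyticOnNhd ℝ (v l) (Icc a b)) (hv : PolyIndep v a b) (A β : ℝ)
    (hβ : 2 * (m : ℝ) / (m + 1) < β) :
    ∃ C : ℝ, 0 < C ∧ ∀ T : ℝ, 1 ≤ T → (Exc v a b A T).Finite ∧ ((Exc v a b A T).ncard : ℝ) ≤ C * T ^ β := by
  classical
  have hβ0 : 0 < β := lt_of_le_of_lt (by positivity) hβ
  obtain ⟨Bd, T0, hT0, hcl⟩ := claim hlow htay hdet harith haux hzero v a b hab han hv A β m hβ 0
  -- the identity matrix
  let P : Fin m → Fin m → ℚ[X] := fun l i => if i = l then 1 else 0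
  have hPD : ∀ l i, (P l i).natDegree ≤ 0 := by
    intro l i
    simp only [P]
    split_ifs <;> simp
  have hP : PInd P := by
    intro s hs
    funext l
    have := hs l
    simpa [P] using this
  have hff : ∀ l t, ff v P l t = v l t := by
    intro l t
    simp only [ff, P]
    rw [Finset.sum_eq_single l]
    · simp
    · intro i _ hi
      simp [hi]
    · simp
  have hfin : ∀ T, (Exc v a b A T).Finite := fun T => (finite_rat a b T).subset (fun q hq => ⟨hq.1, hq.2.1⟩)
  set B1 : ℝ := max (Bd : ℝ) 1 with hB1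
  set C0 : ℝ := ((finite_rat a b T0).toFinset.card : ℝ) with hC0
  refine ⟨B1 * (b - a + 1) + C0, by positivity [sub_pos.2 hab], ?_⟩
  intro T hT
  refine ⟨hfin T, ?_⟩
  have hTp : 0 < T := by linarith
  have hTβ : 1 ≤ T ^ β := Real.one_le_rpow hT hβ0.le
  have hbapos : 0 < b - a := by linarith
  rcases lt_or_ge T T0 with hlt | hge
  · have h1 : (Exc v a b A T).ncard ≤ (finite_rat a b T0).toFinset.card := by
      rw [← Set.ncard_eq_toFinset_card _ (finite_rat a b T0)]
      exact Set.ncard_le_ncard (fun q hq => ⟨hq.1, hq.2.1.trans hlt.le⟩) (finite_rat a b T0)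
    have h2 : ((Exc v a b A T).ncard : ℝ) ≤ C0 := by rw [hC0]; exact_mod_cast h1
    have h3 : 0 ≤ B1 * (b - a + 1) := by positivity
    have h4 : 0 ≤ C0 := by positivity
    nlinarith
  · rw [Set.ncard_eq_toFinset_card _ (hfin T)]
    set Z := (hfin T).toFinset with hZ
    have hZmem : ∀ q ∈ Z, q ∈ Exc v a b A T := fun q hq => (hfin T).mem_toFinset.1 hq
    let g : ℚ → ℕ := fun q => ⌊((q : ℝ) - a) * T ^ β⌋₊
    have hmaps : ∀ q ∈ Z, g q ∈ Finset.range (⌊(b - a) * T ^ β⌋₊ + 1) := by
      intro q hq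
      rw [Finset.mem_range, Nat.lt_succ_iff]
      apply Nat.floor_le_floor
      have := (hZmem q hq).1.2
      gcongr
    have hfib : ∀ j ∈ Finset.range (⌊(b - a) * T ^ β⌋₊ + 1), (Z.filter fun q => g q = j).card ≤ max Bd 1 := by
      intro j _
      rcases Nat.lt_or_ge 1 (Z.filter fun q => g q = j).card with h1 | h1
      swap
      · exact h1.trans (le_max_right _ _)
      refine le_trans ?_ (le_max_left _ _)
      set F := Z.filter fun q => g q = j with hF
      have hne : F.Nonempty := Finset.card_pos.1 (by omega)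
      have hmin := F.min'_mem hne
      have hmax := F.max'_mem hne
      have hlt : F.min' hne < F.max' hne := Finset.min'_lt_max'_of_card F h1
      have hFZ : ∀ q ∈ F, q ∈ Exc v a b A T := fun q hq => hZmem q (Finset.mem_filter.1 hq).1
      have hFg : ∀ q ∈ F, g q = j := fun q hq => (Finset.mem_filter.1 hq).2
      refine hcl P hPD hP T (F.min' hne) (F.max' hne) hge (hFZ _ hmin).1.1 (by exact_mod_cast hlt)
        (hFZ _ hmax).1.2 ?_ F ?_
      · have e1 := hFg _ hmin
        have e2 := hFg _ hmax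
        have f1 : (j : ℝ) ≤ ((F.min' hne : ℚ) - a) * T ^ β := by
          rw [← e1]
          exact Nat.floor_le (mul_nonneg (sub_nonneg.2 (hFZ _ hmin).1.1) (by positivity))
        have f2 : ((F.max' hne : ℚ) - a) * T ^ β < (j : ℝ) + 1 := by
          rw [← e2]
          exact Nat.lt_floor_add_one _
        have f3 : (((F.max' hne : ℚ) : ℝ) - ((F.min' hne : ℚ) : ℝ)) * T ^ β ≤ 1 := by nlinarith
        rw [Real.rpow_neg hTp.le, ← one_div, le_div_iff₀ (by positivity)]
        exact f3
      · intro q hq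
        obtain ⟨h2, h3, c, hc0, hc, hcs⟩ := hFZ q hq
        refine ⟨⟨by exact_mod_cast F.min'_le q hq, by exact_mod_cast F.le_max' q hq⟩, h3, c, hc0, hc, ?_⟩
        simpa only [hff] using hcs
    have hcard := Finset.card_le_mul_card_image_of_maps_to hmaps (max Bd 1) hfib
    rw [Finset.card_range] at hcard
    have h5 : (Z.card : ℝ) ≤ B1 * ((⌊(b - a) * T ^ β⌋₊ : ℝ) + 1) := by
      have : (Z.card : ℝ) ≤ ((max Bd 1 * (⌊(b - a) * T ^ β⌋₊ + 1) : ℕ) : ℝ) := by exact_mod_cast hcard
      push_cast at this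
      exact this
    have h6 : (⌊(b - a) * T ^ β⌋₊ : ℝ) ≤ (b - a) * T ^ β := Nat.floor_le (by positivity)
    have hB1p : 0 < B1 := lt_of_lt_of_le one_pos (le_max_right _ _)
    have h7 : B1 * ((⌊(b - a) * T ^ β⌋₊ : ℝ) + 1) ≤ B1 * ((b - a + 1) * T ^ β) := by
      refine mul_le_mul_of_nonneg_left ?_ hB1p.le
      nlinarith
    have h8 : 0 ≤ C0 * T ^ β := by positivity
    calc (Z.card : ℝ) ≤ B1 * ((b - a + 1) * T ^ β) := h5.trans h7
      _ ≤ (B1 * (b - a + 1) + C0) * T ^ β := by nlinarith

end Pool.Agent.TH818.AR
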