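import Mathlib

/-!
# Integer relations between analytic functions at rational points of small height: statements

Project AR. `[a,b]` is a real interval, the `w i` are analytic on it.
-/

set_option autoImplicit false

open Set Polynomial Filter Topology

namespace Pool.Agent.TH818.AR

/-- linear combination of functions -/
noncomputable def comb {n : ℕ} (w : Fin n → ℝ → ℝ) (x : Fin n → ℝ) (t : ℝ) : ℝ := ∑ i, x i * w i t

/-- the functions `w` are analytic at each point of `[a,b]` and linearly independent on `[a,b]` -/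
structure Good (a b : ℝ) {n : ℕ} (w : Fin n → ℝ → ℝ) : Prop where
  hab : a < b
  an : ∀ i, AnalyticOnNhd ℝ (w i) (Icc a b)
  li : ∀ x : Fin n → ℝ, (∀ t ∈ Icc a b, comb w x t = 0) → x = 0

/-! ## Finite dimensional spaces of analytic functions (`‖x‖` is the sup norm on `Fin n → ℝ`) -/

/-- uniform order of vanishing -/
def T_ord : Prop := ∀ (a b : ℝ) (n : ℕ) (w : Fin n → ℝ → ℝ), Good a b w →
  ∃ (N : ℕ) (δ : ℝ), 0 < δ ∧ ∀ (x : Fin n → ℝ) (t : ℝ), t ∈ Icc a b →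
    ∃ s, s ≤ N ∧ δ * ‖x‖ ≤ |iteratedDeriv s (comb w x) t|

/-- uniform bound for the derivatives -/
def T_bd : Prop := ∀ (a b : ℝ) (n : ℕ) (w : Fin n → ℝ → ℝ), Good a b w → ∀ S : ℕ,
  ∃ B : ℝ, 0 < B ∧ ∀ (x : Fin n → ℝ) (t : ℝ), t ∈ Icc a b → ∀ s, s ≤ S →
    |iteratedDeriv s (comb w x) t| ≤ B * ‖x‖

/-- uniform bound for the number of zeros -/
def T_zero : Prop := ∀ (a b : ℝ) (n : ℕ) (w : Fin n → ℝ → ℝ), Good a b w →
  ∃ M : ℕ, ∀ x : Fin n → ℝ, x ≠ 0 → ∀ Z : Finset ℝ, (∀ z ∈ Z, z ∈ Icc a b ∧ comb w x z = 0) → Z.card ≤ M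

/-- lower bound for the maximum on a short interval -/
def T_low : Prop := ∀ (a b : ℝ) (n : ℕ) (w : Fin n → ℝ → ℝ), Good a b w →
  ∃ (N : ℕ) (c : ℝ), 0 < c ∧ ∀ (x : Fin n → ℝ) (u u' : ℝ), a ≤ u → u < u' → u' ≤ b →
    ∃ t0 ∈ Icc u u', c * (u' - u) ^ N * ‖x‖ ≤ |comb w x t0|

/-- Taylor's formula with a uniform remainder (two-sided) -/
def T_taylor : Prop := ∀ (a b : ℝ) (n : ℕ) (w : Fin n → ℝ → ℝ), Good a b w → ∀ k : ℕ,
  ∃ B : ℝ, 0 < B ∧ ∀ (x : Fin n → ℝ) (s t : ℝ), s ∈ Icc a b → t ∈ Icc a b → ∀ i, i ≤ k →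
    |comb w x t - ∑ j ∈ Finset.range (i + 1), iteratedDeriv j (comb w x) s / (j.factorial : ℝ) * (t - s) ^ j|
      ≤ B * ‖x‖ * |t - s| ^ (i + 1)

/-! ## The determinant -/

/-- the exponent of the length of the interval -/
def ex (r k : ℕ) : ℕ := (r - 1) * (k * (k + 1) / 2) + (k + 1) ^ 2

/-- upper bound. `F x l` is the value of the `l`-th function at `t x` and `τ l j` its Taylor coefficients
at `t0`. Replace the columns `(i, l0)` of the matrix `((t x - t0)^i * c x l)` by the combinations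
`∑ l, ∑ j ≤ k - i, τ l j * (column (i + j, l))`, whose entries are at most `r * B * H * η^(k+1)`. -/
def T_det : Prop := ∀ (r k : ℕ) (l0 : Fin r) (t0 η H B : ℝ) (t : Fin (k + 1) × Fin r → ℝ)
  (c F : Fin (k + 1) × Fin r → Fin r → ℝ) (τ : Fin r → ℕ → ℝ),
  0 ≤ η → 0 ≤ H → 0 ≤ B → (∀ x, |t x - t0| ≤ η) → (∀ x l, |c x l| ≤ H) → (∀ x, ∑ l, c x l * F x l = 0) →
  (∀ x l i, i ≤ k → |F x l - ∑ j ∈ Finset.range (i + 1), τ l j * (t x - t0) ^ j| ≤ B * η ^ (i + 1)) →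
  |(Matrix.of fun x y : Fin (k + 1) × Fin r => t x ^ (y.1 : ℕ) * c x y.2).det| * |τ l0 0| ^ (k + 1) ≤
    (((k + 1) * r).factorial : ℝ) * H ^ ((k + 1) * r) * (r * B) ^ (k + 1) * η ^ ex r k

/-- lower bound -/
def T_arith : Prop := ∀ (r k : ℕ) (q : Fin (k + 1) × Fin r → ℚ) (c : Fin (k + 1) × Fin r → Fin r → ℤ) (T : ℝ),
  1 ≤ T → (∀ x, ((q x).den : ℝ) ≤ T) →
  (Matrix.of fun x y : Fin (k + 1) × Fin r => ((q x : ℝ)) ^ (y.1 : ℕ) * (c x y.2 : ℝ)).det ≠ 0 →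
  1 ≤ |(Matrix.of fun x y : Fin (k + 1) × Fin r => ((q x : ℝ)) ^ (y.1 : ℕ) * (c x y.2 : ℝ)).det| *
    T ^ (k * ((k + 1) * r))

/-- if all determinants vanish there is a polynomial vector orthogonal to all the relations -/
def T_aux : Prop := ∀ (r k : ℕ) (S : Set (ℚ × (Fin r → ℤ))),
  0 < r →
  (∀ e : Fin (k + 1) × Fin r → ℚ × (Fin r → ℤ), (∀ x, e x ∈ S) →
    (Matrix.of fun x y : Fin (k + 1) × Fin r => (e x).1 ^ (y.1 : ℕ) * ((e x).2 y.2 : ℚ)).det = 0) →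
  ∃ p : Fin r → ℚ[X], p ≠ 0 ∧ (∀ l, (p l).natDegree ≤ k) ∧ ∀ s ∈ S, ∑ l, (p l).eval s.1 * (s.2 l : ℚ) = 0

/-! ## Complete elliptic integrals -/

/-- complete elliptic integral of the first kind (parameter `t = k²`) -/
noncomputable def KK (t : ℝ) : ℝ := ∫ θ in (0 : ℝ)..(Real.pi / 2), 1 / √(1 - t * Real.sin θ ^ 2)

/-- complete elliptic integral of the second kind -/
noncomputable def EE (t : ℝ) : ℝ := ∫ θ in (0 : ℝ)..(Real.pi / 2), √(1 - t * Real.sin θ ^ 2)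

def T_an : Prop := AnalyticOnNhd ℝ KK (Iio 1) ∧ AnalyticOnNhd ℝ EE (Iio 1)

def T_ode : Prop := ∀ t : ℝ, t < 1 → t ≠ 0 →
  HasDerivAt KK ((EE t - (1 - t) * KK t) / (2 * t * (1 - t))) t ∧ HasDerivAt EE ((EE t - KK t) / (2 * t)) t

def T_pos : Prop := (∀ t : ℝ, t < 1 → 0 < KK t) ∧ (∀ t : ℝ, t < 1 → 0 < EE t) ∧ KK (1 / 2) < 2 * EE (1 / 2)

/-- Legendre's relation (up to the value of the constant) -/
def T_leg : Prop := ∃ W : ℝ, 0 < W ∧ ∀ t : ℝ, 0 < t → t < 1 →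
  KK t * EE (1 - t) + EE t * KK (1 - t) - KK t * KK (1 - t) = W

/-- the logarithmic singularity -/
def T_sing : Prop := ∃ (κ : ℝ) (G : ℝ → ℝ), κ ≠ 0 ∧ AnalyticAt ℝ G 0 ∧
  ∀ᶠ t in 𝓝[>] (0 : ℝ), KK (1 - t) = KK t * (κ * Real.log t + G t)

/-- the logarithm is transcendental over germs of analytic functions -/
def T_tr : Prop := ∀ (n : ℕ) (g : ℕ → ℝ → ℝ) (κ : ℝ) (G : ℝ → ℝ), κ ≠ 0 → AnalyticAt ℝ G 0 →
  (∀ i, AnalyticAt ℝ (g i) 0) →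
  (∀ᶠ t in 𝓝[>] (0 : ℝ), ∑ i ∈ Finset.range (n + 1), g i t * (κ * Real.log t + G t) ^ i = 0) →
  ∀ i ≤ n, ∀ᶠ t in 𝓝 (0 : ℝ), g i t = 0

/-- `t`, `K(t)`, `E(t)` are algebraically independent -/
def T_ind2 : Prop := ∀ (n : ℕ) (q : ℕ → ℕ → ℝ[X]),
  (∀ t : ℝ, 0 < t → t < 1 → ∑ d ∈ Finset.range (n + 1), ∑ i ∈ Finset.range (d + 1),
    (q d i).eval t * KK t ^ i * EE t ^ (d - i) = 0) →
  ∀ d ≤ n, ∀ i ≤ d, q d i = 0

/-- `t`, `K(t)`, `E(t)`, `K(1-t)` are algebraically independent -/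
def T_ind3 : Prop := ∀ (m n : ℕ) (p : ℕ → ℕ → ℕ → ℝ[X]),
  (∀ t : ℝ, 0 < t → t < 1 → ∑ j ∈ Finset.range (m + 1), ∑ d ∈ Finset.range (n + 1), ∑ i ∈ Finset.range (d + 1),
    (p j d i).eval t * KK t ^ i * EE t ^ (d - i) * KK (1 - t) ^ j = 0) →
  ∀ j ≤ m, ∀ d ≤ n, ∀ i ≤ d, p j d i = 0

end Pool.Agent.TH818.AR
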