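import Pool.Agent.TH818.AR.Defs

/-!
# Relations at rational points: the main theorem (from the statements of the tasks)
-/

set_option autoImplicit false

open Set Polynomial Filter Topology

namespace Pool.Agent.TH818.AR

/-- `f_l(t) = ∑ i, P l i (t) * v i t` -/
noncomputable def ff {m r : ℕ} (v : Fin m → ℝ → ℝ) (P : Fin r → Fin m → ℚ[X]) (l : Fin r) (t : ℝ) : ℝ :=
  ∑ i, aeval t (P l i) * v i t

/-- no relation with polynomial coefficients on `[a,b]` -/
def PolyIndep {m : ℕ} (v : Fin m → ℝ → ℝ) (a b : ℝ) : Prop :=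
  ∀ p : Fin m → ℚ[X], (∀ t ∈ Icc a b, ∑ l, (aeval t (p l)) * v l t = 0) → p = 0

/-- the rows are linearly independent over `ℚ[X]` -/
def PInd {m r : ℕ} (P : Fin r → Fin m → ℚ[X]) : Prop :=
  ∀ s : Fin r → ℚ[X], (∀ i, ∑ l, s l * P l i = 0) → s = 0

/-- a basis of the space spanned by the `t^j v_i`, `j ≤ D` -/
theorem basis {m : ℕ} (v : Fin m → ℝ → ℝ) (a b : ℝ) (hab : a < b)
    (han : ∀ l, AnalyticOnNhd ℝ (v l) (Icc a b)) (D : ℕ) :
    ∃ (n : ℕ) (w : Fin n → ℝ → ℝ), Good a b w ∧ ∀ p : Fin m → ℚ[X], (∀ i, (p i).natDegree ≤ D) →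
      ∃ x : Fin n → ℝ, ∀ t ∈ Icc a b, ∑ i, (aeval t (p i)) * v i t = comb w x t := by
  classical
  let g0 : Fin (D + 1) × Fin m → ℝ → ℝ := fun y t => t ^ (y.1 : ℕ) * v y.2 t
  let g : Fin (D + 1) × Fin m → (Icc a b → ℝ) := fun y t => g0 y t
  obtain ⟨κ, e, he, hspan, hli⟩ := exists_linearIndependent' ℝ g
  haveI : Finite κ := Finite.of_injective e he
  obtain ⟨n, ⟨eqv⟩⟩ := Finite.exists_equiv_fin κ
  refine ⟨n, fun k => g0 (e (eqv.symm k)), ⟨hab, ?_, ?_⟩, ?_⟩
  · intro i t ht
    have h1 : AnalyticAt ℝ (fun t : ℝ => t ^ ((e (eqv.symm i)).1 : ℕ)) t := analyticAt_id.pow _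
    exact h1.mul (han _ t ht)
  · intro x hx
    have hli2 : LinearIndependent ℝ ((g ∘ e) ∘ eqv.symm) := hli.comp _ eqv.symm.injective
    have := Fintype.linearIndependent_iff.1 hli2 x (by
      funext t
      have := hx t.1 t.2
      simpa [comb, g, Finset.sum_apply] using this)
    funext i
    exact this i
  · intro p hp
    have hmem : (fun t : Icc a b => ∑ i, (aeval t.1 (p i)) * v i t.1) ∈ Submodule.span ℝ (range (g ∘ e)) := by
      rw [hspan]
      have : (fun t : Icc a b => ∑ i, (aeval t.1 (p i)) * v i t.1) =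
          ∑ y : Fin (D + 1) × Fin m, (((p y.2).coeff y.1 : ℚ) : ℝ) • g y := by
        funext t
        rw [Finset.sum_apply]
        simp only [Pi.smul_apply, smul_eq_mul]
        rw [Fintype.sum_prod_type_right]
        refine Finset.sum_congr rfl fun i _ => ?_
        rw [aeval_eq_sum_range' (Nat.lt_succ_of_le (hp i)), Finset.sum_mul, ← Fin.sum_univ_eq_sum_range
          (fun j => ((p i).coeff j • t.1 ^ j) * v i t.1)]
        refine Finset.sum_congr rfl fun j _ => ?_
        simp only [g, g0, Rat.smul_def]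
        ring
      rw [this]
      exact Submodule.sum_mem _ fun y _ => Submodule.smul_mem _ _ (Submodule.subset_span ⟨y, rfl⟩)
    have hmem2 : (fun t : Icc a b => ∑ i, (aeval t.1 (p i)) * v i t.1) ∈
        Submodule.span ℝ (range ((g ∘ e) ∘ eqv.symm)) := by
      rwa [Set.range_comp (g ∘ e) eqv.symm, eqv.symm.range_eq_univ, Set.image_univ]
    obtain ⟨x, hx⟩ := (Submodule.mem_span_range_iff_exists_fun ℝ).1 hmem2
    refine ⟨x, fun t ht => ?_⟩
    have := congrFun hx ⟨t, ht⟩
    simp only [Finset.sum_apply, Pi.smul_apply, smul_eq_mul, Function.comp, g] at this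
    rw [← this]
    rfl

end Pool.Agent.TH818.AR
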