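import Pool.Agent.TH818.AR.SpecDefs

/-!
# Relations at rational points are specialisations of relations between functions (job 4044, helper889)
-/

set_option autoImplicit false

open Set Polynomial Filter Topology

namespace Pool.Agent.TH818.AR

namespace SpecAux

theorem aeval_cast (p : ℚ[X]) (q : ℚ) : aeval (q : ℝ) p = ((p.eval q : ℚ) : ℝ) := by
  have := Polynomial.aeval_algebraMap_apply_eq_algebraMap_eval (A := ℝ) q p
  simpa using this

/-- denominators of the values of a polynomial -/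
theorem den1 (G : ℚ[X]) : ∃ N e : ℕ, 0 < N ∧ ∀ q : ℚ, ∃ z : ℤ,
    (z : ℚ) = N * (q.den : ℚ) ^ e * G.eval q := by
  induction G using Polynomial.induction_on' with
  | add p q hp hq =>
    obtain ⟨N1, e1, h1, k1⟩ := hp
    obtain ⟨N2, e2, h2, k2⟩ := hq
    refine ⟨N1 * N2, e1 + e2, Nat.mul_pos h1 h2, fun x => ?_⟩
    obtain ⟨z1, hz1⟩ := k1 x
    obtain ⟨z2, hz2⟩ := k2 x
    refine ⟨z1 * (N2 * (x.den : ℤ) ^ e2) + z2 * (N1 * (x.den : ℤ) ^ e1), ?_⟩
    push_cast
    rw [hz1, hz2, eval_add, pow_add]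
    ring
  | monomial n a =>
    refine ⟨a.den, n, a.den_pos, fun x => ⟨a.num * x.num ^ n, ?_⟩⟩
    push_cast
    rw [eval_monomial, ← Rat.mul_den_eq_num a, ← Rat.mul_den_eq_num x, mul_pow]
    ring

theorem denF {ι : Type} (S : Finset ι) (G : ι → ℚ[X]) : ∃ N e : ℕ, 0 < N ∧ ∀ x ∈ S, ∀ q : ℚ,
    ∃ z : ℤ, (z : ℚ) = N * (q.den : ℚ) ^ e * (G x).eval q := by
  classical
  induction S using Finset.induction_on with
  | empty => exact ⟨1, 0, one_pos, fun x hx => absurd hx (Finset.notMem_empty x)⟩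
  | insert y S hy ih =>
    obtain ⟨N1, e1, h1, k1⟩ := ih
    obtain ⟨N2, e2, h2, k2⟩ := den1 (G y)
    refine ⟨N1 * N2, e1 + e2, Nat.mul_pos h1 h2, fun x hx q => ?_⟩
    rcases Finset.mem_insert.1 hx with rfl | hx
    · obtain ⟨z2, hz2⟩ := k2 q
      refine ⟨z2 * (N1 * (q.den : ℤ) ^ e1), ?_⟩
      push_cast
      rw [hz2, pow_add]; ring
    · obtain ⟨z1, hz1⟩ := k1 x hx q
      refine ⟨z1 * (N2 * (q.den : ℤ) ^ e2), ?_⟩
      push_cast
      rw [hz1, pow_add]; ring

theorem bound1 (G : ℚ[X]) (a b : ℝ) : ∃ K : ℝ, ∀ q : ℚ, (q : ℝ) ∈ Icc a b →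
    |((G.eval q : ℚ) : ℝ)| ≤ K := by
  obtain ⟨K, hK⟩ := isCompact_Icc.exists_bound_of_continuousOn (s := Icc a b)
    (f := fun t : ℝ => aeval t G) (Polynomial.continuous_aeval G).continuousOn
  refine ⟨K, fun q hq => ?_⟩
  have := hK q hq
  rw [Real.norm_eq_abs, aeval_cast] at this
  exact this

theorem fam {ι : Type} [Fintype ι] (G : ι → ℚ[X]) (a b : ℝ) : ∃ (N e : ℕ) (K : ℝ), 0 < N ∧ 0 ≤ K ∧
    ∀ x, ∀ q : ℚ, (q : ℝ) ∈ Icc a b → ∃ z : ℤ, (z : ℚ) = N * (q.den : ℚ) ^ e * (G x).eval q ∧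
      |(((G x).eval q : ℚ) : ℝ)| ≤ K := by
  obtain ⟨N, e, hN, h⟩ := denF Finset.univ G
  choose K hK using fun x => bound1 (G x) a b
  refine ⟨N, e, ∑ x, |K x|, hN, Finset.sum_nonneg fun _ _ => abs_nonneg _, fun x q hq => ?_⟩
  obtain ⟨z, hz⟩ := h x (Finset.mem_univ x) q
  exact ⟨z, hz, (hK x q hq).trans ((le_abs_self _).trans
    (Finset.single_le_sum (f := fun x => |K x|) (fun _ _ => abs_nonneg _) (Finset.mem_univ x)))⟩

/-- `p` is a relation between the functions -/
def Rl {m : ℕ} (v : Fin m → ℝ → ℝ) (a b : ℝ) (p : Fin m → ℚ[X]) : Prop :=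
  ∀ t ∈ Icc a b, ∑ l, aeval t (p l) * v l t = 0

theorem Rl.smul {m : ℕ} {v : Fin m → ℝ → ℝ} {a b : ℝ} {p : Fin m → ℚ[X]} (h : Rl v a b p)
    (c : ℚ[X]) : Rl v a b (fun l => c * p l) := by
  intro t ht
  have := h t ht
  simp only [map_mul, mul_assoc]
  rw [← Finset.mul_sum, this, mul_zero]

theorem Rl.sum {m : ℕ} {v : Fin m → ℝ → ℝ} {a b : ℝ} {ι : Type} (S : Finset ι)
    {p : ι → Fin m → ℚ[X]} (h : ∀ j ∈ S, Rl v a b (p j)) : Rl v a b (fun l => ∑ j ∈ S, p j l) := by
  intro t ht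
  simp only [map_sum, Finset.sum_mul]
  rw [Finset.sum_comm]
  exact Finset.sum_eq_zero fun j hj => h j hj t ht

def Ind {m : ℕ} (v : Fin m → ℝ → ℝ) (a b : ℝ) (s : Finset (Fin m)) : Prop :=
  ∀ p : Fin m → ℚ[X], (∀ l, l ∉ s → p l = 0) → Rl v a b p → p = 0

theorem exists_max {m : ℕ} (v : Fin m → ℝ → ℝ) (a b : ℝ) :
    ∃ s : Finset (Fin m), Ind v a b s ∧ ∀ j, j ∉ s → ∃ r : Fin m → ℚ[X],
      (∀ l, l ∉ insert j s → r l = 0) ∧ Rl v a b r ∧ r j ≠ 0 := by
  classical
  have hne : (Finset.univ.filter (fun s : Finset (Fin m) => Ind v a b s)).Nonempty := by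
    refine ⟨∅, Finset.mem_filter.2 ⟨Finset.mem_univ _, ?_⟩⟩
    intro p hp _
    funext l
    exact hp l (Finset.notMem_empty l)
  obtain ⟨s, hs, hmax⟩ := Finset.exists_max_image _ Finset.card hne
  have hs' := (Finset.mem_filter.1 hs).2
  refine ⟨s, hs', fun j hj => ?_⟩
  have hnot : ¬ Ind v a b (insert j s) := by
    intro h
    have := hmax (insert j s) (Finset.mem_filter.2 ⟨Finset.mem_univ _, h⟩)
    rw [Finset.card_insert_of_notMem hj] at this
    omega
  unfold Ind at hnot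
  push Not at hnot
  obtain ⟨r, hr1, hr2, hr3⟩ := hnot
  refine ⟨r, hr1, hr2, fun h0 => hr3 (hs' r ?_ hr2)⟩
  intro l hl
  by_cases hlj : l = j
  · rw [hlj]; exact h0
  · exact hr1 l (fun h => (Finset.mem_insert.1 h).elim hlj hl)

/-- the bad rationals, real-valued case -/
def Bad {m : ℕ} (v : Fin m → ℝ → ℝ) (a b A T : ℝ) : Set ℚ :=
  {q : ℚ | (q : ℝ) ∈ Icc a b ∧ (q.den : ℝ) ≤ T ∧ ∃ c : Fin m → ℤ, (∀ l, |(c l : ℝ)| ≤ T ^ A) ∧
      ∑ l, (c l : ℝ) * v l q = 0 ∧ ¬ ∃ p : Fin m → ℚ[X], Rl v a b p ∧ ∀ l, (p l).eval q = c l}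

theorem real_case (m : ℕ) (v : Fin m → ℝ → ℝ) (a b A β : ℝ) (hab : a < b)
    (han : ∀ l, AnalyticOnNhd ℝ (v l) (Icc a b)) (hβ : 2 * (m : ℝ) / (m + 1) < β) :
    ∃ C : ℝ, 0 < C ∧ ∀ T : ℝ, 1 ≤ T → ((Bad v a b A T).ncard : ℝ) ≤ C * T ^ β := by
  classical
  have hβ0 : 0 < β := lt_of_le_of_lt (by positivity) hβ
  obtain ⟨s, hs, hmax⟩ := exists_max v a b
  have hmax' : ∀ j, ∃ r : Fin m → ℚ[X], j ∉ s →
      (∀ l, l ∉ insert j s → r l = 0) ∧ Rl v a b r ∧ r j ≠ 0 := by
    intro j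
    by_cases hj : j ∈ s
    · exact ⟨0, fun h => absurd hj h⟩
    · obtain ⟨r, hr⟩ := hmax j hj
      exact ⟨r, fun _ => hr⟩
  choose r hr using hmax'
  obtain ⟨Q, hQ⟩ : ∃ Q, Q = ∏ j ∈ sᶜ, r j j := ⟨_, rfl⟩
  have hQ0 : Q ≠ 0 := by
    rw [hQ]
    exact Finset.prod_ne_zero_iff.2 fun j hj => (hr j (Finset.mem_compl.1 hj)).2.2
  obtain ⟨R, hR⟩ : ∃ R : Fin m → Fin m → ℚ[X],
      R = fun j l => (∏ j' ∈ sᶜ.erase j, r j' j') * r j l := ⟨_, rfl⟩
  have hRrel : ∀ j, j ∉ s → Rl v a b (R j) := by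
    intro j hj
    rw [hR]
    exact (hr j hj).2.1.smul _
  have hRQ : ∀ j, j ∉ s → R j j = Q := by
    intro j hj
    rw [hR, hQ]
    exact Finset.prod_erase_mul _ _ (Finset.mem_compl.2 hj)
  have hR0 : ∀ j l, j ∉ s → l ∉ s → l ≠ j → R j l = 0 := by
    intro j l hj hl hlj
    rw [hR]
    show _ * r j l = 0
    rw [(hr j hj).1 l (fun h => (Finset.mem_insert.1 h).elim hlj hl), mul_zero]
  -- the family of polynomials
  obtain ⟨N, e, K, hN, hK, hfam⟩ := fam (ι := Option (Fin m × Fin m))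
    (fun x => x.elim Q (fun y => R y.1 y.2)) a b
  -- the independent subfamily
  obtain ⟨k, hk⟩ : ∃ k, k = s.card := ⟨_, rfl⟩
  have hkm : k ≤ m := by
    rw [hk]; exact (Finset.card_le_univ s).trans_eq (Fintype.card_fin m)
  let E : Fin k ≃ s := (Fin.castOrderIso hk).toEquiv.trans s.equivFin.symm
  let w : Fin k → ℝ → ℝ := fun i => v (E i)
  have hkβ : 2 * (k : ℝ) / (k + 1) < β := by
    refine lt_of_le_of_lt ?_ hβ
    have : (k : ℝ) ≤ m := by exact_mod_cast hkm
    rw [div_le_div_iff₀ (by positivity) (by positivity)]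
    nlinarith
  have hw : PolyIndep w a b := by
    intro p hp
    let p' : Fin m → ℚ[X] := fun l => if h : l ∈ s then p (E.symm ⟨l, h⟩) else 0
    have hp's : ∀ i, p' (E i) = p i := by
      intro i
      have : (E i : Fin m) ∈ s := (E i).2
      simp only [p', this, dif_pos, Subtype.coe_eta, Equiv.symm_apply_apply]
    have h0 : p' = 0 := by
      apply hs
      · intro l hl
        simp only [p', hl, dif_neg, not_false_eq_true]
      · intro t ht
        have h1 : ∑ l, aeval t (p' l) * v l t = ∑ l ∈ s, aeval t (p' l) * v l t := by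
          symm
          apply Finset.sum_subset (Finset.subset_univ s)
          intro l _ hl
          simp only [p', hl, dif_neg, not_false_eq_true, map_zero, zero_mul]
        rw [h1, ← Finset.sum_coe_sort, ← Equiv.sum_comp E]
        have h2 := hp t ht
        rw [← h2]
        refine Finset.sum_congr rfl fun i _ => ?_
        rw [hp's]
    funext i
    rw [← hp's, h0]
    rfl
  obtain ⟨C1, hC1, hG⟩ := thmG w a b hab (fun i => han _) hw (A + e + 1) β hkβ
  obtain ⟨T0, hT0⟩ : ∃ T0 : ℝ, T0 = max 1 ((m + 1) * (N * K)) := ⟨_, rfl⟩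
  have hfin0 : ({q : ℚ | (q : ℝ) ∈ Icc a b ∧ (q.den : ℝ) ≤ T0} ∪ {q : ℚ | Q.eval q = 0}).Finite := by
    refine (finite_rat a b T0).union ?_
    refine (Q.roots.toFinset.finite_toSet).subset fun q hq => ?_
    rw [Finset.mem_coe, Multiset.mem_toFinset, mem_roots hQ0]
    exact hq
  set S0 := ({q : ℚ | (q : ℝ) ∈ Icc a b ∧ (q.den : ℝ) ≤ T0} ∪ {q : ℚ | Q.eval q = 0}) with hS0
  refine ⟨S0.ncard + C1, by positivity, fun T hT => ?_⟩
  have hTp : 0 < T := by linarith
  have hTβ : 1 ≤ T ^ β := Real.one_le_rpow hT hβ0.le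
  have hsub : Bad v a b A T ⊆ S0 ∪ Exc w a b (A + e + 1) T := by
    rintro q ⟨hq, hqT, c, hc, hcs, hnp⟩
    by_cases hqS : q ∈ S0
    · exact Or.inl hqS
    right
    have hQq : Q.eval q ≠ 0 := fun h => hqS (Or.inr h)
    have hTT0 : T0 ≤ T := by
      by_contra h
      push Not at h
      exact hqS (Or.inl ⟨hq, hqT.trans h.le⟩)
    -- the functional relation
    obtain ⟨p, hp⟩ : ∃ p : Fin m → ℚ[X],
        p = fun l => ∑ j ∈ sᶜ, C ((c j : ℚ) / Q.eval q) * R j l := ⟨_, rfl⟩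
    have hprel : Rl v a b p := by
      rw [hp]
      exact Rl.sum (p := fun j l => C ((c j : ℚ) / Q.eval q) * R j l) _
        fun j hj => (hRrel j (Finset.mem_compl.1 hj)).smul _
    have hpq : ∀ l, (p l).eval q = ∑ j ∈ sᶜ, (c j : ℚ) / Q.eval q * (R j l).eval q := by
      intro l
      rw [hp]
      simp only [eval_finsetSum, eval_mul, eval_C]
    have hpout : ∀ l, l ∉ s → (p l).eval q = c l := by
      intro l hl
      rw [hpq, Finset.sum_eq_single l]
      · rw [hRQ l hl]; field_simp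
      · intro j hj hjl
        rw [hR0 j l (Finset.mem_compl.1 hj) hl (Ne.symm hjl), eval_zero, mul_zero]
      · intro h
        exact absurd (Finset.mem_compl.2 hl) h
    -- the integers
    obtain ⟨z0, hz0, hb0⟩ := hfam none q hq
    have hz' : ∀ j i : Fin m, ∃ z : ℤ, (z : ℚ) = N * (q.den : ℚ) ^ e * (R j i).eval q ∧
      |(((R j i).eval q : ℚ) : ℝ)| ≤ K := fun j i => hfam (some (j, i)) q hq
    choose z hz hb using hz'
    have hz0' : (z0 : ℚ) = N * (q.den : ℚ) ^ e * Q.eval q := hz0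
    have hb0' : |((Q.eval q : ℚ) : ℝ)| ≤ K := hb0
    obtain ⟨c', hc'⟩ : ∃ c' : Fin m → ℤ, c' = fun i => z0 * c i - ∑ j ∈ sᶜ, c j * z j i := ⟨_, rfl⟩
    have hc'eq : ∀ i, (c' i : ℚ) = N * (q.den : ℚ) ^ e * Q.eval q * (c i - (p i).eval q) := by
      intro i
      rw [hc', hpq]
      push_cast
      rw [hz0', mul_sub, Finset.mul_sum]
      congr 1
      refine Finset.sum_congr rfl fun j _ => ?_
      rw [hz]
      field_simp
    have hD : (N : ℚ) * (q.den : ℚ) ^ e * Q.eval q ≠ 0 := by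
      have h1 : (N : ℚ) ≠ 0 := by exact_mod_cast hN.ne'
      have h2 : (q.den : ℚ) ≠ 0 := by exact_mod_cast q.den_pos.ne'
      exact mul_ne_zero (mul_ne_zero h1 (pow_ne_zero _ h2)) hQq
    -- the bound
    have hTe : (q.den : ℝ) ^ e ≤ T ^ e := pow_le_pow_left₀ (Nat.cast_nonneg _) hqT e
    have hzb : ∀ (x : ℤ) (y : ℚ), (x : ℚ) = N * (q.den : ℚ) ^ e * y → |(y : ℝ)| ≤ K →
        |(x : ℝ)| ≤ N * T ^ e * K := by
      intro x y hx hy
      have h1 : (x : ℝ) = N * (q.den : ℝ) ^ e * y := by exact_mod_cast hx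
      rw [h1, abs_mul, abs_mul, abs_pow, Nat.abs_cast, Nat.abs_cast]
      gcongr
    have hc'b : ∀ i, |(c' i : ℝ)| ≤ T ^ (A + e + 1) := by
      intro i
      have hTA : 0 ≤ T ^ A := by positivity
      have hB0 : 0 ≤ N * T ^ e * K := by positivity
      have h1 : |(c' i : ℝ)| ≤ (m + 1) * (T ^ A * (N * T ^ e * K)) := by
        rw [hc']
        push_cast
        have h2 : |(z0 : ℝ) * c i| ≤ T ^ A * (N * T ^ e * K) := by
          rw [abs_mul, mul_comm]
          exact mul_le_mul (hc i) (hzb z0 _ hz0' hb0') (abs_nonneg _) hTA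
        have h3 : |∑ j ∈ sᶜ, (c j : ℝ) * z j i| ≤ m * (T ^ A * (N * T ^ e * K)) := by
          refine (Finset.abs_sum_le_sum_abs _ _).trans ?_
          have h4 : ∀ j ∈ sᶜ, |(c j : ℝ) * z j i| ≤ T ^ A * (N * T ^ e * K) := by
            intro j _
            rw [abs_mul]
            exact mul_le_mul (hc j) (hzb _ _ (hz j i) (hb j i)) (abs_nonneg _) hTA
          refine (Finset.sum_le_card_nsmul _ _ _ h4).trans ?_
          rw [nsmul_eq_mul]
          refine mul_le_mul_of_nonneg_right ?_ (mul_nonneg hTA hB0)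
          have : sᶜ.card ≤ m := (Finset.card_le_univ _).trans_eq (Fintype.card_fin m)
          exact_mod_cast this
        have h5 := abs_sub (z0 * c i : ℝ) (∑ j ∈ sᶜ, (c j : ℝ) * z j i)
        linarith
      refine h1.trans ?_
      have h6 : (m + 1 : ℝ) * (N * K) ≤ T := (le_max_right _ _).trans (hT0 ▸ hTT0)
      have h7 : T ^ (A + e + 1) = T ^ A * T ^ e * T := by
        rw [Real.rpow_add hTp, Real.rpow_add hTp, Real.rpow_one, Real.rpow_natCast]
      rw [h7]
      have h8 : (0 : ℝ) ≤ T ^ A * T ^ e := by positivity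
      have h9 := mul_le_mul_of_nonneg_left h6 h8
      linarith
    refine ⟨hq, hqT, fun i => c' (E i), ?_, fun i => hc'b _, ?_⟩
    · intro h0
      apply hnp
      refine ⟨p, hprel, fun l => ?_⟩
      by_cases hl : l ∈ s
      · have h1 := congrFun h0 (E.symm ⟨l, hl⟩)
        simp only [Equiv.apply_symm_apply, Pi.zero_apply] at h1
        have h2 := hc'eq l
        rw [h1, Int.cast_zero] at h2
        have h3 := (mul_eq_zero.1 h2.symm).resolve_left hD
        linarith
      · exact hpout l hl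
    · show ∑ i : Fin k, (c' (E i) : ℝ) * w i q = 0
      have h1 : ∑ l, ((c l : ℝ) - (((p l).eval q : ℚ) : ℝ)) * v l q = 0 := by
        simp only [sub_mul, Finset.sum_sub_distrib]
        rw [hcs, zero_sub, neg_eq_zero]
        have := hprel q hq
        simpa only [aeval_cast] using this
      have h2 : ∑ l ∈ s, ((c l : ℝ) - (((p l).eval q : ℚ) : ℝ)) * v l q = 0 := by
        rw [← h1]
        apply Finset.sum_subset (Finset.subset_univ s)
        intro l _ hl
        have : (c l : ℝ) - (((p l).eval q : ℚ) : ℝ) = 0 := by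
          rw [hpout l hl]; simp
        rw [this, zero_mul]
      have h3 : ∑ i : Fin k, (c' (E i) : ℝ) * w i q = ∑ l ∈ s, (c' l : ℝ) * v l q := by
        rw [← Finset.sum_coe_sort s, ← Equiv.sum_comp E]
      rw [h3]
      have h4 : ∀ l, (c' l : ℝ) = ((N * (q.den : ℚ) ^ e * Q.eval q : ℚ) : ℝ) *
          ((c l : ℝ) - (((p l).eval q : ℚ) : ℝ)) := by
        intro l
        have := hc'eq l
        exact_mod_cast this
      simp only [h4, mul_assoc]
      rw [← Finset.mul_sum, h2, mul_zero]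
  have hfinE := hG T hT
  have h1 : (Bad v a b A T).ncard ≤ S0.ncard + (Exc w a b (A + e + 1) T).ncard :=
    (Set.ncard_le_ncard hsub (hfin0.union hfinE.1)).trans (Set.ncard_union_le _ _)
  have h2 : ((Bad v a b A T).ncard : ℝ) ≤ S0.ncard + (Exc w a b (A + e + 1) T).ncard := by
    exact_mod_cast h1
  have h3 : (S0.ncard : ℝ) ≤ S0.ncard * T ^ β := le_mul_of_one_le_right (Nat.cast_nonneg _) hTβ
  have h4 := hfinE.2
  nlinarith

end SpecAux

open SpecAux

theorem spec : T_spec := by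
  intro m v a b A β hab han hβ
  -- the real parameter
  obtain ⟨g, hg⟩ : ∃ g : ℚ × (Fin m → ℤ) → ℝ, g = fun y =>
    -((∑ l, (y.2 l : ℝ) * (v l y.1).re) / ∑ l, (y.2 l : ℝ) * (v l y.1).im) := ⟨_, rfl⟩
  obtain ⟨lam, hlam⟩ : ∃ lam : ℝ, lam ∉ Set.range g := by
    have h1 : (Set.range g).Countable := Set.countable_range g
    have h2 := h1.dense_compl ℝ
    obtain ⟨x, hx⟩ := h2.nonempty
    exact ⟨x, hx⟩
  have key : ∀ (q : ℚ) (c : Fin m → ℤ), ∑ l, (c l : ℝ) * ((v l q).re + lam * (v l q).im) = 0 →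
      ∑ l, (c l : ℂ) * v l q = 0 := by
    intro q c h
    have h1 : (∑ l, (c l : ℝ) * (v l q).re) + lam * ∑ l, (c l : ℝ) * (v l q).im = 0 := by
      rw [← h, Finset.mul_sum, ← Finset.sum_add_distrib]
      exact Finset.sum_congr rfl fun l _ => by ring
    have him : ∑ l, (c l : ℝ) * (v l q).im = 0 := by
      by_contra hne
      apply hlam
      refine ⟨(q, c), ?_⟩
      rw [hg]
      show -((∑ l, (c l : ℝ) * (v l q).re) / ∑ l, (c l : ℝ) * (v l q).im) = lam
      field_simp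
      linarith
    rw [him, mul_zero, add_zero] at h1
    apply Complex.ext
    · rw [Complex.re_sum, Complex.zero_re, ← h1]
      refine Finset.sum_congr rfl fun l _ => ?_
      simp
    · rw [Complex.im_sum, Complex.zero_im, ← him]
      refine Finset.sum_congr rfl fun l _ => ?_
      simp
  obtain ⟨w, hw⟩ : ∃ w : Fin m → ℝ → ℝ, w = fun l t => (v l t).re + lam * (v l t).im := ⟨_, rfl⟩
  have hwan : ∀ l, AnalyticOnNhd ℝ (w l) (Icc a b) := by
    intro l t ht
    have h1 : AnalyticAt ℝ (fun t => (v l t).re) t :=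
      (Complex.reCLM.analyticAt (v l t)).comp (han l t ht)
    have h2 : AnalyticAt ℝ (fun t => (v l t).im) t :=
      (Complex.imCLM.analyticAt (v l t)).comp (han l t ht)
    rw [hw]
    exact h1.add (analyticAt_const.mul h2)
  obtain ⟨C, hC, hCT⟩ := real_case m w a b A β hab hwan hβ
  refine ⟨C, hC, fun T hT => le_trans ?_ (hCT T hT)⟩
  have hfin : (Bad w a b A T).Finite :=
    (finite_rat a b T).subset fun q hq => ⟨hq.1, hq.2.1⟩
  have hsub : {q : ℚ | (q : ℝ) ∈ Icc a b ∧ (q.den : ℝ) ≤ T ∧ ∃ c : Fin m → ℤ,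
      (∀ l, |(c l : ℝ)| ≤ T ^ A) ∧ ∑ l, (c l : ℂ) * v l q = 0 ∧ ¬ Functional v a b q c} ⊆
      Bad w a b A T := by
    rintro q ⟨hq, hqT, c, hc, hcs, hnf⟩
    refine ⟨hq, hqT, c, hc, ?_, ?_⟩
    · have h1 := congrArg Complex.re hcs
      have h2 := congrArg Complex.im hcs
      rw [Complex.re_sum, Complex.zero_re] at h1
      rw [Complex.im_sum, Complex.zero_im] at h2
      have h3 : ∀ l, ((c l : ℂ) * v l q).re = (c l : ℝ) * (v l q).re := fun l => by simp
      have h4 : ∀ l, ((c l : ℂ) * v l q).im = (c l : ℝ) * (v l q).im := fun l => by simp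
      simp only [h3] at h1
      simp only [h4] at h2
      rw [hw]
      have : ∑ l, (c l : ℝ) * ((v l q).re + lam * (v l q).im) =
          (∑ l, (c l : ℝ) * (v l q).re) + lam * ∑ l, (c l : ℝ) * (v l q).im := by
        rw [Finset.mul_sum, ← Finset.sum_add_distrib]
        exact Finset.sum_congr rfl fun l _ => by ring
      show ∑ l, (c l : ℝ) * ((v l q).re + lam * (v l q).im) = 0
      rw [this, h1, h2, mul_zero, add_zero]
    · rintro ⟨p, hp, hpc⟩
      apply hnf
      refine ⟨p, ?_, hpc⟩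
      -- the relation at rational points
      have hrat : ∀ x : ℚ, (x : ℝ) ∈ Icc a b →
          ∑ l, ((aeval (x : ℝ) (p l) : ℝ) : ℂ) * v l x = 0 := by
        intro x hx
        obtain ⟨N, e, hN, h⟩ := denF Finset.univ p
        choose z hz using fun l => h l (Finset.mem_univ l) x
        have hD : (N : ℚ) * (x.den : ℚ) ^ e ≠ 0 := by
          have h1 : (N : ℚ) ≠ 0 := by exact_mod_cast hN.ne'
          have h2 : (x.den : ℚ) ≠ 0 := by exact_mod_cast x.den_pos.ne'
          exact mul_ne_zero h1 (pow_ne_zero _ h2)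
        have h1 : ∑ l, (z l : ℝ) * ((v l x).re + lam * (v l x).im) = 0 := by
          have h2 := hp x hx
          have h3 : ∀ l, (z l : ℝ) = ((N * (x.den : ℚ) ^ e : ℚ) : ℝ) * aeval (x : ℝ) (p l) := by
            intro l
            rw [aeval_cast]
            have := hz l
            exact_mod_cast this
          simp only [h3, mul_assoc]
          rw [← Finset.mul_sum]
          rw [hw] at h2
          simp only at h2
          rw [h2, mul_zero]
        have h2 := key x z h1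
        have h3 : ∀ l, (z l : ℂ) = (((N * (x.den : ℚ) ^ e : ℚ) : ℝ) : ℂ) *
            ((aeval (x : ℝ) (p l) : ℝ) : ℂ) := by
          intro l
          rw [aeval_cast]
          have := hz l
          exact_mod_cast this
        simp only [h3, mul_assoc] at h2
        rw [← Finset.mul_sum] at h2
        refine (mul_eq_zero.1 h2).resolve_left ?_
        exact_mod_cast hD
      -- continuity
      obtain ⟨f, hf⟩ : ∃ f : ℝ → ℂ, f = fun t => ∑ l, ((aeval t (p l) : ℝ) : ℂ) * v l t :=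
        ⟨_, rfl⟩
      have hcont : ContinuousOn f (Icc a b) := by
        rw [hf]
        apply continuousOn_finsetSum
        intro l _
        apply ContinuousOn.mul
        · exact (Complex.continuous_ofReal.comp (Polynomial.continuous_aeval (p l))).continuousOn
        · exact (han l).continuousOn
      have hclosed : IsClosed (Icc a b ∩ f ⁻¹' {0}) :=
        hcont.preimage_isClosed_of_isClosed isClosed_Icc isClosed_singleton
      have hdense : Icc a b ⊆ closure (Ioo a b ∩ Set.range ((↑) : ℚ → ℝ)) := by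
        have h1 := (Rat.denseRange_cast (𝕜 := ℝ)).open_subset_closure_inter (isOpen_Ioo (a := a) (b := b))
        have h2 := closure_mono h1
        rw [closure_closure, closure_Ioo hab.ne] at h2
        exact h2
      have hsub2 : Ioo a b ∩ Set.range ((↑) : ℚ → ℝ) ⊆ Icc a b ∩ f ⁻¹' {0} := by
        rintro t ⟨ht, x, rfl⟩
        refine ⟨Ioo_subset_Icc_self ht, ?_⟩
        rw [Set.mem_preimage, Set.mem_singleton_iff, hf]
        exact hrat x (Ioo_subset_Icc_self ht)
      have hall := hdense.trans (closure_minimal hsub2 hclosed)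
      intro t ht
      have := (hall ht).2
      rw [Set.mem_preimage, Set.mem_singleton_iff, hf] at this
      exact this
  exact_mod_cast Set.ncard_le_ncard hsub hfin

end Pool.Agent.TH818.AR
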