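import Pool.Agent.TH818.AR.All

/-!
# Relations at rational points are specialisations of relations between functions: statement
-/

set_option autoImplicit false

open Set Polynomial Filter Topology

namespace Pool.Agent.TH818.AR

/-- `c` is the value at `q` of a relation with coefficients in `ℚ[t]` between the functions `v_l` on `[a,b]` -/
def Functional {m : ℕ} (v : Fin m → ℝ → ℂ) (a b : ℝ) (q : ℚ) (c : Fin m → ℤ) : Prop :=
  ∃ p : Fin m → ℚ[X], (∀ t ∈ Icc a b, ∑ l, ((aeval t (p l) : ℝ) : ℂ) * v l t = 0) ∧ ∀ l, (p l).eval q = c l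

/-- for arbitrary complex-valued analytic functions of a real variable, at all but `C T^β` rationals of height `≤ T` all
relations of height `≤ T^A` are functional -/
def T_spec : Prop := ∀ (m : ℕ) (v : Fin m → ℝ → ℂ) (a b A β : ℝ), a < b →
  (∀ l, AnalyticOnNhd ℝ (v l) (Icc a b)) → 2 * (m : ℝ) / (m + 1) < β →
  ∃ C : ℝ, 0 < C ∧ ∀ T : ℝ, 1 ≤ T →
    (({q : ℚ | (q : ℝ) ∈ Icc a b ∧ (q.den : ℝ) ≤ T ∧ ∃ c : Fin m → ℤ, (∀ l, |(c l : ℝ)| ≤ T ^ A) ∧
      ∑ l, (c l : ℂ) * v l q = 0 ∧ ¬ Functional v a b q c}).ncard : ℝ) ≤ C * T ^ β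

end Pool.Agent.TH818.AR
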