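import Pool.Agent.TH818.AR.Main

/-!
# Relations at rational points: one stage of the elimination
-/

set_option autoImplicit false

open Set Polynomial Filter Topology

namespace Pool.Agent.TH818.AR

theorem PInd.ne_zero {m r : ℕ} {P : Fin r → Fin m → ℚ[X]} (hP : PInd P) (l : Fin r) : P l ≠ 0 := by
  classical
  intro h
  have := hP (Pi.single l 1) (fun i => by
    rw [Finset.sum_eq_single l]
    · simp [h]
    · intro j _ hj
      simp [Pi.single_eq_of_ne hj]
    · simp)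
  have h2 := congrFun this l
  simp at h2

/-- the arithmetic of the exponents -/
theorem exponent (r : ℕ) (hr : 0 < r) (A β : ℝ) (hβ : 2 * (r : ℝ) / (r + 1) < β) (N : ℕ) :
    ∃ k : ℕ, N ≤ k ∧ N * (k + 1) ≤ ex r k ∧
      A * (((k + 1) * r : ℕ) : ℝ) + ((k * ((k + 1) * r) : ℕ) : ℝ) - β * ((ex r k - N * (k + 1) : ℕ) : ℝ) ≤ -1 := by
  have hr0 : (0 : ℝ) < r := by exact_mod_cast hr
  have hβ0 : 0 < β := lt_of_le_of_lt (by positivity) hβ
  have hγ : 0 < β * (r + 1) / 2 - r := by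
    rw [div_lt_iff₀ (by positivity)] at hβ
    linarith
  obtain ⟨k1, hk1⟩ := exists_nat_ge ((r * A - β + β * N + 1) / (β * (r + 1) / 2 - r))
  refine ⟨max k1 N, le_max_right _ _, ?_, ?_⟩
  · unfold ex
    have : N ≤ max k1 N + 1 := by have := le_max_right k1 N; omega
    nlinarith [Nat.zero_le ((r - 1) * (max k1 N * (max k1 N + 1) / 2))]
  · set k := max k1 N with hk
    have hkN : N ≤ k := le_max_right _ _
    have hkk : (k1 : ℝ) ≤ k := by exact_mod_cast le_max_left _ _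
    have h1 : (r * A - β + β * N + 1) ≤ k * (β * (r + 1) / 2 - r) := by
      have := (div_le_iff₀ hγ).1 (hk1.trans hkk)
      linarith
    have hexle : N * (k + 1) ≤ ex r k := by
      unfold ex
      nlinarith [Nat.zero_le ((r - 1) * (k * (k + 1) / 2))]
    have hev : 2 ∣ k * (k + 1) := (Nat.even_mul_succ_self k).two_dvd
    have hex : ((ex r k - N * (k + 1) : ℕ) : ℝ) = (k + 1) * ((r - 1) * k / 2 + (k + 1) - N) := by
      rw [Nat.cast_sub hexle]
      unfold ex
      push_cast [Nat.cast_sub hr, Nat.cast_div hev (by norm_num : ((2 : ℕ) : ℝ) ≠ 0)]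
      ring
    rw [hex]
    push_cast
    have h2 : A * ((k + 1) * r) + k * ((k + 1) * r) - β * ((k + 1) * ((r - 1) * k / 2 + (k + 1) - N)) =
        (k + 1) * ((r * A - β + β * N) - k * (β * (r + 1) / 2 - r)) := by ring
    rw [h2]
    have hk0 : (0 : ℝ) ≤ k := by positivity
    nlinarith

theorem stage (hlow : T_low) (htay : T_taylor) (hdet : T_det) (harith : T_arith) (haux : T_aux)
    {m r : ℕ} (hr : 0 < r) (v : Fin m → ℝ → ℝ) (a b : ℝ) (hab : a < b)
    (han : ∀ l, AnalyticOnNhd ℝ (v l) (Icc a b)) (hv : PolyIndep v a b) (A β : ℝ)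
    (hβ : 2 * (r : ℝ) / (r + 1) < β) (D : ℕ) :
    ∃ (k : ℕ) (T0 : ℝ), 1 ≤ T0 ∧ ∀ P : Fin r → Fin m → ℚ[X], (∀ l i, (P l i).natDegree ≤ D) → PInd P →
      ∀ T u u' : ℝ, T0 ≤ T → a ≤ u → u < u' → u' ≤ b → u' - u ≤ T ^ (-β) →
      ∃ p : Fin r → ℚ[X], p ≠ 0 ∧ (∀ l, (p l).natDegree ≤ k) ∧ ∀ q : ℚ, (q : ℝ) ∈ Icc u u' → (q.den : ℝ) ≤ T →
        ∀ c : Fin r → ℤ, (∀ l, |(c l : ℝ)| ≤ T ^ A) → ∑ l, (c l : ℝ) * ff v P l q = 0 →
        ∑ l, (p l).eval q * (c l : ℚ) = 0 := by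
  obtain ⟨n, w, hw, hb⟩ := basis v a b hab han D
  obtain ⟨N, c0, hc0, hlow'⟩ := hlow a b n w hw
  obtain ⟨k, hkN, hex, hexp⟩ := exponent r hr A β hβ N
  obtain ⟨B, hB, htay'⟩ := htay a b n w hw k
  have hr0 : (0 : ℝ) < r := by exact_mod_cast hr
  have hβ0 : 0 < β := lt_of_le_of_lt (by positivity) hβ
  -- the constant
  set C1 : ℝ := (((k + 1) * r).factorial : ℝ) * (r * B) ^ (k + 1) / c0 ^ (k + 1) with hC1
  have hC1p : 0 < C1 := by positivity
  refine ⟨k, C1 + 1, by linarith, ?_⟩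
  intro P hPD hP T u u' hT hau huu hub hlen
  have hT1 : 1 ≤ T := by linarith
  have hT0 : 0 < T := by linarith
  choose x hx using fun l => hb (P l) (hPD l)
  have hx0 : ∀ l, x l ≠ 0 := by
    intro l h0
    refine hP.ne_zero l (hv (P l) fun t ht => ?_)
    rw [hx l t ht, h0]
    simp [comb]
  have : Nonempty (Fin r) := ⟨⟨0, hr⟩⟩
  obtain ⟨l0, hl0⟩ := Finite.exists_max (fun l => ‖x l‖)
  set X := ‖x l0‖ with hX
  have hXp : 0 < X := norm_pos_iff.2 (hx0 l0)
  obtain ⟨t0, ht0, hlow0⟩ := hlow' (x l0) u u' hau huu hub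
  have hIcc : Icc u u' ⊆ Icc a b := Icc_subset_Icc hau hub
  set η := u' - u with hη
  have hηp : 0 < η := by linarith
  let S : Set (ℚ × (Fin r → ℤ)) := {s | (s.1 : ℝ) ∈ Icc u u' ∧ (s.1.den : ℝ) ≤ T ∧
    (∀ l, |(s.2 l : ℝ)| ≤ T ^ A) ∧ ∑ l, (s.2 l : ℝ) * ff v P l s.1 = 0}
  obtain ⟨p, hp0, hpk, hp⟩ := haux r k S hr (by
    intro e he
    by_contra hne
    -- cast to ℝ
    have hcast : (Matrix.of fun x y : Fin (k + 1) × Fin r => (((e x).1 : ℝ)) ^ (y.1 : ℕ) * ((e x).2 y.2 : ℝ)).det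
        = (((Matrix.of fun x y : Fin (k + 1) × Fin r => (e x).1 ^ (y.1 : ℕ) * ((e x).2 y.2 : ℚ)).det : ℚ) : ℝ) := by
      have := RingHom.map_det (Rat.castHom ℝ) (Matrix.of fun x y : Fin (k + 1) × Fin r =>
        (e x).1 ^ (y.1 : ℕ) * ((e x).2 y.2 : ℚ))
      rw [show (((Matrix.of fun x y : Fin (k + 1) × Fin r => (e x).1 ^ (y.1 : ℕ) * ((e x).2 y.2 : ℚ)).det : ℚ) : ℝ)
        = (Rat.castHom ℝ) ((Matrix.of fun x y : Fin (k + 1) × Fin r =>
          (e x).1 ^ (y.1 : ℕ) * ((e x).2 y.2 : ℚ)).det) from rfl, this]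
      congr 1
      ext i j
      simp
    have hne' : (Matrix.of fun x y : Fin (k + 1) × Fin r => (((e x).1 : ℝ)) ^ (y.1 : ℕ) * ((e x).2 y.2 : ℝ)).det
        ≠ 0 := by
      rw [hcast]
      exact_mod_cast hne
    have hlower := harith r k (fun x => (e x).1) (fun x => (e x).2) T hT1 (fun x => (he x).2.1) hne'
    have hupper := hdet r k l0 t0 η (T ^ A) B (fun x => ((e x).1 : ℝ)) (fun x l => ((e x).2 l : ℝ))
      (fun y l => comb w (x l) ((e y).1 : ℝ) / X)
      (fun l j => iteratedDeriv j (comb w (x l)) t0 / (j.factorial : ℝ) / X) hηp.le (by positivity) hB.le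
      (by
        intro y
        have h1 := (he y).1
        rw [abs_le]
        constructor <;> linarith [h1.1, h1.2, ht0.1, ht0.2])
      (fun y l => (he y).2.2.1 l)
      (by
        intro y
        have h1 := (he y).2.2.2
        have h2 : ∀ l, comb w (x l) ((e y).1 : ℝ) = ff v P l ((e y).1 : ℝ) := fun l =>
          (hx l _ (hIcc (he y).1)).symm
        simp only [h2]
        have : ∑ l, ((e y).2 l : ℝ) * (ff v P l ((e y).1 : ℝ) / X) =
          (∑ l, ((e y).2 l : ℝ) * ff v P l ((e y).1 : ℝ)) / X := by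
          rw [Finset.sum_div]
          exact Finset.sum_congr rfl fun l _ => by ring
        rw [this, h1, zero_div])
      (by
        intro y l i hi
        have h1 := htay' (x l) t0 ((e y).1 : ℝ) (hIcc ht0) (hIcc (he y).1) i hi
        have h2 : comb w (x l) ((e y).1 : ℝ) / X - ∑ j ∈ Finset.range (i + 1),
            iteratedDeriv j (comb w (x l)) t0 / (j.factorial : ℝ) / X * (((e y).1 : ℝ) - t0) ^ j =
            (comb w (x l) ((e y).1 : ℝ) - ∑ j ∈ Finset.range (i + 1),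
              iteratedDeriv j (comb w (x l)) t0 / (j.factorial : ℝ) * (((e y).1 : ℝ) - t0) ^ j) / X := by
          rw [sub_div, Finset.sum_div]
          congr 1
          exact Finset.sum_congr rfl fun j _ => by ring
        rw [h2, abs_div, abs_of_pos hXp, div_le_iff₀ hXp]
        refine h1.trans ?_
        have h3 : |((e y).1 : ℝ) - t0| ≤ η := by
          have h1 := (he y).1
          rw [abs_le]
          constructor <;> linarith [h1.1, h1.2, ht0.1, ht0.2]
        have h4 : |((e y).1 : ℝ) - t0| ^ (i + 1) ≤ η ^ (i + 1) := pow_le_pow_left₀ (abs_nonneg _) h3 _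
        calc B * ‖x l‖ * |((e y).1 : ℝ) - t0| ^ (i + 1) ≤ B * X * η ^ (i + 1) := by
              have := hl0 l
              gcongr
          _ = B * η ^ (i + 1) * X := by ring)
    set Δ := |(Matrix.of fun x y : Fin (k + 1) × Fin r =>
      (((e x).1 : ℝ)) ^ (y.1 : ℕ) * ((e x).2 y.2 : ℝ)).det| with hΔ
    have hΔ0 : 0 ≤ Δ := abs_nonneg _
    -- the lower bound for τ
    have hτ : c0 * η ^ N ≤ |iteratedDeriv 0 (comb w (x l0)) t0 / ((Nat.factorial 0 : ℕ) : ℝ) / X| := by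
      simp only [iteratedDeriv_zero, Nat.factorial_zero, Nat.cast_one, div_one]
      rw [abs_div, abs_of_pos hXp, le_div_iff₀ hXp]
      exact hlow0
    have hτ' : (c0 * η ^ N) ^ (k + 1) ≤
        |iteratedDeriv 0 (comb w (x l0)) t0 / ((Nat.factorial 0 : ℕ) : ℝ) / X| ^ (k + 1) :=
      pow_le_pow_left₀ (by positivity) hτ _
    have h5 : Δ * (c0 * η ^ N) ^ (k + 1) ≤ (((k + 1) * r).factorial : ℝ) * (T ^ A) ^ ((k + 1) * r) *
        (r * B) ^ (k + 1) * η ^ ex r k := (mul_le_mul_of_nonneg_left hτ' hΔ0).trans hupper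
    have h6 : Δ ≤ C1 * (T ^ A) ^ ((k + 1) * r) * η ^ (ex r k - N * (k + 1)) := by
      have h7 : η ^ ex r k = η ^ (ex r k - N * (k + 1)) * η ^ (N * (k + 1)) := by
        rw [← pow_add]; congr 1; omega
      rw [h7, mul_pow, ← pow_mul] at h5
      have h8 : 0 < c0 ^ (k + 1) * η ^ (N * (k + 1)) := by positivity
      refine le_of_mul_le_mul_right (h5.trans (le_of_eq ?_)) h8
      rw [hC1]
      field_simp
    have h9 : η ^ (ex r k - N * (k + 1)) ≤ (T ^ (-β)) ^ (ex r k - N * (k + 1)) :=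
      pow_le_pow_left₀ hηp.le hlen _
    have h10 : 1 ≤ C1 * T ^ (-1 : ℝ) := by
      calc (1 : ℝ) ≤ Δ * T ^ (k * ((k + 1) * r)) := hlower
        _ ≤ (C1 * (T ^ A) ^ ((k + 1) * r) * (T ^ (-β)) ^ (ex r k - N * (k + 1))) * T ^ (k * ((k + 1) * r)) := by
            refine mul_le_mul_of_nonneg_right (h6.trans ?_) (by positivity)
            exact mul_le_mul_of_nonneg_left h9 (by positivity)
        _ = C1 * T ^ (A * (((k + 1) * r : ℕ) : ℝ) + ((k * ((k + 1) * r) : ℕ) : ℝ) -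
              β * ((ex r k - N * (k + 1) : ℕ) : ℝ)) := by
            rw [← Real.rpow_natCast (T ^ A), ← Real.rpow_mul hT0.le, ← Real.rpow_natCast (T ^ (-β)),
              ← Real.rpow_mul hT0.le, ← Real.rpow_natCast T, mul_assoc, mul_assoc, ← Real.rpow_add hT0,
              ← Real.rpow_add hT0]
            congr 2
            ring
        _ ≤ C1 * T ^ (-1 : ℝ) := by
            refine mul_le_mul_of_nonneg_left ?_ hC1p.le
            exact Real.rpow_le_rpow_of_exponent_le hT1 hexp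
    rw [Real.rpow_neg_one, ← div_eq_mul_inv, le_div_iff₀ hT0] at h10
    linarith)
  exact ⟨p, hp0, hpk, fun q hq hqd c hc hcs => hp (q, c) ⟨hq, hqd, hc, hcs⟩⟩

end Pool.Agent.TH818.AR
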